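import Pool.Agent.H82.HF.Dam

/-!
# Module Amp: the amplitudes and the oscillation of the approximate solution

* `hr_mono`: `Wp q' ≤ Wp q` for `q ≤ q'` (`1 + |v|² ≥ 1`).
* `hr_cont`: `|a(v+h) - a(v)| ≤ 2C |h|^α` (`Wp ≤ 1`), `α > 0`.
* `len_int`: some `k i = z ≠ 0` is an integer, `nsq k ≥ z² ≥ 1`.
* `amp_le`: `dam1`, `|c v| ≤ a Wp q v`.
* `amp_hr`: bound: `exp(-Dm) ≤ 1` (`dam0`), `Wp (q+2) ≤ Wp q`. Increments: for `len h > 1` the bound `|Am(v+h)| + |Am(v)| ≤ M (Wp q (v+h) + Wp q v)`, `min 1 (len h) ^ α = 1`. For `len h ≤ 1`: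
  `c(v+h)e^(-D(v+h)) - c(v)e^(-D(v)) = (c(v+h)-c(v)) e^(-D(v+h)) + c(v)(e^(-D(v+h)) - e^(-D(v)))`, the second by `dam2` (`R = len k`): `M Wp (q+2) v K₄ min^α (1+|v|²+|v+h|²)` and `1+|v|²+|v+h|² ≤ 4 (1+|v|²)` (`|v+h|² ≤ 2|v|²+2`), so
  `Wp (q+2) v (1+|v|²+|v+h|²) ≤ 4 Wp q v`.
* `osc`: for `g = fa t x`: `|g(v+h)-g(v)| ≤ |F(v+h)-F(v)| + Σ_j |Am_j(v+h)-Am_j(v)| + Σ_j |Am_j(v)| |cos(θ_j-κ_j·(v+h)) - cos(θ_j-κ_j·v)|`, `|cos a - cos b| ≤ min(2,|a-b|)`, `|κ·h| ≤ len κ len h`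
  (Cauchy-Schwarz, see `dot_le` type lemmas of the library), `len ((2πt)•k) = 2πt len k`, `min(2, y) ≤ 2 min(1,y)` for `y ≥ 0`; `|Am_j(v)| ≤ a_j K₃ (1+X)^(-2) Wp q' v` by `amp_le`; `Wp ≤ 1` in the Hoelder part (constant `2 M'` each).
* `fa_le`: `|fa| ≤ |F| + Σ|Am_j| ≤ M' Wp q v`.
* `fa_rate`: `|fa - F| ≤ Σ_j |Am_j| ≤ K₃ (Σ a_j) (1+X)^(-2) Wp (q+2) v`; `(1+X)^(-2) ≤ (1+X)^(-1)`. (`a_j ≥ 0` because `|c_j 0| ≤ a_j Wp 0`.)
`K₃` is the constant of `dam1` (it depends on `S` only and comes first).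
-/

set_option autoImplicit false

open MeasureTheory Set Filter Topology Pool.Agent.H25.Kin Pool.Agent.H48.PL Pool.Agent.H48.PD
open Pool.Agent.H82.BK Pool.Agent.H82.CM Pool.Agent.H48.PR

namespace Pool.Agent.H82.HF

variable {d : ℕ} {s α K c κ₀ : ℝ} {S : Vec d → Vec d → ℝ}

private lemma Amp_wp {q q' : ℕ} (hq : q ≤ q') (v : Vec d) : Wp q' v ≤ Wp q v := by
  have h := sq_nonneg' v
  unfold Wp
  exact inv_anti₀ (by positivity) (pow_le_pow_right₀ (by linarith) hq)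

private lemma Amp_wp2 (q : ℕ) (v : Vec d) : Wp (q + 2) v * (1 + nsq v) ≤ Wp q v := by
  have h := sq_nonneg' v
  have h1 : Wp (q + 2) v * (1 + nsq v) = Wp (q + 1) v := by
    unfold Wp
    have : 0 < 1 + nsq v := by linarith
    field_simp
    ring
  rw [h1]
  exact Amp_wp (Nat.le_succ q) v

private lemma Amp_min0 (h : Vec d) (α : ℝ) : 0 ≤ min 1 (len h) ^ α :=
  Real.rpow_nonneg (le_min zero_le_one (len_nonneg h)) α

theorem hr_mono {q q' : ℕ} (hq : q ≤ q') {M : ℝ} {a : Vec d → ℝ} (h : HR α q' M a) :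
    HR α q M a := by
  refine ⟨h.nn, fun v => (h.le v).trans (mul_le_mul_of_nonneg_left (Amp_wp hq v) h.nn),
    fun v z => (h.hol v z).trans ?_⟩
  have := Amp_min0 z α
  have h0 := h.nn
  exact mul_le_mul_of_nonneg_left (add_le_add (Amp_wp hq v) (Amp_wp hq (v + z))) (by positivity)

private lemma Amp_hol2 {q : ℕ} {M : ℝ} {a : Vec d → ℝ} (h : HR α q M a) (v z : Vec d) :
    |a (v + z) - a v| ≤ 2 * M * min 1 (len z) ^ α := by
  refine (h.hol v z).trans ?_
  have h1 := Amp_min0 z α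
  have h0 := h.nn
  have h2 := Wp_le_one q v
  have h3 := Wp_le_one q (v + z)
  calc M * min 1 (len z) ^ α * (Wp q v + Wp q (v + z)) ≤ M * min 1 (len z) ^ α * 2 :=
        mul_le_mul_of_nonneg_left (by linarith) (by positivity)
    _ = _ := by ring

theorem hr_cont (hα : 0 < α) {q : ℕ} {M : ℝ} {a : Vec d → ℝ} (h : HR α q M a) :
    Continuous a := by
  rw [continuous_iff_continuousAt]
  intro v
  unfold ContinuousAt
  rw [tendsto_iff_norm_sub_tendsto_zero]
  have hc : Continuous (fun w : Vec d => 2 * M * min 1 (len (w - v)) ^ α) := by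
    have h1 : Continuous (fun w : Vec d => len (w - v)) :=
      (continuous_sq.sqrt).comp (continuous_id.sub continuous_const)
    exact continuous_const.mul ((continuous_const.min h1).rpow_const fun _ => Or.inr hα.le)
  have h2 := hc.tendsto v
  have h3 : 2 * M * min 1 (len (v - v)) ^ α = 0 := by
    rw [sub_self, len_zero, min_eq_right zero_le_one, Real.zero_rpow hα.ne', mul_zero]
  rw [h3] at h2
  refine squeeze_zero (fun w => norm_nonneg _) (fun w => ?_) h2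
  have h4 := Amp_hol2 h v (w - v)
  rw [add_sub_cancel] at h4
  exact h4

theorem len_int {k : Vec d} (hk : ∀ i, ∃ z : ℤ, k i = z) (hk0 : k ≠ 0) : 1 ≤ len k := by
  obtain ⟨i, hi⟩ : ∃ i, k i ≠ 0 := by
    by_contra hcon
    push Not at hcon
    exact hk0 (funext hcon)
  obtain ⟨z, hz⟩ := hk i
  have hz0 : z ≠ 0 := by
    intro h0
    apply hi
    rw [hz, h0, Int.cast_zero]
  have h1 : (1 : ℝ) ≤ |k i| := by
    rw [hz, ← Int.cast_abs]
    exact_mod_cast Int.one_le_abs hz0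
  exact h1.trans (abs_coord_le k i)

private lemma Amp_exp1 (hS : SgH s α K c κ₀ S) {δ t : ℝ} (hδ : 0 ≤ δ) (ht : 0 ≤ t) (k v : Vec d) :
    Real.exp (-Dm S δ k t v) ≤ 1 :=
  Real.exp_le_one_iff.2 (by linarith [dam0 hS hδ ht k v])

private lemma Amp_le1 (hS : SgH s α K c κ₀ S) {δ t : ℝ} (hδ : 0 ≤ δ) (ht : 0 ≤ t) (k v : Vec d)
    (g : Vec d → ℝ) : |Am S δ g k t v| ≤ |g v| := by
  unfold Am
  rw [abs_mul, abs_of_pos (Real.exp_pos _)]
  exact mul_le_of_le_one_right (abs_nonneg _) (Amp_exp1 hS hδ ht k v)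

theorem amp_hr (hs : 0 < s) (hα : 0 < α) (hS : SgH s α K c κ₀ S) {q : ℕ} {n : ℕ} {M : ℝ}
    {a : Fin n → ℝ} {cc : Fin n → Vec d → ℝ} {k : Fin n → Vec d} (hF : Fam α (q + 2) M a cc k) :
    ∃ M' : ℝ, 0 ≤ M' ∧ ∀ δ : ℝ, 0 < δ → δ ≤ 1 → ∀ t : ℝ, 0 ≤ t → ∀ j,
      HR α q M' (Am S δ (cc j) (k j) t) := by
  obtain ⟨K₄, hK₄, hd2⟩ := dam2 hs hS (∑ j, len (k j))
  refine ⟨|M| * (1 + 4 * K₄), by positivity, fun δ hδ hδ1 t ht j => ?_⟩
  have hM0 : 0 ≤ M := (hF.hc j).nn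
  have hMM : M ≤ |M| * (1 + 4 * K₄) := by
    rw [abs_of_nonneg hM0]
    exact le_mul_of_one_le_right hM0 (by linarith)
  have hj1 : 1 ≤ len (k j) := len_int (hF.hk j) (hF.hk0 j)
  have hjR : len (k j) ≤ ∑ j, len (k j) :=
    Finset.single_le_sum (fun i _ => len_nonneg (k i)) (Finset.mem_univ j)
  have hb : ∀ v, |Am S δ (cc j) (k j) t v| ≤ M * Wp q v := fun v =>
    (Amp_le1 hS hδ.le ht (k j) v (cc j)).trans (((hF.hc j).le v).trans
      (mul_le_mul_of_nonneg_left (Amp_wp (by omega) v) hM0))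
  refine ⟨by positivity, fun v => (hb v).trans
    (mul_le_mul_of_nonneg_right hMM (Wp_pos q v).le), fun v h => ?_⟩
  have w1 := Wp_pos q v
  have w2 := Wp_pos q (v + h)
  rcases le_or_gt (len h) 1 with hh | hh
  · have hm0 := Amp_min0 h α
    generalize hmm : min 1 (len h) ^ α = m at hm0
    have e : Am S δ (cc j) (k j) t (v + h) - Am S δ (cc j) (k j) t v =
        (cc j (v + h) - cc j v) * Real.exp (-Dm S δ (k j) t (v + h)) +
          cc j v * (Real.exp (-Dm S δ (k j) t (v + h)) - Real.exp (-Dm S δ (k j) t v)) := by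
      unfold Am; ring
    have b1 : |(cc j (v + h) - cc j v) * Real.exp (-Dm S δ (k j) t (v + h))| ≤
        M * m * (Wp q v + Wp q (v + h)) := by
      rw [abs_mul, abs_of_pos (Real.exp_pos _)]
      refine (mul_le_of_le_one_right (abs_nonneg _) (Amp_exp1 hS hδ.le ht (k j) (v + h))).trans ?_
      have := (hF.hc j).hol v h
      rw [hmm] at this
      refine this.trans (mul_le_mul_of_nonneg_left ?_ (by positivity))
      exact add_le_add (Amp_wp (by omega) v) (Amp_wp (by omega) (v + h))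
    have b2 : |cc j v * (Real.exp (-Dm S δ (k j) t (v + h)) - Real.exp (-Dm S δ (k j) t v))| ≤
        M * (4 * K₄) * m * Wp q v := by
      rw [abs_mul]
      have h1 := hd2 (k j) hj1 hjR δ hδ hδ1 t ht v h
      rw [hmm] at h1
      have h2 := (hF.hc j).le v
      have n1 := sq_nonneg' v
      have n2 : nsq (v + h) ≤ 2 * nsq v + 2 := by
        have h3 := nsq_par v h
        have h4 := sq_nonneg' (v - h)
        have h5 : nsq h ≤ 1 := by
          rw [← len_sq]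
          exact pow_le_one₀ (len_nonneg h) hh
        linarith
      have h6 : K₄ * m * (1 + nsq v + nsq (v + h)) ≤ K₄ * m * (4 * (1 + nsq v)) :=
        mul_le_mul_of_nonneg_left (by linarith) (by positivity)
      have w3 := Wp_pos (q + 2) v
      calc |cc j v| * |Real.exp (-Dm S δ (k j) t (v + h)) - Real.exp (-Dm S δ (k j) t v)| ≤
            (M * Wp (q + 2) v) * (K₄ * m * (4 * (1 + nsq v))) :=
            mul_le_mul h2 (h1.trans h6) (abs_nonneg _) (by positivity)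
        _ = M * (4 * K₄) * m * (Wp (q + 2) v * (1 + nsq v)) := by ring
        _ ≤ M * (4 * K₄) * m * Wp q v :=
            mul_le_mul_of_nonneg_left (Amp_wp2 q v) (by positivity)
    rw [e, abs_of_nonneg hM0]
    refine (abs_add_le _ _).trans ((add_le_add b1 b2).trans ?_)
    have h7 : 0 ≤ M * (4 * K₄) * m * Wp q (v + h) := by positivity
    calc M * m * (Wp q v + Wp q (v + h)) + M * (4 * K₄) * m * Wp q v ≤
          M * m * (Wp q v + Wp q (v + h)) + M * (4 * K₄) * m * Wp q v +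
            M * (4 * K₄) * m * Wp q (v + h) := by linarith
      _ = _ := by ring
  · rw [min_eq_left hh.le, Real.one_rpow, mul_one]
    have h1 : |Am S δ (cc j) (k j) t (v + h) - Am S δ (cc j) (k j) t v| ≤
        M * (Wp q v + Wp q (v + h)) := by
      refine (abs_sub _ _).trans ?_
      linarith [hb v, hb (v + h)]
    exact h1.trans (mul_le_mul_of_nonneg_right hMM (by positivity))

private lemma Amp_dot (u v : Vec d) : |dot u v| ≤ len u * len v := by
  have hu := len_nonneg u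
  have hv := len_nonneg v
  refine abs_le_of_sq_le_sq ?_ (by positivity)
  rw [mul_pow, len_sq, len_sq]
  exact dot_sq_le u v

private lemma Amp_cos (x y z : ℝ) (h : |x - y| ≤ z) :
    |Real.cos x - Real.cos y| ≤ 2 * min 1 z := by
  have h1 : |Real.cos x - Real.cos y| ≤ |x - y| := Real.abs_cos_sub_cos_le x y
  have h2 : |Real.cos x - Real.cos y| ≤ 2 := by
    refine (abs_sub _ _).trans ?_
    linarith [Real.abs_cos_le_one x, Real.abs_cos_le_one y]
  have h0 : 0 ≤ z := (abs_nonneg _).trans h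
  rcases le_total 1 z with h3 | h3
  · rw [min_eq_left h3]; linarith
  · rw [min_eq_right h3]; linarith

theorem osc (hs : 0 < s) (hα : 0 < α) (hS : SgH s α K c κ₀ S) : ∃ K₃ : ℝ, 1 ≤ K₃ ∧
    ∀ (q n : ℕ) (M MF : ℝ) (F : Vec d → ℝ) (a : Fin n → ℝ) (cc : Fin n → Vec d → ℝ)
      (k : Fin n → Vec d), HR α (q + 2) MF F → Fam α (q + 2) M a cc k →
    ∃ M' : ℝ, 0 ≤ M' ∧ ∀ δ : ℝ, 0 < δ → δ ≤ 1 → ∀ t : ℝ, 0 ≤ t → ∀ (φ : Fin n → ℝ) (x v : Vec d),
      |fa S δ F cc k φ t x v| ≤ M' * Wp q v ∧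
      |fa S δ F cc k φ t x v - F v| ≤ K₃ * (∑ j, a j) / (1 + δ * t ^ (1 + 2 * s)) * Wp q v ∧
      ∀ h : Vec d, |fa S δ F cc k φ t x (v + h) - fa S δ F cc k φ t x v| ≤
        M' * min 1 (len h) ^ α +
          ∑ j, (2 * K₃ * a j * ((1 + δ * t ^ (1 + 2 * s)) ^ 2)⁻¹ * Wp (q + 2) v) *
            min 1 ((2 * Real.pi * t * len (k j)) * len h) := by
  obtain ⟨K₃, hK₃, hd1⟩ := dam1 hs hS
  refine ⟨K₃, hK₃, fun q n M MF F a cc k hF hFam => ?_⟩
  obtain ⟨M₁, hM₁, hAm⟩ := amp_hr hs hα hS hFam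
  have hMF := hF.nn
  have hF' : HR α q MF F := hr_mono (by omega) hF
  refine ⟨2 * MF + 2 * (n * M₁), by positivity, fun δ hδ hδ1 t ht φ x v => ?_⟩
  have hX : 0 ≤ δ * t ^ (1 + 2 * s) := mul_nonneg hδ.le (Real.rpow_nonneg ht _)
  have ha0 : ∀ j, 0 ≤ a j := by
    intro j
    have h1 := (abs_nonneg _).trans (hFam.ha j 0)
    exact nonneg_of_mul_nonneg_left h1 (Wp_pos (q + 2) (0 : Vec d))
  have hHR : ∀ j, HR α q M₁ (Am S δ (cc j) (k j) t) := hAm δ hδ hδ1 t ht
  have hamp : ∀ j, |Am S δ (cc j) (k j) t v| ≤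
      K₃ * a j * ((1 + δ * t ^ (1 + 2 * s)) ^ 2)⁻¹ * Wp (q + 2) v := by
    intro j
    have h1 := hd1 (k j) (len_int (hFam.hk j) (hFam.hk0 j)) δ hδ hδ1 t ht v
    have hpos : 0 < (1 + δ * t ^ (1 + 2 * s)) ^ 2 := by positivity
    have h2 : Real.exp (-Dm S δ (k j) t v) ≤ K₃ * ((1 + δ * t ^ (1 + 2 * s)) ^ 2)⁻¹ := by
      rw [← div_eq_mul_inv, le_div_iff₀ hpos]
      exact h1
    unfold Am
    rw [abs_mul, abs_of_pos (Real.exp_pos _)]
    calc |cc j v| * Real.exp (-Dm S δ (k j) t v) ≤ (a j * Wp (q + 2) v) *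
          (K₃ * ((1 + δ * t ^ (1 + 2 * s)) ^ 2)⁻¹) :=
          mul_le_mul (hFam.ha j v) h2 (Real.exp_pos _).le
            (mul_nonneg (ha0 j) (Wp_pos _ v).le)
      _ = _ := by ring
  have hfa : ∀ u, fa S δ F cc k φ t x u = F u + ∑ j, Am S δ (cc j) (k j) t u *
      Real.cos (2 * Real.pi * dot (k j) x + φ j - dot ((2 * Real.pi * t) • k j) u) :=
    fun u => rfl
  have hcard : ∑ _j : Fin n, M₁ = n * M₁ := by simp
  refine ⟨?_, ?_, fun h => ?_⟩
  · have h1 : |∑ j, Am S δ (cc j) (k j) t v *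
        Real.cos (2 * Real.pi * dot (k j) x + φ j - dot ((2 * Real.pi * t) • k j) v)| ≤
        (n * M₁) * Wp q v := by
      refine (Finset.abs_sum_le_sum_abs _ _).trans ?_
      rw [← hcard, Finset.sum_mul]
      refine Finset.sum_le_sum fun j _ => ?_
      rw [abs_mul]
      exact (mul_le_of_le_one_right (abs_nonneg _) (Real.abs_cos_le_one _)).trans ((hHR j).le v)
    rw [hfa]
    refine (abs_add_le _ _).trans ((add_le_add (hF'.le v) h1).trans ?_)
    have w := Wp_pos q v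
    have h2 : 0 ≤ MF * Wp q v := by positivity
    have h3 : 0 ≤ (n : ℝ) * M₁ * Wp q v := by positivity
    calc MF * Wp q v + n * M₁ * Wp q v ≤ 2 * (MF * Wp q v) + 2 * (n * M₁ * Wp q v) := by linarith
      _ = _ := by ring
  · rw [hfa, add_sub_cancel_left]
    refine (Finset.abs_sum_le_sum_abs _ _).trans ?_
    have e : K₃ * (∑ j, a j) / (1 + δ * t ^ (1 + 2 * s)) * Wp q v =
        ∑ j, K₃ * a j * (1 + δ * t ^ (1 + 2 * s))⁻¹ * Wp q v := by
      rw [← Finset.sum_mul, ← Finset.sum_mul, ← Finset.mul_sum, div_eq_mul_inv]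
    rw [e]
    refine Finset.sum_le_sum fun j _ => ?_
    rw [abs_mul]
    refine (mul_le_of_le_one_right (abs_nonneg _) (Real.abs_cos_le_one _)).trans
      ((hamp j).trans ?_)
    have h1 : ((1 + δ * t ^ (1 + 2 * s)) ^ 2)⁻¹ ≤ (1 + δ * t ^ (1 + 2 * s))⁻¹ := by
      refine inv_anti₀ (by linarith) ?_
      exact le_self_pow₀ (by linarith) (by norm_num)
    have h2 := ha0 j
    have h3 := Wp_pos (q + 2) v
    have h4 : 0 ≤ (1 + δ * t ^ (1 + 2 * s))⁻¹ := by positivity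
    calc K₃ * a j * ((1 + δ * t ^ (1 + 2 * s)) ^ 2)⁻¹ * Wp (q + 2) v ≤
          K₃ * a j * (1 + δ * t ^ (1 + 2 * s))⁻¹ * Wp (q + 2) v :=
          mul_le_mul_of_nonneg_right (mul_le_mul_of_nonneg_left h1 (by positivity)) h3.le
      _ ≤ K₃ * a j * (1 + δ * t ^ (1 + 2 * s))⁻¹ * Wp q v :=
          mul_le_mul_of_nonneg_left (Amp_wp (by omega) v) (by positivity)
  · have hm0 := Amp_min0 h α
    rw [hfa, hfa]
    generalize hCC : (fun (j : Fin n) (u : Vec d) =>
      Real.cos (2 * Real.pi * dot (k j) x + φ j - dot ((2 * Real.pi * t) • k j) u)) = CC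
    have hCC' : ∀ j u, Real.cos (2 * Real.pi * dot (k j) x + φ j -
        dot ((2 * Real.pi * t) • k j) u) = CC j u := fun j u => by rw [← hCC]
    have hC1 : ∀ j u, |CC j u| ≤ 1 := fun j u => by
      rw [← hCC' j u]; exact Real.abs_cos_le_one _
    have hC2 : ∀ j, |CC j (v + h) - CC j v| ≤
        2 * min 1 ((2 * Real.pi * t * len (k j)) * len h) := by
      intro j
      rw [← hCC' j (v + h), ← hCC' j v]
      refine Amp_cos _ _ _ ?_
      have e1 : 2 * Real.pi * dot (k j) x + φ j - dot ((2 * Real.pi * t) • k j) (v + h) -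
          (2 * Real.pi * dot (k j) x + φ j - dot ((2 * Real.pi * t) • k j) v) =
          -dot ((2 * Real.pi * t) • k j) h := by
        rw [dot_add]; ring
      rw [e1, abs_neg]
      refine (Amp_dot _ _).trans ?_
      rw [len_smul (by positivity)]
    simp only [hCC']
    have e : F (v + h) + ∑ j, Am S δ (cc j) (k j) t (v + h) * CC j (v + h) -
        (F v + ∑ j, Am S δ (cc j) (k j) t v * CC j v) =
        (F (v + h) - F v) +
        (∑ j, (Am S δ (cc j) (k j) t (v + h) - Am S δ (cc j) (k j) t v) * CC j (v + h)) +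
        ∑ j, Am S δ (cc j) (k j) t v * (CC j (v + h) - CC j v) := by
      have e2 : ∑ j, Am S δ (cc j) (k j) t (v + h) * CC j (v + h) -
          ∑ j, Am S δ (cc j) (k j) t v * CC j v =
          (∑ j, (Am S δ (cc j) (k j) t (v + h) - Am S δ (cc j) (k j) t v) * CC j (v + h)) +
          ∑ j, Am S δ (cc j) (k j) t v * (CC j (v + h) - CC j v) := by
        rw [← Finset.sum_sub_distrib, ← Finset.sum_add_distrib]
        exact Finset.sum_congr rfl fun j _ => by ring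
      linarith
    rw [e]
    have b1 : |F (v + h) - F v| ≤ 2 * MF * min 1 (len h) ^ α := Amp_hol2 hF' v h
    have b2 : |∑ j, (Am S δ (cc j) (k j) t (v + h) - Am S δ (cc j) (k j) t v) * CC j (v + h)| ≤
        2 * (n * M₁) * min 1 (len h) ^ α := by
      refine (Finset.abs_sum_le_sum_abs _ _).trans ?_
      rw [← hcard, Finset.mul_sum, Finset.sum_mul]
      refine Finset.sum_le_sum fun j _ => ?_
      rw [abs_mul]
      exact (mul_le_of_le_one_right (abs_nonneg _) (hC1 j (v + h))).trans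
        (Amp_hol2 (hHR j) v h)
    have b3 : |∑ j, Am S δ (cc j) (k j) t v * (CC j (v + h) - CC j v)| ≤
        ∑ j, (2 * K₃ * a j * ((1 + δ * t ^ (1 + 2 * s)) ^ 2)⁻¹ * Wp (q + 2) v) *
            min 1 ((2 * Real.pi * t * len (k j)) * len h) := by
      refine (Finset.abs_sum_le_sum_abs _ _).trans (Finset.sum_le_sum fun j _ => ?_)
      rw [abs_mul]
      have h2 := ha0 j
      have h3 := Wp_pos (q + 2) v
      calc |Am S δ (cc j) (k j) t v| * |CC j (v + h) - CC j v| ≤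
            (K₃ * a j * ((1 + δ * t ^ (1 + 2 * s)) ^ 2)⁻¹ * Wp (q + 2) v) *
              (2 * min 1 ((2 * Real.pi * t * len (k j)) * len h)) :=
            mul_le_mul (hamp j) (hC2 j) (abs_nonneg _) (by positivity)
        _ = _ := by ring
    refine (abs_add_le _ _).trans ((add_le_add ((abs_add_le _ _).trans (add_le_add b1 b2))
      b3).trans (le_of_eq ?_))
    ring

end Pool.Agent.H82.HF
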