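import Pool.Agent.H82.HF.Defs

/-!
# Dilute gases without symmetry (MP_c15324_an): definitions of block A / T of the layer lemma

LAYER LEMMA. `0 ≤ γ`, `2s < 1`, `γ + 2s ≤ 2`, `2s < α ≤ 1`. Let `F ≥ 0` be Hoelder continuous (class `HR`), not identically `0`, and let `h(x,v) = F(v) + Σ_j c_j(v) cos(2π k_j·x + φ_j)` be a finite family with
`k_j ∈ ℤ^d \ {0}`, `c_j` of the class `HR`. Let `f` be a classical solution with the kernel `δ b` on `[0,T)`, `δ T ≤ θ` small, `|f(0) - h| ≤ ι W`, `W = ⟨v⟩^(-2p)`. Then `|f(t) - F| ≤ (2 e^(K A) ι + K (Σ a_j)/(1+X)) W`,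
`X = δ t^(1+2s)`, `A = Σ_j a_j |k_j|^(2s)`, `|c_j| ≤ a_j ⟨v⟩^(-2q)`, `K` depends on `F` only, `θ` on everything except `δ`. As `δ → 0` one may take `t` with `δ t → 0` and `X → ∞`.

PROOF. `S(κ,v)` = the damping rate `∫∫ K F(v-m)(1 - cos(κ·h))` of H15/HF, with the properties `SgH`. Approximate solution
`fa(t,x,v) = F(v) + Σ_j c_j(v) e^(-D_j(t,v)) cos(2π k_j·(x-tv) + φ_j)`, `D_j(t,v) = δ ∫_0^t S(2π r k_j, v) dr`.
* Dam, Amp: `e^(-D_j) ≤ K₃ (1+X)^(-2)`, Hoelder bounds uniform in `t ≥ 0`, `δ ≤ 1`; Cont: continuity; Chr: derivative along the characteristics `= -δ Σ_j S_j A_j cos`.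
* block R (H15/HF): `|boltzCut(fa) + Σ_j S_j A_j cos| ≤ K (1+|v|²)²`, uniformly in `t`, `δ`.
* TchL: at a point `v` where `e(f - fa) = Λ W`, `|f - fa| ≤ Λ W`: `e(boltzCut f - boltzCut fa) ≤ Λ [K₁ (1+|v|²)² + K₂ (1+|v|²) Σ_j (amplitude_j(v)) N_j^(2s)]`, `N_j = 2π t |k_j|`, `K₂` universal.
* Tch3: first touching point of `|f - fa|` with the barrier `B(t) W`; the touching points have `|v| ≤ R` with `R` independent of `δ`. Bar: explicit barrier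
  `B(t) = (3ι/2 + δ K_r t) exp(δ K₁ t + K_A (1 - 1/(1+X)))`, since `δ t^(2s) (1+X)^(-2)` is the derivative of `-(1/(1+2s)) (1+X)^(-1)`.
* PrpD: decay constants of `f` for the kernel `δ b` on times `≤ 1/δ`, uniformly in `δ` (scaling `f(nt,nx,v)`, module Scl, and `prp`).
-/

set_option autoImplicit false

open MeasureTheory Set Filter Topology Pool.Agent.H25.Kin Pool.Agent.H48.PL Pool.Agent.H48.PD
open Pool.Agent.H82.BK Pool.Agent.H82.CM Pool.Agent.H48.PR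

namespace Pool.Agent.H82.HF

variable {d : ℕ}

/-- the properties of the damping rate `S(κ,v)` -/
structure SgH (s α K c κ₀ : ℝ) (S : Vec d → Vec d → ℝ) : Prop where
  K0 : 0 ≤ K
  c0 : 0 < c
  k0 : 0 ≤ κ₀
  nn : ∀ κ v, 0 ≤ S κ v
  up : ∀ κ v, S κ v ≤ K * (1 + nsq v) * len κ ^ (2 * s)
  low : ∀ κ v, κ₀ ≤ len κ → c * len κ ^ (2 * s) ≤ S κ v
  hol : ∀ κ v h, |S κ (v + h) - S κ v| ≤
    K * min 1 (len h) ^ α * (1 + nsq v + nsq (v + h)) * len κ ^ (2 * s)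
  kap : ∀ κ κ' v, |S κ v - S κ' v| ≤ K * (1 + nsq v) * len (κ - κ') ^ (2 * s)

/-- the damping exponent `D(t,v) = δ ∫_0^t S(2π r k, v) dr` -/
noncomputable def Dm (S : Vec d → Vec d → ℝ) (δ : ℝ) (k : Vec d) (t : ℝ) (v : Vec d) : ℝ :=
  δ * ∫ r in (0 : ℝ)..t, S ((2 * Real.pi * r) • k) v

/-- the damped amplitude `c(v) e^(-D(t,v))` -/
noncomputable def Am (S : Vec d → Vec d → ℝ) (δ : ℝ) (c : Vec d → ℝ) (k : Vec d) (t : ℝ)
    (v : Vec d) : ℝ := c v * Real.exp (-Dm S δ k t v)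

/-- the approximate solution -/
noncomputable def fa {n : ℕ} (S : Vec d → Vec d → ℝ) (δ : ℝ) (F : Vec d → ℝ)
    (c : Fin n → Vec d → ℝ) (k : Fin n → Vec d) (φ : Fin n → ℝ) (t : ℝ) (x v : Vec d) : ℝ :=
  GG F (fun j => Am S δ (c j) (k j) t) (fun j => (2 * Real.pi * t) • k j)
    (fun j => 2 * Real.pi * dot (k j) x + φ j) v

/-- admissible families of modes -/
structure Fam (α : ℝ) (q : ℕ) {n : ℕ} (M : ℝ) (a : Fin n → ℝ) (c : Fin n → Vec d → ℝ)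
    (k : Fin n → Vec d) : Prop where
  hc : ∀ j, HR α q M (c j)
  ha : ∀ j v, |c j v| ≤ a j * Wp q v
  hk : ∀ j i, ∃ z : ℤ, k j i = z
  hk0 : ∀ j, k j ≠ 0

/-- continuous comparison functions, periodic in `x`, decaying in `v` -/
structure CG (T₁ : ℝ) (q : ℕ) (M : ℝ) (g : ℝ → Vec d → Vec d → ℝ) : Prop where
  cont : ContinuousOn (unc g) (Icc 0 T₁ ×ˢ univ)
  per : ∀ t ∈ Icc 0 T₁, ∀ x v i, g t (x + Pi.single i 1) v = g t x v
  dec : ∀ t ∈ Icc 0 T₁, ∀ x v, |g t x v| ≤ M * Wp q v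

/-- the barrier -/
noncomputable def Bq (s δ ι K₁ Kr KA t : ℝ) : ℝ :=
  (3 / 2 * ι + δ * Kr * t) * Real.exp (δ * K₁ * t + KA * (1 - (1 + δ * t ^ (1 + 2 * s))⁻¹))

end Pool.Agent.H82.HF
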