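import Pool.Agent.H82.HF.FouS

/-!
# Module Cls: Schwartz data are limits of admissible families with uniformly bounded norms

Let `ω_k = C (1+‖kv k‖)^(-(2d+6))` be a bound of `(|aC h k v| + |bC h k v|)/Wp (2d+22) v` (`fou_dec` with `m = 0` and `m = 2d+6`, `N = 2(2d+22)`; `Wp q v ≥ (d+1)^(-q) (1+‖v‖)^(-2q)`, and `(1+y)^m ≤ 2^m (1 + y^m)`).
`len (kv k) ≤ √d ‖kv k‖`, `2s ≤ 2`: `ω_k (1 + len (kv k))^(2s) ≤ C' (1+‖kv k‖)^(-(2d+4))`, summable (`sum_kv`). `A = 2 Σ_k ω_k (1 + (len (kv k))^(2s))`.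
Given `ι`: a finite set `s₀` of frequencies with `Σ_{k ∉ s₀} ω_k ≤ ι` (`Summable.tendsto...`/`exists finset`, e.g. `summable_iff_vanishing_norm` or `hasSum` of the complement). `F v = aC h 0 v` (`cos 0 = 1`) and the `k = 0` term of `fou_sum` is `F v`. With `s₁ = s₀ \ {0}`:
`|h x v - F v - Σ_{k ∈ s₁} (aC cos + bC sin)| ≤ Σ_{k ∉ s₀ ∪ {0}} (|aC|+|bC|) ≤ ι Wp (2d+22) v ≤ ι Wp (d+10) v`.
Family: index `s₁ × Bool ≃ Fin n` (`Fintype.equivFin`): `(k,true)`: amplitude `aC h k`, phase `0`; `(k,false)`: amplitude `bC h k`, phase `-π/2` (`cos(θ - π/2) = sin θ`); `a_j = ω_k`. `HR`: `co_hr`.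
`F`: class `HR` by `co_hr`, `F v = ∫ h x v dx ≥ 0` if `h ≥ 0`; `∫ F > 0` if `h ≥ 0` is continuous and not identically `0`.
-/

set_option autoImplicit false

open MeasureTheory Set Filter Topology Pool.Agent.H25.Kin Pool.Agent.H48.PL Pool.Agent.H48.PD
open Pool.Agent.H82.BK Pool.Agent.H82.CM Pool.Agent.H48.PR

namespace Pool.Agent.H82.HF

variable {d : ℕ}

/-- the average over the torus -/
noncomputable def avT (h : Vec d → Vec d → ℝ) (v : Vec d) : ℝ := ∫ x in Icc (0 : Vec d) 1, h x v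

private lemma Cls_dot0 (x : Vec d) : dot (kv (0 : Fin d → ℤ)) x = 0 := by
  unfold dot kv
  simp

private lemma Cls_av (h : Vec d → Vec d → ℝ) : aC h 0 = avT h := by
  funext v
  unfold aC avT
  simp only [Cls_dot0, mul_zero, Real.cos_zero, mul_one]

theorem avT_hr {h : Vec d → Vec d → ℝ} (hh : SchT h) (q : ℕ) :
    ∃ M : ℝ, 0 ≤ M ∧ HR 1 q M (avT h) := by
  obtain ⟨M, hM, hc⟩ := co_hr hh q
  refine ⟨M, hM, ?_⟩
  rw [← Cls_av]
  exact (hc 0).1

theorem avT_nn {h : Vec d → Vec d → ℝ} (h0 : ∀ x v, 0 ≤ h x v) (v : Vec d) : 0 ≤ avT h v := by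
  unfold avT
  exact integral_nonneg fun x => h0 x v

theorem avT_pos {h : Vec d → Vec d → ℝ} (hh : SchT h) (h0 : ∀ x v, 0 ≤ h x v) {x₀ v₀ : Vec d}
    (h1 : 0 < h x₀ v₀) : 0 < ∫ v, avT h v := by
  have hcont := sch_cont hh
  have hcomp : IsCompact (Icc (0 : Vec d) 1) := isCompact_Icc
  have hav : Continuous (avT h) := by
    have h2 : Continuous (Function.uncurry fun (v x : Vec d) => h x v) :=
      hcont.comp (continuous_snd.prodMk continuous_fst)
    exact continuous_parametric_integral_of_continuous h2 hcomp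
  have hpos : 0 < avT h v₀ := by
    unfold avT
    have hper : Per fun x => h x v₀ := fun x i => hh.per x v₀ i
    set c : Vec d := fun _ => 1 / 2 with hc
    rw [← hper.integral (x₀ - c)]
    have hcx : Continuous fun x : Vec d => h (x + (x₀ - c)) v₀ :=
      hcont.comp ((continuous_id.add continuous_const).prodMk continuous_const)
    have hint : IntegrableOn (fun x : Vec d => h (x + (x₀ - c)) v₀) (Icc 0 1) :=
      hcx.continuousOn.integrableOn_compact hcomp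
    rw [setIntegral_pos_iff_support_of_nonneg_ae (Eventually.of_forall fun x => h0 _ _) hint]
    have hopen : IsOpen (Function.support (fun x : Vec d => h (x + (x₀ - c)) v₀) ∩
        univ.pi fun _ : Fin d => Ioo (0 : ℝ) 1) :=
      hcx.isOpen_support.inter (isOpen_set_pi finite_univ fun _ _ => isOpen_Ioo)
    have hne : (Function.support (fun x : Vec d => h (x + (x₀ - c)) v₀) ∩
        univ.pi fun _ : Fin d => Ioo (0 : ℝ) 1).Nonempty := by
      refine ⟨c, ?_, fun i _ => ?_⟩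
      · rw [Function.mem_support, add_sub_cancel]
        exact h1.ne'
      · rw [hc]
        constructor <;> norm_num
    refine (hopen.measure_pos volume hne).trans_le (measure_mono ?_)
    refine inter_subset_inter_right _ fun x hx => ?_
    exact ⟨fun i => (hx i (mem_univ i)).1.le, fun i => (hx i (mem_univ i)).2.le⟩
  have hint : Integrable (avT h) := by
    obtain ⟨C, hC0, hC⟩ := co_le hh (d + 1)
    have h3 : Integrable fun v : Vec d => C * (1 + ‖v‖) ^ (-((d : ℝ) + 1)) := by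
      refine Integrable.const_mul ?_ C
      refine integrable_one_add_norm ?_
      rw [Module.finrank_fin_fun]
      linarith
    refine h3.mono' hav.aestronglyMeasurable (Eventually.of_forall fun v => ?_)
    have h4 := hC 0 v
    rw [Cls_av] at h4
    have h5 : (0 : ℝ) < (1 + ‖v‖) ^ (d + 1) := by positivity
    have h6 : (1 + ‖v‖) ^ (-((d : ℝ) + 1)) = ((1 + ‖v‖) ^ (d + 1))⁻¹ := by
      rw [Real.rpow_neg (by positivity)]
      congr 1
      rw [← Real.rpow_natCast]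
      push_cast
      rfl
    rw [h6, Real.norm_eq_abs, ← div_eq_mul_inv, le_div_iff₀ h5, mul_comm]
    refine le_trans ?_ h4
    exact mul_le_mul_of_nonneg_left (le_add_of_nonneg_right (abs_nonneg _)) h5.le
  rw [integral_pos_iff_support_of_nonneg (fun v => avT_nn h0 v) hint]
  exact hav.isOpen_support.measure_pos volume ⟨v₀, hpos.ne'⟩

private lemma Cls_Wp (q : ℕ) (v : Vec d) :
    ((1 + ‖v‖) ^ (2 * q))⁻¹ ≤ ((d : ℝ) + 1) ^ q * Wp q v := by
  unfold Wp
  have h1 := one_add_sq_le v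
  have h2 : (0 : ℝ) < 1 + nsq v := by
    have : 0 ≤ nsq v := by
      unfold nsq
      positivity
    linarith
  rw [← div_eq_mul_inv, le_div_iff₀ (pow_pos h2 q), inv_mul_le_iff₀ (by positivity)]
  calc (1 + nsq v) ^ q ≤ (((d : ℝ) + 1) * (1 + ‖v‖) ^ 2) ^ q := pow_le_pow_left₀ h2.le h1 q
    _ = (1 + ‖v‖) ^ (2 * q) * ((d : ℝ) + 1) ^ q := by
      rw [mul_pow, ← pow_mul, mul_comm]

private lemma Cls_len {s : ℝ} (hs : 0 ≤ s) (hs1 : s ≤ 1) (z : Vec d) :
    1 + len z ^ (2 * s) ≤ 2 * ((d : ℝ) + 1) * (1 + ‖z‖) ^ 2 := by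
  have h0 : 0 ≤ nsq z := by
    unfold nsq
    positivity
  have hl : 0 ≤ len z := Real.sqrt_nonneg _
  have hl2 : len z ^ 2 = nsq z := Real.sq_sqrt h0
  have h1 : len z ^ (2 * s) ≤ 1 + nsq z := by
    rcases le_total (len z) 1 with h | h
    · have := Real.rpow_le_one hl h (by linarith : 0 ≤ 2 * s)
      linarith
    · have := Real.rpow_le_rpow_of_exponent_le h (by linarith : 2 * s ≤ 2)
      rw [Real.rpow_two, hl2] at this
      linarith
  have h2 := one_add_sq_le z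
  nlinarith

private lemma Cls_om {h : Vec d → Vec d → ℝ} (hh : SchT h) {s : ℝ} (hs : 0 ≤ s) (hs1 : s ≤ 1) :
    ∃ (ω g : (Fin d → ℤ) → ℝ), Summable g ∧ (∀ k, 0 ≤ ω k) ∧ (∀ k, ω k ≤ g k) ∧
      (∀ k, ω k * len (kv k) ^ (2 * s) ≤ g k) ∧
      ∀ k v, |aC h k v| + |bC h k v| ≤ ω k * Wp (2 * d + 22) v := by
  obtain ⟨C0, hC0, h0⟩ := fou_dec hh 0 (2 * (2 * d + 22))
  obtain ⟨C1, hC1, h1⟩ := fou_dec hh (2 * d + 6) (2 * (2 * d + 22))
  set C : ℝ := ((d : ℝ) + 1) ^ (2 * d + 22) * (2 ^ (2 * d + 6 - 1) * (C0 + C1)) with hC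
  have hCn : 0 ≤ C := by positivity
  have hω0 : ∀ k : Fin d → ℤ, 0 ≤ C * ((1 + ‖kv k‖) ^ (2 * d + 6))⁻¹ := fun k => by positivity
  have hω1 : ∀ k : Fin d → ℤ, C * ((1 + ‖kv k‖) ^ (2 * d + 6))⁻¹ * (1 + len (kv k) ^ (2 * s)) ≤
      2 * ((d : ℝ) + 1) * C * ((1 + ‖kv k‖) ^ (2 * d + 4))⁻¹ := by
    intro k
    have h2 := Cls_len hs hs1 (kv k)
    have h3 : (0 : ℝ) < 1 + ‖kv k‖ := by positivity
    calc C * ((1 + ‖kv k‖) ^ (2 * d + 6))⁻¹ * (1 + len (kv k) ^ (2 * s))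
        ≤ C * ((1 + ‖kv k‖) ^ (2 * d + 6))⁻¹ * (2 * ((d : ℝ) + 1) * (1 + ‖kv k‖) ^ 2) :=
          mul_le_mul_of_nonneg_left h2 (hω0 k)
      _ = 2 * ((d : ℝ) + 1) * C * ((1 + ‖kv k‖) ^ (2 * d + 4))⁻¹ := by
          rw [show 2 * d + 6 = (2 * d + 4) + 2 by ring, pow_add]
          field_simp
  have hln : ∀ k : Fin d → ℤ, 0 ≤ len (kv k) ^ (2 * s) := fun k =>
    Real.rpow_nonneg (Real.sqrt_nonneg _) _
  refine ⟨fun k => C * ((1 + ‖kv k‖) ^ (2 * d + 6))⁻¹,
    fun k => 2 * ((d : ℝ) + 1) * C * ((1 + ‖kv k‖) ^ (2 * d + 4))⁻¹,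
    (sum_kv d).mul_left _, hω0, fun k => ?_, fun k => ?_, fun k v => ?_⟩
  · refine le_trans ?_ (hω1 k)
    exact le_mul_of_one_le_right (hω0 k) (by have := hln k; linarith)
  · refine le_trans ?_ (hω1 k)
    exact mul_le_mul_of_nonneg_left (by have := hln k; linarith) (hω0 k)
  · have h2 := h0 k v
    have h3 := h1 k v
    rw [pow_zero, one_mul] at h2
    set Q : ℝ := (1 + ‖v‖) ^ (2 * (2 * d + 22)) with hQ
    have hQ0 : 0 < Q := by positivity
    set E : ℝ := |aC h k v| + |bC h k v| with hE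
    have hE0 : 0 ≤ E := by positivity
    have h4 : (1 + ‖kv k‖) ^ (2 * d + 6) ≤ 2 ^ (2 * d + 6 - 1) * (1 ^ (2 * d + 6) +
        ‖kv k‖ ^ (2 * d + 6)) := add_pow_le zero_le_one (norm_nonneg _) _
    rw [one_pow] at h4
    have h5 : (1 + ‖kv k‖) ^ (2 * d + 6) * (Q * E) ≤ 2 ^ (2 * d + 6 - 1) * (C0 + C1) := by
      calc (1 + ‖kv k‖) ^ (2 * d + 6) * (Q * E)
          ≤ 2 ^ (2 * d + 6 - 1) * (1 + ‖kv k‖ ^ (2 * d + 6)) * (Q * E) :=
            mul_le_mul_of_nonneg_right h4 (by positivity)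
        _ = 2 ^ (2 * d + 6 - 1) * (Q * E + ‖kv k‖ ^ (2 * d + 6) * (Q * E)) := by ring
        _ ≤ 2 ^ (2 * d + 6 - 1) * (C0 + C1) :=
            mul_le_mul_of_nonneg_left (add_le_add h2 h3) (by positivity)
    have h6 := Cls_Wp (2 * d + 22) v
    rw [← hQ] at h6
    have h7 : (0 : ℝ) < (1 + ‖kv k‖) ^ (2 * d + 6) := by positivity
    have h8 : E ≤ 2 ^ (2 * d + 6 - 1) * (C0 + C1) * ((1 + ‖kv k‖) ^ (2 * d + 6))⁻¹ * Q⁻¹ := by
      rw [← div_eq_mul_inv, ← div_eq_mul_inv, le_div_iff₀ hQ0, le_div_iff₀ h7]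
      linarith [h5]
    refine h8.trans ?_
    calc 2 ^ (2 * d + 6 - 1) * (C0 + C1) * ((1 + ‖kv k‖) ^ (2 * d + 6))⁻¹ * Q⁻¹
        ≤ 2 ^ (2 * d + 6 - 1) * (C0 + C1) * ((1 + ‖kv k‖) ^ (2 * d + 6))⁻¹ *
          (((d : ℝ) + 1) ^ (2 * d + 22) * Wp (2 * d + 22) v) :=
          mul_le_mul_of_nonneg_left h6 (by positivity)
      _ = C * ((1 + ‖kv k‖) ^ (2 * d + 6))⁻¹ * Wp (2 * d + 22) v := by
          rw [hC]
          ring

private lemma Cls_tail {T g : (Fin d → ℤ) → ℝ} {x S : ℝ} {w : ℝ} (hT : HasSum T x)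
    (hg : HasSum g S) (h : ∀ k, |T k| ≤ g k * w) (s : Finset (Fin d → ℤ)) :
    |x - ∑ k ∈ s, T k| ≤ (S - ∑ k ∈ s, g k) * w := by
  classical
  have e : ∀ (f : (Fin d → ℤ) → ℝ) (y : ℝ), HasSum f y →
      HasSum (fun k => f k - if k ∈ s then f k else 0) (y - ∑ k ∈ s, f k) := by
    intro f y hf
    refine hf.sub ?_
    have h2 : HasSum (fun k => if k ∈ s then f k else 0)
        (∑ k ∈ s, if k ∈ s then f k else 0) := hasSum_sum_of_ne_finset_zero fun k hk => if_neg hk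
    rwa [Finset.sum_congr rfl fun k hk => if_pos hk] at h2
  have h1 := e T x hT
  have h2 := (e g S hg).mul_right w
  have h3 := h1.norm_le_of_bounded h2 fun k => by
    by_cases hk : k ∈ s
    · simp [hk]
    · simpa [hk] using h k
  exact h3

theorem cls (hd : 1 ≤ d) {s : ℝ} (hs : 0 ≤ s) (hs1 : s ≤ 1) {h : Vec d → Vec d → ℝ} (hh : SchT h) :
    ∃ A : ℝ, 0 ≤ A ∧ ∀ ι : ℝ, 0 < ι → ∃ (n : ℕ) (M : ℝ) (a : Fin n → ℝ)
      (cc : Fin n → Vec d → ℝ) (k : Fin n → Vec d) (φ : Fin n → ℝ),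
      Fam 1 (2 * d + 22) M a cc k ∧ ∑ j, a j ≤ A ∧ ∑ j, a j * len (k j) ^ (2 * s) ≤ A ∧
      ∀ x v, |h x v - (avT h v + ∑ j, cc j v * Real.cos (2 * Real.pi * dot (k j) x + φ j))| ≤
        ι * Wp (d + 10) v := by
  classical
  obtain ⟨ω, g, hg, hω0, hω1, hω2, hω3⟩ := Cls_om hh hs hs1
  obtain ⟨M, hM, hco⟩ := co_hr hh (2 * d + 22)
  obtain ⟨S, hS⟩ := hg
  have hg0 : ∀ k, 0 ≤ g k := fun k => (hω0 k).trans (hω1 k)
  have hSs : ∀ t : Finset (Fin d → ℤ), ∑ k ∈ t, g k ≤ S := fun t =>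
    sum_le_hasSum t (fun k _ => hg0 k) hS
  have hS0 : 0 ≤ S := by simpa using hSs ∅
  refine ⟨2 * S, by positivity, fun ι hι => ?_⟩
  obtain ⟨s₀, hs₀⟩ : ∃ s₀ : Finset (Fin d → ℤ), S - ι < ∑ k ∈ s₀, g k := by
    have h1 : Tendsto (fun t : Finset (Fin d → ℤ) => ∑ k ∈ t, g k) atTop (𝓝 S) := hS
    exact (h1.eventually (lt_mem_nhds (by linarith : S - ι < S))).exists
  set s₂ : Finset (Fin d → ℤ) := insert 0 s₀ with hs₂
  set s₁ : Finset (Fin d → ℤ) := s₂.erase 0 with hs₁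
  have h02 : (0 : Fin d → ℤ) ∈ s₂ := Finset.mem_insert_self _ _
  have hbig : S - ι < ∑ k ∈ s₂, g k :=
    hs₀.trans_le (Finset.sum_le_sum_of_subset_of_nonneg (Finset.subset_insert _ _)
      fun k _ _ => hg0 k)
  have hsum2 : ∀ f : (Fin d → ℤ) → ℝ, ∑ p : ↥s₁ × Bool, f p.1 = 2 * ∑ k ∈ s₁, f k := by
    intro f
    rw [Fintype.sum_prod_type]
    simp only [Fintype.sum_bool]
    rw [← Finset.sum_coe_sort s₁ f, Finset.mul_sum]
    exact Finset.sum_congr rfl fun i _ => by ring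
  obtain ⟨n, ⟨e⟩⟩ : ∃ n, Nonempty ((↥s₁ × Bool) ≃ Fin n) := ⟨_, ⟨Fintype.equivFin _⟩⟩
  refine ⟨n, M, fun j => ω (e.symm j).1,
    fun j => if (e.symm j).2 then aC h (e.symm j).1 else bC h (e.symm j).1,
    fun j => kv ((e.symm j).1 : Fin d → ℤ), fun j => if (e.symm j).2 then 0 else -(Real.pi / 2),
    ⟨fun j => ?_, fun j v => ?_, fun j i => ⟨_, rfl⟩, fun j => ?_⟩, ?_, ?_, fun x v => ?_⟩
  · split_ifs
    · exact (hco _).1
    · exact (hco _).2
  · refine le_trans ?_ (hω3 _ v)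
    split_ifs
    · exact le_add_of_nonneg_right (abs_nonneg _)
    · exact le_add_of_nonneg_left (abs_nonneg _)
  · intro h1
    have h2 : ((e.symm j).1 : Fin d → ℤ) ≠ 0 := Finset.ne_of_mem_erase (e.symm j).1.2
    refine h2 (funext fun i => ?_)
    have h3 := congrFun h1 i
    simp only [kv, Pi.zero_apply, Int.cast_eq_zero] at h3
    exact h3
  · rw [Equiv.sum_comp e.symm (fun p : ↥s₁ × Bool => ω p.1), hsum2 ω]
    have h1 : ∑ k ∈ s₁, ω k ≤ S := (Finset.sum_le_sum fun k _ => hω1 k).trans (hSs s₁)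
    linarith
  · rw [Equiv.sum_comp e.symm (fun p : ↥s₁ × Bool => ω p.1 * len (kv (p.1 : Fin d → ℤ)) ^ (2 * s)),
      hsum2 fun k => ω k * len (kv k) ^ (2 * s)]
    have h1 : ∑ k ∈ s₁, ω k * len (kv k) ^ (2 * s) ≤ S :=
      (Finset.sum_le_sum fun k _ => hω2 k).trans (hSs s₁)
    linarith
  · have hW : 0 < Wp (2 * d + 22) v := Wp_pos _ v
    have hW2 : Wp (2 * d + 22) v ≤ Wp (d + 10) v := by
      unfold Wp
      have h1 : (1 : ℝ) ≤ 1 + nsq v := by
        have : 0 ≤ nsq v := by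
          unfold nsq
          positivity
        linarith
      exact inv_anti₀ (pow_pos (zero_lt_one.trans_le h1) _) (pow_le_pow_right₀ h1 (by omega))
    have hF : ∑ j : Fin n, (if (e.symm j).2 then aC h (e.symm j).1 else bC h (e.symm j).1) v *
        Real.cos (2 * Real.pi * dot (kv ((e.symm j).1 : Fin d → ℤ)) x +
          if (e.symm j).2 then 0 else -(Real.pi / 2)) =
        ∑ k ∈ s₁, (aC h k v * Real.cos (2 * Real.pi * dot (kv k) x) +
          bC h k v * Real.sin (2 * Real.pi * dot (kv k) x)) := by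
      rw [Equiv.sum_comp e.symm (fun p : ↥s₁ × Bool =>
        (if p.2 then aC h p.1 else bC h p.1) v *
        Real.cos (2 * Real.pi * dot (kv (p.1 : Fin d → ℤ)) x +
          if p.2 then 0 else -(Real.pi / 2))), Fintype.sum_prod_type]
      simp only [Fintype.sum_bool]
      rw [← Finset.sum_coe_sort s₁]
      refine Finset.sum_congr rfl fun k _ => ?_
      simp only [if_true, add_zero, Bool.false_eq_true, if_false]
      rw [← sub_eq_add_neg, Real.cos_sub_pi_div_two]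
    have hT := fou_sum hh x v
    have h3 := Cls_tail (w := Wp (2 * d + 22) v) hT hS (fun k => by
      have h4 := hω3 k v
      have h5 : ω k * Wp (2 * d + 22) v ≤ g k * Wp (2 * d + 22) v :=
        mul_le_mul_of_nonneg_right (hω1 k) hW.le
      have h6 : |aC h k v * Real.cos (2 * Real.pi * dot (kv k) x) +
          bC h k v * Real.sin (2 * Real.pi * dot (kv k) x)| ≤ |aC h k v| + |bC h k v| := by
        refine (abs_add_le _ _).trans (add_le_add ?_ ?_)
        · rw [abs_mul]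
          exact mul_le_of_le_one_right (abs_nonneg _) (Real.abs_cos_le_one _)
        · rw [abs_mul]
          exact mul_le_of_le_one_right (abs_nonneg _) (Real.abs_sin_le_one _)
      exact h6.trans (h4.trans h5)) s₂
    rw [hF]
    have h4 : avT h v + ∑ k ∈ s₁, (aC h k v * Real.cos (2 * Real.pi * dot (kv k) x) +
          bC h k v * Real.sin (2 * Real.pi * dot (kv k) x)) =
        ∑ k ∈ s₂, (aC h k v * Real.cos (2 * Real.pi * dot (kv k) x) +
          bC h k v * Real.sin (2 * Real.pi * dot (kv k) x)) := by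
      rw [← Finset.add_sum_erase s₂ _ h02, ← hs₁, Cls_av, Cls_dot0]
      simp only [mul_zero, Real.cos_zero, Real.sin_zero, mul_one, add_zero]
    rw [h4]
    refine h3.trans ?_
    calc (S - ∑ k ∈ s₂, g k) * Wp (2 * d + 22) v ≤ ι * Wp (2 * d + 22) v :=
          mul_le_mul_of_nonneg_right (by linarith) hW.le
      _ ≤ ι * Wp (d + 10) v := mul_le_mul_of_nonneg_left hW2 hι.le

end Pool.Agent.H82.HF
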