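import Pool.Agent.H82.HF.Lay0

/-!
# Module Bar: the explicit barrier

`X(t) = δ t^(1+2s)`, `X'(t) = δ (1+2s) t^(2s)` for `t > 0` (`Real.hasDerivAt_rpow_const`), `((1+X)^(-1))' = -X' (1+X)^(-2)`. So `Bq' = δ Kr exp(..) + Bq (δ K₁ + KA X' (1+X)^(-2))`, and `exp(..) ≥ 1` since `K₁, KA ≥ 0`, `(1+X)^(-1) ≤ 1`.
`bar_le`: `δ Kr t ≤ θ Kr ≤ ι/4`, `exp(δ K₁ t) ≤ exp(θ K₁) ≤ 8/7`, `exp(KA (1-(1+X)^(-1))) ≤ exp(KA)`; `(3/2+1/4)(8/7) = 2`.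
-/

set_option autoImplicit false

open Set Filter Topology

namespace Pool.Agent.H82.HF

private lemma bar_X {s δ t : ℝ} (hδ : 0 < δ) (ht : 0 ≤ t) : 0 ≤ δ * t ^ (1 + 2 * s) :=
  mul_nonneg hδ.le (Real.rpow_nonneg ht _)

private lemma bar_E {s δ K₁ KA t : ℝ} (hδ : 0 < δ) (h1 : 0 ≤ K₁) (hA : 0 ≤ KA) (ht : 0 ≤ t) :
    0 ≤ δ * K₁ * t + KA * (1 - (1 + δ * t ^ (1 + 2 * s))⁻¹) ∧
    KA * (1 - (1 + δ * t ^ (1 + 2 * s))⁻¹) ≤ KA := by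
  have hX := bar_X (s := s) hδ ht
  have h2 : (1 + δ * t ^ (1 + 2 * s))⁻¹ ≤ 1 := inv_le_one_of_one_le₀ (by linarith)
  have h3 : 0 ≤ (1 + δ * t ^ (1 + 2 * s))⁻¹ := inv_nonneg.2 (by linarith)
  constructor
  · have := mul_nonneg (mul_nonneg hδ.le h1) ht
    have := mul_nonneg hA (sub_nonneg.2 h2)
    linarith
  · have := mul_nonneg hA h3
    linarith

theorem bar_cont {s δ ι K₁ Kr KA : ℝ} (hs : 0 < s) (hδ : 0 < δ) :
    ContinuousOn (fun t => Bq s δ ι K₁ Kr KA t) (Ici 0) := by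
  have h0 : Continuous fun t : ℝ => t ^ (1 + 2 * s) :=
    Real.continuous_rpow_const (by linarith)
  have h1 : ContinuousOn (fun t : ℝ => (1 + δ * t ^ (1 + 2 * s))⁻¹) (Ici 0) := by
    refine ContinuousOn.inv₀ (by fun_prop) fun t ht => ?_
    have := bar_X (s := s) hδ (t := t) ht
    linarith
  unfold Bq
  fun_prop

theorem bar_der {s δ ι K₁ Kr KA : ℝ} (hs : 0 < s) (hδ : 0 < δ) (hι : 0 < ι) (h1 : 0 ≤ K₁)
    (hr : 0 ≤ Kr) (hA : 0 ≤ KA) {t : ℝ} (ht : 0 < t) : ∃ B' : ℝ,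
    HasDerivAt (fun t => Bq s δ ι K₁ Kr KA t) B' t ∧
    δ * Kr + Bq s δ ι K₁ Kr KA t * (δ * K₁ +
      KA * ((1 + 2 * s) * δ * t ^ (2 * s) * ((1 + δ * t ^ (1 + 2 * s)) ^ 2)⁻¹)) ≤ B' := by
  have hX := bar_X (s := s) hδ ht.le
  have hne : (1 + δ * t ^ (1 + 2 * s)) ≠ 0 := by linarith
  have d0 : HasDerivAt (fun t : ℝ => t ^ (1 + 2 * s)) ((1 + 2 * s) * t ^ (2 * s)) t := by
    have := Real.hasDerivAt_rpow_const (x := t) (p := 1 + 2 * s) (Or.inl ht.ne')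
    rwa [show 1 + 2 * s - 1 = 2 * s by ring] at this
  have d1 : HasDerivAt (fun t : ℝ => 1 + δ * t ^ (1 + 2 * s)) (δ * ((1 + 2 * s) * t ^ (2 * s))) t :=
    (d0.const_mul δ).const_add 1
  have d2 := d1.inv hne
  have d3 := (d2.const_sub 1).const_mul KA
  have d4 : HasDerivAt (fun t : ℝ => δ * K₁ * t) (δ * K₁) t := by
    simpa using (hasDerivAt_id t).const_mul (δ * K₁)
  have d5 := (d4.add d3).exp
  have d6 : HasDerivAt (fun t : ℝ => 3 / 2 * ι + δ * Kr * t) (δ * Kr) t := by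
    simpa using ((hasDerivAt_id t).const_mul (δ * Kr)).const_add (3 / 2 * ι)
  have d7 := d6.mul d5
  refine ⟨_, d7, ?_⟩
  have hE := (bar_E (s := s) (K₁ := K₁) (KA := KA) hδ h1 hA ht.le).1
  have hexp := Real.one_le_exp hE
  have hk := mul_nonneg hδ.le hr
  have h8 := mul_le_mul_of_nonneg_left hexp hk
  unfold Bq
  simp only [Pi.add_apply, Pi.inv_apply]
  have e : δ * K₁ + KA * -(-(δ * ((1 + 2 * s) * t ^ (2 * s))) / (1 + δ * t ^ (1 + 2 * s)) ^ 2) =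
      δ * K₁ + KA * ((1 + 2 * s) * δ * t ^ (2 * s) * ((1 + δ * t ^ (1 + 2 * s)) ^ 2)⁻¹) := by
    rw [neg_div, neg_neg, div_eq_mul_inv]
    ring
  rw [e]
  rw [mul_one] at h8
  have e2 : (3 / 2 * ι + δ * Kr * t) *
      (Real.exp (δ * K₁ * t + KA * (1 - (1 + δ * t ^ (1 + 2 * s))⁻¹)) *
        (δ * K₁ + KA * ((1 + 2 * s) * δ * t ^ (2 * s) * ((1 + δ * t ^ (1 + 2 * s)) ^ 2)⁻¹))) =
      (3 / 2 * ι + δ * Kr * t) *
      Real.exp (δ * K₁ * t + KA * (1 - (1 + δ * t ^ (1 + 2 * s))⁻¹)) *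
        (δ * K₁ + KA * ((1 + 2 * s) * δ * t ^ (2 * s) * ((1 + δ * t ^ (1 + 2 * s)) ^ 2)⁻¹)) := by
    ring
  rw [e2]
  linarith

theorem bar_le {s δ ι K₁ Kr KA θ : ℝ} (hδ : 0 < δ) (hι : 0 < ι) (h1 : 0 ≤ K₁)
    (hr : 0 ≤ Kr) (hA : 0 ≤ KA) (hθr : θ * Kr ≤ ι / 4) (hθ1 : Real.exp (θ * K₁) ≤ 8 / 7) {t : ℝ}
    (ht : 0 ≤ t) (htθ : δ * t ≤ θ) :
    3 / 2 * ι ≤ Bq s δ ι K₁ Kr KA t ∧ Bq s δ ι K₁ Kr KA t ≤ 2 * Real.exp KA * ι := by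
  obtain ⟨hE, hE2⟩ := bar_E (s := s) (K₁ := K₁) (KA := KA) hδ h1 hA ht
  have hexp := Real.one_le_exp hE
  have a1 : 0 ≤ δ * Kr * t := mul_nonneg (mul_nonneg hδ.le hr) ht
  have a2 : δ * Kr * t ≤ ι / 4 := by
    have := mul_le_mul_of_nonneg_right htθ hr
    nlinarith
  have a3 : δ * K₁ * t ≤ θ * K₁ := by
    have := mul_le_mul_of_nonneg_right htθ h1
    nlinarith
  have a4 : Real.exp (δ * K₁ * t + KA * (1 - (1 + δ * t ^ (1 + 2 * s))⁻¹)) ≤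
      8 / 7 * Real.exp KA := by
    calc Real.exp (δ * K₁ * t + KA * (1 - (1 + δ * t ^ (1 + 2 * s))⁻¹)) ≤
        Real.exp (θ * K₁ + KA) := Real.exp_le_exp.2 (by linarith)
      _ = Real.exp (θ * K₁) * Real.exp KA := Real.exp_add _ _
      _ ≤ 8 / 7 * Real.exp KA := mul_le_mul_of_nonneg_right hθ1 (Real.exp_pos _).le
  have a5 := Real.exp_pos KA
  unfold Bq
  constructor
  · calc 3 / 2 * ι ≤ (3 / 2 * ι + δ * Kr * t) * 1 := by linarith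
      _ ≤ _ := mul_le_mul_of_nonneg_left hexp (by positivity)
  · calc (3 / 2 * ι + δ * Kr * t) *
        Real.exp (δ * K₁ * t + KA * (1 - (1 + δ * t ^ (1 + 2 * s))⁻¹)) ≤
        (7 / 4 * ι) * (8 / 7 * Real.exp KA) :=
          mul_le_mul (by linarith) a4 (Real.exp_pos _).le (by positivity)
      _ = 2 * Real.exp KA * ι := by ring

end Pool.Agent.H82.HF
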