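import Pool.Agent.H82.HF.Amp

/-!
# Module Cont: continuity, periodicity and the characteristic derivative of the approximate solution

* `fa_cg`: continuity of `(t,x,v) ↦ fa t x v`: `F`, `cc j` continuous (`hr_cont`), `Dm` jointly continuous (`dam3`), `cos`, `dot` continuous. Period: `dot (k j) (x + e_i) = dot (k j) x + k j i`, an integer: `cos(θ + 2π z) = cos θ` (`Real.cos_add_int_mul_two_pi`).
  Decay: `osc` (first part) with `hr`-class of order `q+2`.
* `fa_zero`: `Dm S δ k 0 v = 0`, `(2π·0)•k = 0`.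
* `fa_char`: along `(t₀+τ, x₀+τ v₀, v₀)`: `θ_j - dot κ_j v₀ = 2π dot (k j) (x₀+τv₀) + φ_j - 2π (t₀+τ) dot (k j) v₀ = 2π dot (k j) x₀ + φ_j - 2π t₀ dot (k j) v₀` is constant in `τ`; derivative of `exp(-Dm S δ k (t₀+τ) v₀)` by `dam4`.
-/

set_option autoImplicit false

open MeasureTheory Set Filter Topology Pool.Agent.H25.Kin Pool.Agent.H48.PL Pool.Agent.H48.PD
open Pool.Agent.H82.BK Pool.Agent.H82.CM Pool.Agent.H48.PR

namespace Pool.Agent.H82.HF

variable {d : ℕ} {s α K c κ₀ : ℝ} {S : Vec d → Vec d → ℝ}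

private lemma cnt_dot (k : Vec d) : Continuous fun x : Vec d => dot k x := by
  unfold dot
  fun_prop

private lemma cnt_dot_smul (r : ℝ) (k v : Vec d) : dot (r • k) v = r * dot k v := by
  unfold dot
  rw [Finset.mul_sum]
  refine Finset.sum_congr rfl fun i _ => ?_
  simp only [Pi.smul_apply, smul_eq_mul]
  ring

private lemma cnt_dot_add (k x y : Vec d) : dot k (x + y) = dot k x + dot k y := by
  unfold dot
  rw [← Finset.sum_add_distrib]
  refine Finset.sum_congr rfl fun i _ => ?_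
  simp only [Pi.add_apply]
  ring

private lemma cnt_dot_smul' (r : ℝ) (k v : Vec d) : dot k (r • v) = r * dot k v := by
  unfold dot
  rw [Finset.mul_sum]
  refine Finset.sum_congr rfl fun i _ => ?_
  simp only [Pi.smul_apply, smul_eq_mul]
  ring

private lemma cnt_dot_single (k : Vec d) (i : Fin d) : dot k (Pi.single i 1) = k i := by
  unfold dot
  rw [Finset.sum_eq_single i]
  · simp
  · intro j _ hj
    rw [Pi.single_eq_of_ne hj]
    simp
  · intro h
    exact absurd (Finset.mem_univ i) h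

theorem fa_cont (hs : 0 < s) (hα : 0 < α) (hS : SgH s α K c κ₀ S) {q n : ℕ} {M MF : ℝ}
    {F : Vec d → ℝ} {a : Fin n → ℝ} {cc : Fin n → Vec d → ℝ} {k : Fin n → Vec d}
    (hF : HR α q MF F) (hc : Fam α q M a cc k) (φ : Fin n → ℝ) (δ : ℝ) :
    Continuous fun p : ℝ × Vec d × Vec d => fa S δ F cc k φ p.1 p.2.1 p.2.2 := by
  have hFc : Continuous F := hr_cont hα hF
  have hcc : ∀ j, Continuous (cc j) := fun j => hr_cont hα (hc.hc j)
  unfold fa GG Am
  refine Continuous.add (hFc.comp continuous_snd.snd) ?_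
  refine continuous_finsetSum _ fun j _ => ?_
  refine Continuous.mul (Continuous.mul ((hcc j).comp continuous_snd.snd) ?_) ?_
  · refine Real.continuous_exp.comp (Continuous.neg ?_)
    exact (dam3 hs hα hS δ (k j)).comp (continuous_fst.prodMk continuous_snd.snd)
  · refine Real.continuous_cos.comp (Continuous.sub ?_ ?_)
    · exact ((continuous_const.mul ((cnt_dot (k j)).comp continuous_snd.fst)).add
        continuous_const)
    · simp only [cnt_dot_smul]
      exact (continuous_const.mul continuous_fst).mul ((cnt_dot (k j)).comp continuous_snd.snd)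

theorem fa_cg (hs : 0 < s) (hα : 0 < α) (hS : SgH s α K c κ₀ S) {q n : ℕ} {M MF : ℝ}
    {F : Vec d → ℝ} {a : Fin n → ℝ} {cc : Fin n → Vec d → ℝ} {k : Fin n → Vec d}
    (hF : HR α (q + 2) MF F) (hc : Fam α (q + 2) M a cc k) : ∃ M' : ℝ, 0 ≤ M' ∧
    ∀ δ : ℝ, 0 < δ → δ ≤ 1 → ∀ (φ : Fin n → ℝ) (T₁ : ℝ), CG T₁ q M' (fa S δ F cc k φ) := by
  obtain ⟨K₃, _, h3⟩ := osc hs hα hS
  obtain ⟨M', hM', h4⟩ := h3 q n M MF F a cc k hF hc
  refine ⟨M', hM', fun δ hδ hδ1 φ T₁ => ⟨?_, ?_, ?_⟩⟩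
  · have := fa_cont hs hα hS hF hc φ δ
    exact this.continuousOn
  · intro t _ x v i
    unfold fa GG
    congr 1
    refine Finset.sum_congr rfl fun j _ => ?_
    obtain ⟨z, hz⟩ := hc.hk j i
    have e : 2 * Real.pi * dot (k j) (x + Pi.single i 1) + φ j - dot ((2 * Real.pi * t) • k j) v =
        (2 * Real.pi * dot (k j) x + φ j - dot ((2 * Real.pi * t) • k j) v) +
          z * (2 * Real.pi) := by
      rw [cnt_dot_add, cnt_dot_single, hz]
      ring
    rw [e, Real.cos_add_int_mul_two_pi]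
  · intro t ht x v
    exact (h4 δ hδ hδ1 t ht.1 φ x v).1

theorem fa_zero (δ : ℝ) {n : ℕ} (F : Vec d → ℝ) (cc : Fin n → Vec d → ℝ) (k : Fin n → Vec d)
    (φ : Fin n → ℝ) (x v : Vec d) :
    fa S δ F cc k φ 0 x v = F v + ∑ j, cc j v * Real.cos (2 * Real.pi * dot (k j) x + φ j) := by
  unfold fa GG Am Dm
  congr 1
  refine Finset.sum_congr rfl fun j _ => ?_
  simp only [intervalIntegral.integral_same, cnt_dot_smul]
  simp

theorem fa_char (hs : 0 < s) (hS : SgH s α K c κ₀ S) (δ : ℝ) {n : ℕ} (F : Vec d → ℝ)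
    (cc : Fin n → Vec d → ℝ) (k : Fin n → Vec d) (φ : Fin n → ℝ) (t₀ : ℝ) (x₀ v₀ : Vec d) :
    HasDerivAt (fun τ : ℝ => fa S δ F cc k φ (t₀ + τ) (x₀ + τ • v₀) v₀)
      (-(δ * ∑ j, S ((2 * Real.pi * t₀) • k j) v₀ * (Am S δ (cc j) (k j) t₀ v₀ *
        Real.cos (2 * Real.pi * dot (k j) x₀ + φ j - dot ((2 * Real.pi * t₀) • k j) v₀)))) 0 := by
  have e1 : (fun τ : ℝ => fa S δ F cc k φ (t₀ + τ) (x₀ + τ • v₀) v₀) =
      fun τ : ℝ => F v₀ + ∑ j, cc j v₀ * Real.exp (-Dm S δ (k j) (t₀ + τ) v₀) *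
        Real.cos (2 * Real.pi * dot (k j) x₀ + φ j - dot ((2 * Real.pi * t₀) • k j) v₀) := by
    funext τ
    unfold fa GG Am
    congr 1
    refine Finset.sum_congr rfl fun j _ => ?_
    congr 2
    simp only [cnt_dot_add, cnt_dot_smul', cnt_dot_smul]
    ring
  rw [e1]
  have e2 : ∀ j, HasDerivAt (fun τ : ℝ => cc j v₀ * Real.exp (-Dm S δ (k j) (t₀ + τ) v₀) *
      Real.cos (2 * Real.pi * dot (k j) x₀ + φ j - dot ((2 * Real.pi * t₀) • k j) v₀))
      (cc j v₀ * (Real.exp (-Dm S δ (k j) t₀ v₀) *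
        (-(δ * S ((2 * Real.pi * t₀) • k j) v₀))) *
      Real.cos (2 * Real.pi * dot (k j) x₀ + φ j - dot ((2 * Real.pi * t₀) • k j) v₀)) 0 := by
    intro j
    have h0 : HasDerivAt (fun τ : ℝ => Dm S δ (k j) (t₀ + τ) v₀)
        (δ * S ((2 * Real.pi * t₀) • k j) v₀) 0 := by
      have h00 : HasDerivAt (fun r => Dm S δ (k j) r v₀)
          (δ * S ((2 * Real.pi * t₀) • k j) v₀) (t₀ + 0) := by
        rw [add_zero]
        exact dam4 hs hS δ (k j) v₀ t₀
      exact HasDerivAt.comp_const_add t₀ 0 h00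
    have h1 := (h0.neg.exp.const_mul (cc j v₀)).mul_const
      (Real.cos (2 * Real.pi * dot (k j) x₀ + φ j - dot ((2 * Real.pi * t₀) • k j) v₀))
    simpa only [add_zero, Pi.neg_apply] using h1
  have h3 := (HasDerivAt.fun_sum fun j (_ : j ∈ Finset.univ) => e2 j).const_add (F v₀)
  refine h3.congr_deriv ?_
  rw [Finset.mul_sum, ← Finset.sum_neg_distrib]
  refine Finset.sum_congr rfl fun j _ => ?_
  unfold Am
  ring

end Pool.Agent.H82.HF
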