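import Pool.Agent.H82.HF.Lay0

/-!
# Module Dam: the damping factors

`S` is continuous in `κ` (`kap`: `len (κ-κ')^(2s) → 0`), so `r ↦ S ((2πr) • k) v` is continuous (`Continuous`: squeeze with `kap`, `len ((2π(r-r')) • k) = 2π|r-r'| len k`) and interval integrable.
* `dam0`: integral of a nonnegative function over `[0,t]`.
* `dam1`: `r₀ = κ₀/(2π)`. For `r ≥ r₀`, `len ((2πr)•k) = 2π r len k ≥ κ₀` (`len k ≥ 1`), so `S ≥ c (2π r len k)^(2s) ≥ c r^(2s)` (`(2π len k)^(2s) ≥ 1`). If `t ≥ r₀`: `Dm ≥ δ ∫_{r₀}^t c r^(2s) dr = δ c (t^(1+2s) - r₀^(1+2s))/(1+2s)`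
  (`integral_rpow`); if `t < r₀`: `Dm ≥ 0 ≥` the same. With `c₁ = c/(1+2s)`, `δ ≤ 1`: `Dm ≥ c₁ X - c₁ r₀^(1+2s)`, `X = δ t^(1+2s) ≥ 0`. So `exp(-Dm) (1+X)² ≤ e^(c₁ r₀^(1+2s)) (1+X)² e^(-c₁ X)`, and `(1+X)² e^(-c₁X) ≤ K`:
  `1 + X ≤ (1+2/c₁) e^(c₁X/2)` because `e^y ≥ 1 + y` and `e^y ≥ y`.
* `dam2`: `|e^(-a) - e^(-b)| ≤ |a-b| (e^(-a) + e^(-b))` for `a, b ≥ 0` (mean value or `1 - e^(-y) ≤ y`). `|Dm(v+h) - Dm(v)| ≤ δ ∫_0^t K min(1,|h|)^α (1+|v|²+|v+h|²) (2π r len k)^(2s) dr ≤ K (2πR)^(2s) X min(1,|h|)^α (1+|v|²+|v+h|²)`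
  (`len k ≤ R`, `∫_0^t r^(2s) ≤ t^(1+2s)`), and `X (e^(-a)+e^(-b)) ≤ 2 K₃ X (1+X)^(-2) ≤ 2K₃` by `dam1`.
* `dam3` (joint continuity of `(t,v) ↦ Dm`): `g(v,r) = S((2πr)•k) v` is jointly continuous (`|S κ' v' - S κ v| ≤ |S κ' v' - S κ' v| + |S κ' v - S κ v|`, `hol` with `h = v' - v`, `kap`; squeeze), then `intervalIntegral.continuous_parametric_primitive_of_continuous`
  or `continuous_parametric_intervalIntegral_of_continuous`.
* `dam4`: fundamental theorem of calculus for the continuous integrand (`intervalIntegral.integral_hasDerivAt_right`).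
-/

set_option autoImplicit false

open MeasureTheory Set Filter Topology Pool.Agent.H25.Kin Pool.Agent.H48.PL Pool.Agent.H48.PD
open Pool.Agent.H82.BK Pool.Agent.H82.CM Pool.Agent.H48.PR

namespace Pool.Agent.H82.HF

variable {d : ℕ} {s α K c κ₀ : ℝ} {S : Vec d → Vec d → ℝ}

theorem dam0 (hS : SgH s α K c κ₀ S) {δ t : ℝ} (hδ : 0 ≤ δ) (ht : 0 ≤ t) (k v : Vec d) :
    0 ≤ Dm S δ k t v :=
  mul_nonneg hδ (intervalIntegral.integral_nonneg ht fun _ _ => hS.nn _ _)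

private lemma Dam_cont1 (hs : 0 < s) (hS : SgH s α K c κ₀ S) (k v : Vec d) :
    Continuous fun r : ℝ => S ((2 * Real.pi * r) • k) v := by
  rw [continuous_iff_continuousAt]
  intro r
  have hs2 : 0 < 2 * s := by linarith
  have h1 : Continuous fun r' : ℝ => K * (1 + nsq v) *
      len ((2 * Real.pi * r') • k - (2 * Real.pi * r) • k) ^ (2 * s) := by
    refine continuous_const.mul ?_
    exact Continuous.rpow_const (continuous_len.comp (by fun_prop)) fun _ => Or.inr hs2.le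
  have h2 : Tendsto (fun r' : ℝ => K * (1 + nsq v) *
      len ((2 * Real.pi * r') • k - (2 * Real.pi * r) • k) ^ (2 * s)) (𝓝 r) (𝓝 0) := by
    have h3 := h1.tendsto r
    rw [sub_self, len_zero, Real.zero_rpow hs2.ne', mul_zero] at h3
    exact h3
  unfold ContinuousAt
  rw [tendsto_iff_dist_tendsto_zero]
  refine squeeze_zero (fun _ => dist_nonneg) (fun r' => ?_) h2
  rw [Real.dist_eq]
  exact hS.kap _ _ _

private lemma Dam_cont2 (hs : 0 < s) (hα : 0 < α) (hS : SgH s α K c κ₀ S) (k : Vec d) :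
    Continuous fun p : Vec d × ℝ => S ((2 * Real.pi * p.2) • k) p.1 := by
  rw [continuous_iff_continuousAt]
  rintro ⟨v, r⟩
  have hs2 : 0 < 2 * s := by linarith
  have h1 : Continuous fun p : Vec d × ℝ => K * min 1 (len (p.1 - v)) ^ α *
      (1 + nsq v + nsq p.1) * len ((2 * Real.pi * p.2) • k) ^ (2 * s) +
      K * (1 + nsq v) * len ((2 * Real.pi * p.2) • k - (2 * Real.pi * r) • k) ^ (2 * s) := by
    have a1 : Continuous fun p : Vec d × ℝ => min 1 (len (p.1 - v)) ^ α :=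
      Continuous.rpow_const (continuous_const.min (continuous_len.comp (by fun_prop)))
        fun _ => Or.inr hα.le
    have a2 : Continuous fun p : Vec d × ℝ => nsq p.1 := continuous_sq.comp continuous_fst
    have a3 : Continuous fun p : Vec d × ℝ => len ((2 * Real.pi * p.2) • k) ^ (2 * s) :=
      Continuous.rpow_const (continuous_len.comp (by fun_prop)) fun _ => Or.inr hs2.le
    have a4 : Continuous fun p : Vec d × ℝ =>
        len ((2 * Real.pi * p.2) • k - (2 * Real.pi * r) • k) ^ (2 * s) :=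
      Continuous.rpow_const (continuous_len.comp (by fun_prop)) fun _ => Or.inr hs2.le
    exact (((continuous_const.mul a1).mul (continuous_const.add a2)).mul a3).add
      (continuous_const.mul a4)
  have h2 : Tendsto (fun p : Vec d × ℝ => K * min 1 (len (p.1 - v)) ^ α *
      (1 + nsq v + nsq p.1) * len ((2 * Real.pi * p.2) • k) ^ (2 * s) +
      K * (1 + nsq v) * len ((2 * Real.pi * p.2) • k - (2 * Real.pi * r) • k) ^ (2 * s))
      (𝓝 (v, r)) (𝓝 0) := by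
    have h3 := h1.tendsto (v, r)
    simp only [sub_self, len_zero] at h3
    rw [min_eq_right zero_le_one, Real.zero_rpow hα.ne', Real.zero_rpow hs2.ne', mul_zero,
      zero_mul, zero_mul, mul_zero, add_zero] at h3
    exact h3
  unfold ContinuousAt
  rw [tendsto_iff_dist_tendsto_zero]
  refine squeeze_zero (fun _ => dist_nonneg) (fun p => ?_) h2
  rw [Real.dist_eq]
  have a1 := hS.hol ((2 * Real.pi * p.2) • k) v (p.1 - v)
  rw [add_sub_cancel] at a1
  have a2 := hS.kap ((2 * Real.pi * p.2) • k) ((2 * Real.pi * r) • k) v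
  exact (abs_sub_le _ (S ((2 * Real.pi * p.2) • k) v) _).trans (add_le_add a1 a2)

private lemma Dam_low (hs : 0 < s) (hS : SgH s α K c κ₀ S) {k : Vec d} (hk : 1 ≤ len k) {δ : ℝ}
    (hδ : 0 < δ) (hδ1 : δ ≤ 1) {t : ℝ} (ht : 0 ≤ t) (v : Vec d) :
    c / (1 + 2 * s) * (δ * t ^ (1 + 2 * s)) -
      c / (1 + 2 * s) * (κ₀ / (2 * Real.pi)) ^ (1 + 2 * s) ≤ Dm S δ k t v := by
  have hπ := Real.pi_pos
  have hr₀ : 0 ≤ κ₀ / (2 * Real.pi) := div_nonneg hS.k0 (by positivity)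
  have hκ : 2 * Real.pi * (κ₀ / (2 * Real.pi)) = κ₀ := by field_simp
  generalize κ₀ / (2 * Real.pi) = r₀ at hr₀ hκ ⊢
  have hc₁ : 0 < c / (1 + 2 * s) := div_pos hS.c0 (by linarith)
  have hg := Dam_cont1 hs hS k v
  rcases le_total t r₀ with h | h
  · have h1 : t ^ (1 + 2 * s) ≤ r₀ ^ (1 + 2 * s) := Real.rpow_le_rpow ht h (by linarith)
    have h2 := dam0 hS hδ.le ht k v
    have h3 : δ * t ^ (1 + 2 * s) ≤ t ^ (1 + 2 * s) :=
      mul_le_of_le_one_left (Real.rpow_nonneg ht _) hδ1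
    have h4 := mul_le_mul_of_nonneg_left (h3.trans h1) hc₁.le
    linarith
  · have e1 : ∫ r in (0 : ℝ)..t, S ((2 * Real.pi * r) • k) v =
        (∫ r in (0 : ℝ)..r₀, S ((2 * Real.pi * r) • k) v) +
          ∫ r in r₀..t, S ((2 * Real.pi * r) • k) v :=
      (intervalIntegral.integral_add_adjacent_intervals (hg.intervalIntegrable _ _)
        (hg.intervalIntegrable _ _)).symm
    have e2 : 0 ≤ ∫ r in (0 : ℝ)..r₀, S ((2 * Real.pi * r) • k) v :=
      intervalIntegral.integral_nonneg hr₀ fun _ _ => hS.nn _ _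
    have hc : Continuous fun r : ℝ => c * r ^ (2 * s) :=
      continuous_const.mul (Real.continuous_rpow_const (by linarith))
    have e3 : ∫ r in r₀..t, c * r ^ (2 * s) ≤ ∫ r in r₀..t, S ((2 * Real.pi * r) • k) v := by
      refine intervalIntegral.integral_mono_on h (hc.intervalIntegrable _ _)
        (hg.intervalIntegrable _ _) fun r hr => ?_
      have hr0 : 0 ≤ r := hr₀.trans hr.1
      have a1 : len ((2 * Real.pi * r) • k) = 2 * Real.pi * r * len k :=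
        len_smul (by positivity) k
      have a2 : κ₀ ≤ len ((2 * Real.pi * r) • k) := by
        rw [a1, ← hκ]
        have a3 : 2 * Real.pi * r₀ ≤ 2 * Real.pi * r :=
          mul_le_mul_of_nonneg_left hr.1 (by positivity)
        exact a3.trans (le_mul_of_one_le_right (by positivity) hk)
      refine le_trans ?_ (hS.low _ _ a2)
      refine mul_le_mul_of_nonneg_left ?_ hS.c0.le
      rw [a1]
      refine Real.rpow_le_rpow hr0 ?_ (by linarith)
      have a4 : (1 : ℝ) ≤ 2 * Real.pi := by linarith [Real.pi_gt_three]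
      have a5 : r ≤ 2 * Real.pi * r := le_mul_of_one_le_left hr0 a4
      exact a5.trans (le_mul_of_one_le_right (by positivity) hk)
    have e4 : ∫ r in r₀..t, c * r ^ (2 * s) =
        c / (1 + 2 * s) * (t ^ (1 + 2 * s) - r₀ ^ (1 + 2 * s)) := by
      rw [intervalIntegral.integral_const_mul, integral_rpow (Or.inl (by linarith)),
        add_comm (2 * s) 1]
      ring
    rw [e4] at e3
    have h5 : δ * (c / (1 + 2 * s) * (t ^ (1 + 2 * s) - r₀ ^ (1 + 2 * s))) ≤ Dm S δ k t v := by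
      unfold Dm
      rw [e1]
      refine mul_le_mul_of_nonneg_left ?_ hδ.le
      linarith
    refine le_trans ?_ h5
    have h6 : δ * r₀ ^ (1 + 2 * s) ≤ r₀ ^ (1 + 2 * s) :=
      mul_le_of_le_one_left (Real.rpow_nonneg hr₀ _) hδ1
    have h7 := mul_le_mul_of_nonneg_left h6 hc₁.le
    have e5 : δ * (c / (1 + 2 * s) * (t ^ (1 + 2 * s) - r₀ ^ (1 + 2 * s))) =
        c / (1 + 2 * s) * (δ * t ^ (1 + 2 * s)) - c / (1 + 2 * s) * (δ * r₀ ^ (1 + 2 * s)) := by
      ring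
    rw [e5]
    linarith

private lemma Dam_real {c₁ X E D : ℝ} (hc : 0 < c₁) (hX : 0 ≤ X) (hD : c₁ * X - E ≤ D) :
    Real.exp (-D) * (1 + X) ^ 2 ≤ Real.exp E * (1 + 2 / c₁) ^ 2 := by
  have h1 : 1 + X ≤ (1 + 2 / c₁) * Real.exp (c₁ * X / 2) := by
    have a1 := Real.add_one_le_exp (c₁ * X / 2)
    have a2 : 0 < 2 / c₁ := by positivity
    have a3 : (1 + 2 / c₁) * (c₁ * X / 2 + 1) ≤ (1 + 2 / c₁) * Real.exp (c₁ * X / 2) :=
      mul_le_mul_of_nonneg_left a1 (by linarith)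
    have a4 : (1 + 2 / c₁) * (c₁ * X / 2 + 1) = c₁ * X / 2 + 1 + X + 2 / c₁ := by
      field_simp
      ring
    have a5 : 0 ≤ c₁ * X / 2 := by positivity
    linarith
  have h2 : (1 + X) ^ 2 ≤ ((1 + 2 / c₁) * Real.exp (c₁ * X / 2)) ^ 2 :=
    pow_le_pow_left₀ (by linarith) h1 2
  have h3 : ((1 + 2 / c₁) * Real.exp (c₁ * X / 2)) ^ 2 =
      (1 + 2 / c₁) ^ 2 * Real.exp (c₁ * X) := by
    rw [mul_pow, ← Real.exp_nat_mul]
    congr 2
    push_cast
    ring
  have h4 : Real.exp (-D) ≤ Real.exp (E - c₁ * X) := Real.exp_le_exp.2 (by linarith)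
  calc Real.exp (-D) * (1 + X) ^ 2
      ≤ Real.exp (E - c₁ * X) * ((1 + 2 / c₁) ^ 2 * Real.exp (c₁ * X)) := by
        rw [← h3]
        exact mul_le_mul h4 h2 (by positivity) (Real.exp_pos _).le
    _ = (Real.exp (E - c₁ * X) * Real.exp (c₁ * X)) * (1 + 2 / c₁) ^ 2 := by ring
    _ = Real.exp E * (1 + 2 / c₁) ^ 2 := by
        rw [← Real.exp_add]
        congr 2
        ring

theorem dam1 (hs : 0 < s) (hS : SgH s α K c κ₀ S) : ∃ K₃ : ℝ, 1 ≤ K₃ ∧ ∀ k : Vec d, 1 ≤ len k →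
    ∀ δ : ℝ, 0 < δ → δ ≤ 1 → ∀ t : ℝ, 0 ≤ t → ∀ v : Vec d,
    Real.exp (-Dm S δ k t v) * (1 + δ * t ^ (1 + 2 * s)) ^ 2 ≤ K₃ := by
  have hπ := Real.pi_pos
  have hc₁ : 0 < c / (1 + 2 * s) := div_pos hS.c0 (by linarith)
  have hr₀ : 0 ≤ κ₀ / (2 * Real.pi) := div_nonneg hS.k0 (by positivity)
  refine ⟨Real.exp (c / (1 + 2 * s) * (κ₀ / (2 * Real.pi)) ^ (1 + 2 * s)) *
    (1 + 2 / (c / (1 + 2 * s))) ^ 2, ?_, ?_⟩
  · have h1 : 1 ≤ Real.exp (c / (1 + 2 * s) * (κ₀ / (2 * Real.pi)) ^ (1 + 2 * s)) :=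
      Real.one_le_exp (mul_nonneg hc₁.le (Real.rpow_nonneg hr₀ _))
    have h2 : (1 : ℝ) ≤ (1 + 2 / (c / (1 + 2 * s))) ^ 2 := by
      refine one_le_pow₀ ?_
      have : 0 < 2 / (c / (1 + 2 * s)) := div_pos two_pos hc₁
      linarith
    exact one_le_mul_of_one_le_of_one_le h1 h2
  · intro k hk δ hδ hδ1 t ht v
    exact Dam_real hc₁ (mul_nonneg hδ.le (Real.rpow_nonneg ht _)) (Dam_low hs hS hk hδ hδ1 ht v)

private lemma Dam_exp (a b : ℝ) :
    |Real.exp (-a) - Real.exp (-b)| ≤ |a - b| * (Real.exp (-a) + Real.exp (-b)) := by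
  have key : ∀ a b : ℝ, a ≤ b →
      |Real.exp (-a) - Real.exp (-b)| ≤ |a - b| * (Real.exp (-a) + Real.exp (-b)) := by
    intro a b hab
    have h1 : Real.exp (-b) ≤ Real.exp (-a) := Real.exp_le_exp.2 (by linarith)
    have h2 : Real.exp (-b) = Real.exp (-a) * Real.exp (-(b - a)) := by
      rw [← Real.exp_add]
      congr 1
      ring
    have h3 := Real.add_one_le_exp (-(b - a))
    have h4 : 0 < Real.exp (-a) := Real.exp_pos _
    have h5 : 0 < Real.exp (-b) := Real.exp_pos _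
    have h6 : Real.exp (-a) * (-(b - a) + 1) ≤ Real.exp (-b) := by
      rw [h2]
      exact mul_le_mul_of_nonneg_left h3 h4.le
    have h7 : 0 ≤ (b - a) * Real.exp (-b) := mul_nonneg (by linarith) h5.le
    rw [abs_of_nonneg (by linarith), abs_sub_comm, abs_of_nonneg (by linarith)]
    linarith
  rcases le_total a b with h | h
  · exact key a b h
  · have h1 := key b a h
    rw [abs_sub_comm, abs_sub_comm a b, add_comm (Real.exp (-a))]
    exact h1

private lemma Dam_diff (hs : 0 < s) (hS : SgH s α K c κ₀ S) (R : ℝ) {k : Vec d}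
    (hkR : len k ≤ R) {δ : ℝ} (hδ : 0 < δ) {t : ℝ} (ht : 0 ≤ t) (v h : Vec d) :
    |Dm S δ k t (v + h) - Dm S δ k t v| ≤ K * (2 * Real.pi * |R|) ^ (2 * s) *
      (min 1 (len h) ^ α * (1 + nsq v + nsq (v + h))) * (δ * t ^ (1 + 2 * s)) := by
  have hπ := Real.pi_pos
  have hs2 : 0 < 2 * s := by linarith
  have g1 := Dam_cont1 hs hS k (v + h)
  have g2 := Dam_cont1 hs hS k v
  have hm : 0 ≤ min 1 (len h) ^ α := Real.rpow_nonneg (le_min zero_le_one (len_nonneg _)) _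
  have hw : 0 ≤ 1 + nsq v + nsq (v + h) := by
    have a1 : 0 ≤ nsq v := by unfold nsq; positivity
    have a2 : 0 ≤ nsq (v + h) := by unfold nsq; positivity
    linarith
  have e1 : Dm S δ k t (v + h) - Dm S δ k t v =
      δ * ∫ r in (0 : ℝ)..t, (S ((2 * Real.pi * r) • k) (v + h) -
        S ((2 * Real.pi * r) • k) v) := by
    unfold Dm
    rw [intervalIntegral.integral_sub (g1.intervalIntegrable _ _) (g2.intervalIntegrable _ _)]
    ring
  have h1 : ‖∫ r in (0 : ℝ)..t, (S ((2 * Real.pi * r) • k) (v + h) -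
      S ((2 * Real.pi * r) • k) v)‖ ≤ (K * min 1 (len h) ^ α * (1 + nsq v + nsq (v + h)) *
        (2 * Real.pi * |R| * t) ^ (2 * s)) * |t - 0| := by
    refine intervalIntegral.norm_integral_le_of_norm_le_const fun r hr => ?_
    rw [uIoc_of_le ht] at hr
    rw [Real.norm_eq_abs]
    refine (hS.hol _ _ _).trans ?_
    refine mul_le_mul_of_nonneg_left ?_ (mul_nonneg (mul_nonneg hS.K0 hm) hw)
    have hr0 : 0 ≤ r := hr.1.le
    rw [len_smul (by positivity : 0 ≤ 2 * Real.pi * r)]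
    refine Real.rpow_le_rpow (mul_nonneg (by positivity) (len_nonneg _)) ?_ hs2.le
    calc 2 * Real.pi * r * len k ≤ 2 * Real.pi * t * |R| :=
          mul_le_mul (mul_le_mul_of_nonneg_left hr.2 (by positivity))
            (hkR.trans (le_abs_self R)) (len_nonneg _) (by positivity)
      _ = 2 * Real.pi * |R| * t := by ring
  have e2 : t ^ (1 + 2 * s) = t * t ^ (2 * s) :=
    Real.rpow_one_add' ht (by linarith)
  rw [e1, abs_mul, abs_of_pos hδ]
  rw [Real.norm_eq_abs, sub_zero, abs_of_nonneg ht,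
    Real.mul_rpow (by positivity : 0 ≤ 2 * Real.pi * |R|) ht] at h1
  refine (mul_le_mul_of_nonneg_left h1 hδ.le).trans (le_of_eq ?_)
  rw [e2]
  ring

private lemma Dam_fin {A X a b m K₃ : ℝ} (hA : 0 ≤ A) (hm : 0 ≤ m) (hX : 0 ≤ X)
    (ha : Real.exp (-a) * (1 + X) ^ 2 ≤ K₃) (hb : Real.exp (-b) * (1 + X) ^ 2 ≤ K₃)
    (hd : |a - b| ≤ A * m * X) :
    |Real.exp (-a) - Real.exp (-b)| ≤ 2 * K₃ * A * m := by
  have hX2 : X ≤ (1 + X) ^ 2 := by nlinarith
  have h1 : X * Real.exp (-a) ≤ K₃ := by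
    refine le_trans ?_ ha
    rw [mul_comm]
    exact mul_le_mul_of_nonneg_left hX2 (Real.exp_pos _).le
  have h2 : X * Real.exp (-b) ≤ K₃ := by
    refine le_trans ?_ hb
    rw [mul_comm]
    exact mul_le_mul_of_nonneg_left hX2 (Real.exp_pos _).le
  have hAm : 0 ≤ A * m := mul_nonneg hA hm
  calc |Real.exp (-a) - Real.exp (-b)|
      ≤ |a - b| * (Real.exp (-a) + Real.exp (-b)) := Dam_exp a b
    _ ≤ A * m * X * (Real.exp (-a) + Real.exp (-b)) :=
        mul_le_mul_of_nonneg_right hd (add_pos (Real.exp_pos _) (Real.exp_pos _)).le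
    _ = A * m * (X * Real.exp (-a) + X * Real.exp (-b)) := by ring
    _ ≤ A * m * (K₃ + K₃) := mul_le_mul_of_nonneg_left (add_le_add h1 h2) hAm
    _ = 2 * K₃ * A * m := by ring

theorem dam2 (hs : 0 < s) (hS : SgH s α K c κ₀ S) (R : ℝ) : ∃ K₄ : ℝ, 0 ≤ K₄ ∧ ∀ k : Vec d,
    1 ≤ len k → len k ≤ R → ∀ δ : ℝ, 0 < δ → δ ≤ 1 → ∀ t : ℝ, 0 ≤ t → ∀ v h : Vec d,
    |Real.exp (-Dm S δ k t (v + h)) - Real.exp (-Dm S δ k t v)| ≤
      K₄ * min 1 (len h) ^ α * (1 + nsq v + nsq (v + h)) := by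
  obtain ⟨K₃, hK₃, h3⟩ := dam1 hs hS
  have hπ := Real.pi_pos
  have hA : 0 ≤ K * (2 * Real.pi * |R|) ^ (2 * s) :=
    mul_nonneg hS.K0 (Real.rpow_nonneg (by positivity) _)
  refine ⟨2 * K₃ * (K * (2 * Real.pi * |R|) ^ (2 * s)),
    mul_nonneg (by linarith) hA, ?_⟩
  intro k hk hkR δ hδ hδ1 t ht v h
  have hm : 0 ≤ min 1 (len h) ^ α := Real.rpow_nonneg (le_min zero_le_one (len_nonneg _)) _
  have hw : 0 ≤ 1 + nsq v + nsq (v + h) := by
    have a1 : 0 ≤ nsq v := by unfold nsq; positivity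
    have a2 : 0 ≤ nsq (v + h) := by unfold nsq; positivity
    linarith
  have h4 := Dam_fin hA (mul_nonneg hm hw) (mul_nonneg hδ.le (Real.rpow_nonneg ht (1 + 2 * s)))
    (h3 k hk δ hδ hδ1 t ht (v + h)) (h3 k hk δ hδ hδ1 t ht v)
    (Dam_diff hs hS R hkR hδ ht v h)
  rw [mul_assoc (2 * K₃ * (K * (2 * Real.pi * |R|) ^ (2 * s)))]
  exact h4

theorem dam3 (hs : 0 < s) (hα : 0 < α) (hS : SgH s α K c κ₀ S) (δ : ℝ) (k : Vec d) :
    Continuous fun p : ℝ × Vec d => Dm S δ k p.1 p.2 := by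
  have h1 := Dam_cont2 hs hα hS k
  have h2 : Continuous fun p : Vec d × ℝ =>
      ∫ r in (0 : ℝ)..p.2, S ((2 * Real.pi * r) • k) p.1 :=
    intervalIntegral.continuous_parametric_primitive_of_continuous
      (f := fun (v : Vec d) (r : ℝ) => S ((2 * Real.pi * r) • k) v) h1
  have h3 : Continuous fun p : ℝ × Vec d => ((p.2, p.1) : Vec d × ℝ) := by fun_prop
  exact continuous_const.mul (h2.comp h3)

theorem dam4 (hs : 0 < s) (hS : SgH s α K c κ₀ S) (δ : ℝ) (k v : Vec d) (t : ℝ) :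
    HasDerivAt (fun r => Dm S δ k r v) (δ * S ((2 * Real.pi * t) • k) v) t := by
  have hg := Dam_cont1 hs hS k v
  exact (intervalIntegral.integral_hasDerivAt_right (hg.intervalIntegrable _ _)
    (hg.stronglyMeasurableAtFilter _ _) hg.continuousAt).const_mul δ

end Pool.Agent.H82.HF
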