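import Pool.Agent.H48.PS.Tch2
import Pool.Agent.H48.PS.Prp

/-!
# Dilute gases without symmetry (MP_c15324_an): definitions of the layer lemma

Classes of functions of the velocity and trigonometric families.
-/

set_option autoImplicit false

open MeasureTheory Set Filter Topology Pool.Agent.H25.Kin Pool.Agent.H48.PL Pool.Agent.H48.PD
open Pool.Agent.H82.BK Pool.Agent.H82.CM Pool.Agent.H48.PR

namespace Pool.Agent.H82.HF

variable {d : ℕ}

/-- weighted Hoelder class of order `α` with the weight `(1+|v|²)^(-q)` and the constant `C` -/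
structure HR (α : ℝ) (q : ℕ) (C : ℝ) (a : Vec d → ℝ) : Prop where
  nn : 0 ≤ C
  le : ∀ v, |a v| ≤ C * Wp q v
  hol : ∀ v h, |a (v + h) - a v| ≤ C * min 1 (len h) ^ α * (Wp q v + Wp q (v + h))

/-- the trigonometric family `F(u) + Σ_j A_j(u) cos(θ_j - κ_j · u)` -/
noncomputable def GG {n : ℕ} (F : Vec d → ℝ) (A : Fin n → Vec d → ℝ) (κ : Fin n → Vec d)
    (θ : Fin n → ℝ) (u : Vec d) : ℝ :=
  F u + ∑ j, A j u * Real.cos (θ j - dot (κ j) u)

end Pool.Agent.H82.HF
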