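import Pool.Agent.H82.HF.Lay0
import Pool.Agent.H25.Kin.Per

/-!
# Module FouD: the Schwartz class of `𝕋^d × ℝ^d` and real Fourier coefficients

* `sch_bd`: `dec` with `m = 0` (`iteratedFDeriv ℝ 0`: `norm_iteratedFDeriv_zero`) and `N = 2q`: `1 + nsq v ≤ (d+1) (1+‖v‖)²` gives `|h x v| ≤ C Wp q v` (as `stb_le` in H48/PS/Stb). For every `q` one constant.
* `sch_hr`: `|h x (v+w) - h x v|`: if `len w > 1`, `≤ C Wp q v + C Wp q (v+w)`. If `len w ≤ 1`: mean value inequality for `v ↦ h x v` on the segment (`Convex.norm_image_sub_le_of_norm_fderiv_le` or `norm_image_sub_le_of_norm_deriv_le_segment`), the derivative of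
  `τ ↦ h x (v+τw)` is `fderiv (uncurried h) (x, v+τw) (0, w)`, norm `≤ ‖iteratedFDeriv 1‖ ‖w‖` (`norm_iteratedFDeriv_one`), `‖w‖ ≤ len w`; on the segment `1+‖v‖ ≤ 2 (1+‖v+τw‖)` (`‖τw‖ ≤ 1`), so `≤ C (1+‖v‖)^(-2q) len w ≤ C' Wp q v len w`. `min 1 (len w) ^ 1`.
* `sch_di`, `sch_cont`: `Di i h` is again of the class: `Di i h = (fderiv ℝ H ·) (e_i, 0)` with `H` the uncurried function: smoothness `ContDiff.fderiv_right`, `ContDiff.clm_apply`; period: differentiate `H (p + (e_j,0)) = H p` (`fderiv_comp_add_right`);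
  `‖iteratedFDeriv m (Di i h)‖ ≤ ‖iteratedFDeriv m (fderiv H)‖ ‖(e_i,0)‖ = ‖iteratedFDeriv (m+1) H‖` (`norm_iteratedFDeriv_clm_apply_const`-type lemma / `ContinuousLinearMap.norm_iteratedFDeriv_comp_left` with the evaluation map, `norm_iteratedFDeriv_fderiv`).
* `co_le`: `|cos|, |sin| ≤ 1` and `volume (Icc 0 1) = 1` in `Vec d`.
* `co_hr`: integrate the class `HR` over the cube (continuity in `x` gives integrability).
-/

set_option autoImplicit false

open MeasureTheory Set Filter Topology Pool.Agent.H25.Kin Pool.Agent.H48.PL Pool.Agent.H48.PD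
open Pool.Agent.H82.BK Pool.Agent.H82.CM Pool.Agent.H48.PR

namespace Pool.Agent.H82.HF

variable {d : ℕ}

/-- the Schwartz class of `𝕋^d × ℝ^d`: smooth, periodic in `x`, all derivatives decay rapidly in `v` -/
structure SchT (h : Vec d → Vec d → ℝ) : Prop where
  smooth : ∀ n : ℕ, ContDiff ℝ n (fun p : Vec d × Vec d => h p.1 p.2)
  per : ∀ x v i, h (x + Pi.single i 1) v = h x v
  dec : ∀ N m : ℕ, ∃ C : ℝ, ∀ x v,
    (1 + ‖v‖) ^ N * ‖iteratedFDeriv ℝ m (fun p : Vec d × Vec d => h p.1 p.2) (x, v)‖ ≤ C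

/-- the derivative in `x_i` -/
noncomputable def Di (i : Fin d) (h : Vec d → Vec d → ℝ) (x v : Vec d) : ℝ :=
  fderiv ℝ (fun p : Vec d × Vec d => h p.1 p.2) (x, v) (Pi.single i 1, 0)

/-- the frequency vector -/
def kv (k : Fin d → ℤ) : Vec d := fun i => (k i : ℝ)

/-- cosine coefficients -/
noncomputable def aC (h : Vec d → Vec d → ℝ) (k : Fin d → ℤ) (v : Vec d) : ℝ :=
  ∫ x in Icc (0 : Vec d) 1, h x v * Real.cos (2 * Real.pi * dot (kv k) x)

/-- sine coefficients -/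
noncomputable def bC (h : Vec d → Vec d → ℝ) (k : Fin d → ℤ) (v : Vec d) : ℝ :=
  ∫ x in Icc (0 : Vec d) 1, h x v * Real.sin (2 * Real.pi * dot (kv k) x)

/-- pointwise decay from a weighted bound -/
private theorem FouD_le {q : ℕ} {v : Vec d} {a c : ℝ} (ha : 0 ≤ a)
    (h : (1 + ‖v‖) ^ (2 * q) * a ≤ c) : a ≤ ((d : ℝ) + 1) ^ q * c * Wp q v := by
  have hn := norm_nonneg v
  have h2 : 1 + nsq v ≤ ((d : ℝ) + 1) * (1 + ‖v‖) ^ 2 := by
    have h3 := sq_le v
    have h4 : (0 : ℝ) ≤ d := Nat.cast_nonneg _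
    nlinarith [mul_nonneg h4 hn]
  have h5 : (1 + nsq v) ^ q ≤ ((d : ℝ) + 1) ^ q * (1 + ‖v‖) ^ (2 * q) := by
    rw [pow_mul, ← mul_pow]
    exact pow_le_pow_left₀ (by have := sq_nonneg' v; linarith) h2 q
  have h6 : 0 < (1 + nsq v) ^ q := by
    have := sq_nonneg' v
    positivity
  rw [Wp, ← div_eq_mul_inv, le_div_iff₀ h6]
  calc a * (1 + nsq v) ^ q ≤ a * (((d : ℝ) + 1) ^ q * (1 + ‖v‖) ^ (2 * q)) :=
        mul_le_mul_of_nonneg_left h5 ha
    _ = ((d : ℝ) + 1) ^ q * ((1 + ‖v‖) ^ (2 * q) * a) := by ring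
    _ ≤ ((d : ℝ) + 1) ^ q * c := mul_le_mul_of_nonneg_left h (by positivity)

private theorem FouD_vol : (volume : Measure (Vec d)).real (Icc (0 : Vec d) 1) = 1 := by
  have h : (volume (Icc (0 : Vec d) 1)).toReal = ∏ i : Fin d, ((1 : Vec d) i - (0 : Vec d) i) :=
    Real.volume_Icc_pi_toReal zero_le_one
  rw [Measure.real, h]
  simp

private theorem FouD_fin : (volume : Measure (Vec d)) (Icc (0 : Vec d) 1) < ⊤ :=
  isCompact_Icc.measure_lt_top

/-- integrals over the cube of bounded functions -/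
private theorem FouD_int {f : Vec d → ℝ} {C : ℝ} (h : ∀ x, |f x| ≤ C) :
    |∫ x in Icc (0 : Vec d) 1, f x| ≤ C := by
  have h1 := norm_setIntegral_le_of_norm_le_const (μ := (volume : Measure (Vec d)))
    (s := Icc (0 : Vec d) 1) (f := f) (C := C) FouD_fin fun x _ => by
      rw [Real.norm_eq_abs]
      exact h x
  rw [FouD_vol, mul_one, Real.norm_eq_abs] at h1
  exact h1

theorem sch_cont {h : Vec d → Vec d → ℝ} (hh : SchT h) :
    Continuous fun p : Vec d × Vec d => h p.1 p.2 := by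
  exact (hh.smooth 0).continuous

theorem sch_bd {h : Vec d → Vec d → ℝ} (hh : SchT h) (N : ℕ) :
    ∃ C : ℝ, 0 ≤ C ∧ ∀ x v, (1 + ‖v‖) ^ N * |h x v| ≤ C := by
  obtain ⟨C, hC⟩ := hh.dec N 0
  refine ⟨|C|, abs_nonneg C, fun x v => ?_⟩
  have h1 := hC x v
  rw [norm_iteratedFDeriv_zero, Real.norm_eq_abs] at h1
  exact h1.trans (le_abs_self C)

theorem sch_hr {h : Vec d → Vec d → ℝ} (hh : SchT h) (q : ℕ) :
    ∃ M : ℝ, 0 ≤ M ∧ ∀ x, HR 1 q M (h x) := by
  obtain ⟨C0, hC0, h0⟩ := sch_bd hh (2 * q)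
  obtain ⟨C1', h1'⟩ := hh.dec (2 * q) 1
  set C1 : ℝ := |C1'| with hC1d
  have hC1 : 0 ≤ C1 := abs_nonneg _
  have h1 : ∀ x v, (1 + ‖v‖) ^ (2 * q) *
      ‖fderiv ℝ (fun p : Vec d × Vec d => h p.1 p.2) (x, v)‖ ≤ C1 := by
    intro x v
    have := h1' x v
    rw [norm_iteratedFDeriv_one] at this
    exact this.trans (le_abs_self _)
  have hd0 : (0 : ℝ) ≤ ((d : ℝ) + 1) ^ q := by positivity
  have hM1 : 0 ≤ ((d : ℝ) + 1) ^ q * C0 := mul_nonneg hd0 hC0
  have hM2 : 0 ≤ ((d : ℝ) + 1) ^ q * (2 ^ (2 * q) * C1) := by positivity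
  have hle : ∀ x v, |h x v| ≤ ((d : ℝ) + 1) ^ q * C0 * Wp q v := fun x v =>
    FouD_le (abs_nonneg _) (h0 x v)
  refine ⟨((d : ℝ) + 1) ^ q * C0 + ((d : ℝ) + 1) ^ q * (2 ^ (2 * q) * C1),
    add_nonneg hM1 hM2, fun x => ⟨add_nonneg hM1 hM2, fun v => ?_, fun v w => ?_⟩⟩
  · exact (hle x v).trans (mul_le_mul_of_nonneg_right (by linarith) (Wp_pos q v).le)
  · rw [Real.rpow_one]
    have hW1 := Wp_pos q v
    have hW2 := Wp_pos q (v + w)
    rcases le_or_gt (len w) 1 with hw | hw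
    · rw [min_eq_right hw]
      have hwn : ‖w‖ ≤ len w := norm_le_len w
      have hl0 := len_nonneg w
      -- the derivative on the segment
      have hder : ∀ τ ∈ Icc (0 : ℝ) 1, HasDerivWithinAt (fun τ : ℝ => h x (v + τ • w))
          (fderiv ℝ (fun p : Vec d × Vec d => h p.1 p.2) (x, v + τ • w) ((0 : Vec d), w))
          (Icc (0 : ℝ) 1) τ := by
        intro τ _
        have hF : HasFDerivAt (fun p : Vec d × Vec d => h p.1 p.2)
            (fderiv ℝ (fun p : Vec d × Vec d => h p.1 p.2) (x, v + τ • w)) (x, v + τ • w) :=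
          (((hh.smooth 1).differentiable (by simp)) _).hasFDerivAt
        have hg : HasDerivAt (fun τ : ℝ => (x, v + τ • w)) ((0 : Vec d), w) τ := by
          refine (hasDerivAt_const τ x).prodMk ?_
          have := ((hasDerivAt_id τ).smul_const w).const_add v
          simpa using this
        exact (hF.comp_hasDerivAt τ hg).hasDerivWithinAt
      have hbd : ∀ τ ∈ Ico (0 : ℝ) 1,
          ‖fderiv ℝ (fun p : Vec d × Vec d => h p.1 p.2) (x, v + τ • w) ((0 : Vec d), w)‖ ≤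
          ((d : ℝ) + 1) ^ q * (2 ^ (2 * q) * C1) * Wp q v * len w := by
        intro τ hτ
        have e1 := ContinuousLinearMap.le_opNorm
          (fderiv ℝ (fun p : Vec d × Vec d => h p.1 p.2) (x, v + τ • w)) ((0 : Vec d), w)
        have e2 : ‖(((0 : Vec d), w) : Vec d × Vec d)‖ = ‖w‖ := by
          rw [Prod.norm_def, norm_zero]
          exact max_eq_right (norm_nonneg _)
        rw [e2] at e1
        have e3 : 1 + ‖v‖ ≤ 2 * (1 + ‖v + τ • w‖) := by
          have e4 : ‖τ • w‖ ≤ 1 := by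
            rw [norm_smul, Real.norm_eq_abs, abs_of_nonneg hτ.1]
            nlinarith [norm_nonneg w, hτ.1, hτ.2, hwn, hw]
          have e5 : ‖v‖ ≤ ‖v + τ • w‖ + ‖τ • w‖ := by
            have := norm_sub_le (v + τ • w) (τ • w)
            rwa [add_sub_cancel_right] at this
          have e6 := norm_nonneg (v + τ • w)
          linarith
        have e7 : (1 + ‖v‖) ^ (2 * q) *
            ‖fderiv ℝ (fun p : Vec d × Vec d => h p.1 p.2) (x, v + τ • w)‖ ≤
            2 ^ (2 * q) * C1 := by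
          have e8 : (1 + ‖v‖) ^ (2 * q) ≤ (2 * (1 + ‖v + τ • w‖)) ^ (2 * q) :=
            pow_le_pow_left₀ (by positivity) e3 _
          calc (1 + ‖v‖) ^ (2 * q) *
              ‖fderiv ℝ (fun p : Vec d × Vec d => h p.1 p.2) (x, v + τ • w)‖
              ≤ (2 * (1 + ‖v + τ • w‖)) ^ (2 * q) *
              ‖fderiv ℝ (fun p : Vec d × Vec d => h p.1 p.2) (x, v + τ • w)‖ :=
                mul_le_mul_of_nonneg_right e8 (norm_nonneg _)
            _ = 2 ^ (2 * q) * ((1 + ‖v + τ • w‖) ^ (2 * q) *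
              ‖fderiv ℝ (fun p : Vec d × Vec d => h p.1 p.2) (x, v + τ • w)‖) := by
                rw [mul_pow]; ring
            _ ≤ 2 ^ (2 * q) * C1 := mul_le_mul_of_nonneg_left (h1 x _) (by positivity)
        have e9 := FouD_le (norm_nonneg _) e7
        refine e1.trans (mul_le_mul e9 hwn (norm_nonneg _) ?_)
        exact mul_nonneg hM2 hW1.le
      have hmv := norm_image_sub_le_of_norm_deriv_le_segment_01' hder hbd
      rw [one_smul, zero_smul, add_zero, Real.norm_eq_abs] at hmv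
      refine hmv.trans ?_
      have e1 : 0 ≤ ((d : ℝ) + 1) ^ q * (2 ^ (2 * q) * C1) * Wp q v * len w := by positivity
      calc ((d : ℝ) + 1) ^ q * (2 ^ (2 * q) * C1) * Wp q v * len w
          = ((d : ℝ) + 1) ^ q * (2 ^ (2 * q) * C1) * len w * Wp q v := by ring
        _ ≤ (((d : ℝ) + 1) ^ q * C0 + ((d : ℝ) + 1) ^ q * (2 ^ (2 * q) * C1)) * len w *
            (Wp q v + Wp q (v + w)) := by
          refine mul_le_mul ?_ (by linarith) hW1.le ?_
          · exact mul_le_mul_of_nonneg_right (by linarith) hl0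
          · exact mul_nonneg (add_nonneg hM1 hM2) hl0
    · rw [min_eq_left hw.le, mul_one]
      have e1 := hle x v
      have e2 := hle x (v + w)
      calc |h x (v + w) - h x v| ≤ |h x (v + w)| + |h x v| := abs_sub _ _
        _ ≤ ((d : ℝ) + 1) ^ q * C0 * Wp q (v + w) + ((d : ℝ) + 1) ^ q * C0 * Wp q v :=
          add_le_add e2 e1
        _ = ((d : ℝ) + 1) ^ q * C0 * (Wp q v + Wp q (v + w)) := by ring
        _ ≤ _ := mul_le_mul_of_nonneg_right (by linarith) (by positivity)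

theorem sch_di {h : Vec d → Vec d → ℝ} (hh : SchT h) (i : Fin d) : SchT (Di i h) := by
  set E : ((Vec d × Vec d) →L[ℝ] ℝ) →L[ℝ] ℝ :=
    ContinuousLinearMap.apply ℝ ℝ ((Pi.single i 1, 0) : Vec d × Vec d) with hE
  have hG : (fun p : Vec d × Vec d => Di i h p.1 p.2) =
      E ∘ fderiv ℝ (fun p : Vec d × Vec d => h p.1 p.2) := by
    funext p
    rfl
  have hs : ∀ n : ℕ, ContDiff ℝ n (fderiv ℝ (fun p : Vec d × Vec d => h p.1 p.2)) := by
    intro n
    refine (hh.smooth (n + 1)).fderiv_right ?_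
    push_cast
    exact le_rfl
  refine ⟨fun n => ?_, fun x v j => ?_, fun N m => ?_⟩
  · rw [hG]
    exact E.contDiff.comp (hs n)
  · have h1 : (fun p : Vec d × Vec d => h (p + (Pi.single j 1, 0)).1 (p + (Pi.single j 1, 0)).2) =
        fun p : Vec d × Vec d => h p.1 p.2 := by
      funext p
      have := hh.per p.1 p.2 j
      rw [← this]
      simp
    have h2 := fderiv_comp_add_right (𝕜 := ℝ) (f := fun p : Vec d × Vec d => h p.1 p.2)
      (x := (x, v)) ((Pi.single j 1, 0) : Vec d × Vec d)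
    rw [h1] at h2
    unfold Di
    have h3 : ((x, v) : Vec d × Vec d) + (Pi.single j 1, 0) = (x + Pi.single j 1, v) := by
      ext <;> simp
    rw [h3] at h2
    rw [h2]
  · obtain ⟨C, hC⟩ := hh.dec N (m + 1)
    refine ⟨‖E‖ * |C|, fun x v => ?_⟩
    have h1 : ‖iteratedFDeriv ℝ m (fun p : Vec d × Vec d => Di i h p.1 p.2) (x, v)‖ ≤
        ‖E‖ * ‖iteratedFDeriv ℝ (m + 1) (fun p : Vec d × Vec d => h p.1 p.2) (x, v)‖ := by
      rw [hG, ← norm_iteratedFDeriv_fderiv]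
      exact E.norm_iteratedFDeriv_comp_left (hs m).contDiffAt le_rfl
    calc (1 + ‖v‖) ^ N * ‖iteratedFDeriv ℝ m (fun p : Vec d × Vec d => Di i h p.1 p.2) (x, v)‖
        ≤ (1 + ‖v‖) ^ N * (‖E‖ *
          ‖iteratedFDeriv ℝ (m + 1) (fun p : Vec d × Vec d => h p.1 p.2) (x, v)‖) :=
          mul_le_mul_of_nonneg_left h1 (by positivity)
      _ = ‖E‖ * ((1 + ‖v‖) ^ N *
          ‖iteratedFDeriv ℝ (m + 1) (fun p : Vec d × Vec d => h p.1 p.2) (x, v)‖) := by ring
      _ ≤ ‖E‖ * |C| :=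
          mul_le_mul_of_nonneg_left ((hC x v).trans (le_abs_self C)) E.opNorm_nonneg

private theorem FouD_mul {a b C : ℝ} (ha : |a| ≤ C) (hb : |b| ≤ 1) : |a * b| ≤ C := by
  rw [abs_mul]
  calc |a| * |b| ≤ |a| * 1 := mul_le_mul_of_nonneg_left hb (abs_nonneg _)
    _ = |a| := mul_one _
    _ ≤ C := ha

private theorem FouD_hr {h : Vec d → Vec d → ℝ} (hh : SchT h) {q : ℕ} {M : ℝ}
    (hM : ∀ x, HR 1 q M (h x)) {u : Vec d → ℝ} (hu : Continuous u) (hu1 : ∀ x, |u x| ≤ 1) :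
    HR 1 q M (fun v => ∫ x in Icc (0 : Vec d) 1, h x v * u x) := by
  refine ⟨(hM 0).nn, fun v => ?_, fun v w => ?_⟩
  · exact FouD_int fun x => FouD_mul ((hM x).le v) (hu1 x)
  · have hi : ∀ v : Vec d, IntegrableOn (fun x : Vec d => h x v * u x) (Icc (0 : Vec d) 1)
        volume := by
      intro v
      refine ContinuousOn.integrableOn_compact isCompact_Icc (Continuous.continuousOn ?_)
      exact ((sch_cont hh).comp (by fun_prop : Continuous fun x : Vec d => (x, v))).mul hu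
    change |(∫ x in Icc (0 : Vec d) 1, h x (v + w) * u x) -
      ∫ x in Icc (0 : Vec d) 1, h x v * u x| ≤ _
    rw [← integral_sub (hi (v + w)) (hi v)]
    refine FouD_int fun x => ?_
    rw [← sub_mul]
    exact FouD_mul ((hM x).hol v w) (hu1 x)

theorem co_le {h : Vec d → Vec d → ℝ} (hh : SchT h) (N : ℕ) :
    ∃ C : ℝ, 0 ≤ C ∧ ∀ k v, (1 + ‖v‖) ^ N * (|aC h k v| + |bC h k v|) ≤ C := by
  obtain ⟨C, hC, h0⟩ := sch_bd hh N
  refine ⟨C + C, add_nonneg hC hC, fun k v => ?_⟩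
  have hp : 0 < (1 + ‖v‖) ^ N := by positivity
  have hb : ∀ x : Vec d, |h x v| ≤ C / (1 + ‖v‖) ^ N := by
    intro x
    rw [le_div_iff₀ hp, mul_comm]
    exact h0 x v
  have h1 : |aC h k v| ≤ C / (1 + ‖v‖) ^ N := by
    refine FouD_int fun x => ?_
    exact FouD_mul (hb x) (Real.abs_cos_le_one _)
  have h2 : |bC h k v| ≤ C / (1 + ‖v‖) ^ N := by
    refine FouD_int fun x => ?_
    exact FouD_mul (hb x) (Real.abs_sin_le_one _)
  calc (1 + ‖v‖) ^ N * (|aC h k v| + |bC h k v|)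
      ≤ (1 + ‖v‖) ^ N * (C / (1 + ‖v‖) ^ N + C / (1 + ‖v‖) ^ N) :=
        mul_le_mul_of_nonneg_left (add_le_add h1 h2) hp.le
    _ = C + C := by field_simp

theorem co_hr {h : Vec d → Vec d → ℝ} (hh : SchT h) (q : ℕ) :
    ∃ M : ℝ, 0 ≤ M ∧ ∀ k, HR 1 q M (aC h k) ∧ HR 1 q M (bC h k) := by
  obtain ⟨M, hM0, hM⟩ := sch_hr hh q
  refine ⟨M, hM0, fun k => ?_⟩
  have hc : Continuous fun x : Vec d => 2 * Real.pi * dot (kv k) x :=
    continuous_const.mul (by unfold dot; fun_prop)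
  exact ⟨FouD_hr hh hM (Real.continuous_cos.comp hc) fun x => Real.abs_cos_le_one _,
    FouD_hr hh hM (Real.continuous_sin.comp hc) fun x => Real.abs_sin_le_one _⟩

end Pool.Agent.H82.HF
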