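import Pool.Agent.H82.HF.FouD

/-!
# Module FouI: integration by parts and the decay of the Fourier coefficients

* `int_di`: for `G : Vec d → ℝ` differentiable with continuous partial derivative `G'` in the direction `e_i` (`HasDerivAt (fun τ => G (x + τ • e_i)) (G' x) 0` for every `x`, `G'` continuous) and `Per G` : `∫_{Icc 0 1} G' = 0`.
  Proof: `∫ (G(x+τe_i) - G(x))/τ dx = 0` for `τ ≠ 0` (`Per.integral`, H25/Kin/Per); the quotient is `G'(x+ξe_i)` (mean value), bounded on the compact cube for `|τ| ≤ 1`, and converges to `G'(x)`: dominated convergence. (Or `HasDerivAt` under the integral sign.)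
* `ibp_a`, `ibp_b`: `G(x) = h x v cos(2π k·x)` (periodic because `k` is integral) has the partial derivative `Di i h x v cos(..) - 2π k_i h x v sin(..)`, and `G = h sin` has `Di i h sin + 2π k_i h cos`.
* `fou_dec`: induction on `m`, for all `h` of the class at the same time. `m = 0`: `co_le`. Step: for `k ≠ 0` choose `i` with `|k i| = ‖kv k‖` (sup norm of `Vec d`, `Finset.exists_max_image` / `pi_norm`), then `‖kv k‖ (|aC h k v| + |bC h k v|) = (|bC (Di i h) k v| + |aC (Di i h) k v|)/(2π)`,
  and sum the constants of the `d` functions `Di i h`. For `k = 0` the left side vanishes if `m ≥ 1` (`‖kv 0‖ = 0`).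
-/

set_option autoImplicit false

open MeasureTheory Set Filter Topology Pool.Agent.H25.Kin Pool.Agent.H48.PL Pool.Agent.H48.PD
open Pool.Agent.H82.BK Pool.Agent.H82.CM Pool.Agent.H48.PR

namespace Pool.Agent.H82.HF

variable {d : ℕ}

theorem int_di {G G' : Vec d → ℝ} (hG : Continuous G) (hG' : Continuous G') (i : Fin d)
    (hd : ∀ x, HasDerivAt (fun τ : ℝ => G (x + τ • Pi.single i (1 : ℝ))) (G' x) 0)
    (hp : Per G) : ∫ x in Icc (0 : Vec d) 1, G' x = 0 := by
  have hder : ∀ (x : Vec d) (τ : ℝ),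
      HasDerivAt (fun τ : ℝ => G (x + τ • Pi.single i (1 : ℝ)))
        (G' (x + τ • Pi.single i (1 : ℝ))) τ := by
    intro x τ
    have h0 : HasDerivAt (fun s : ℝ => G (x + τ • Pi.single i (1 : ℝ) + s • Pi.single i (1 : ℝ)))
        (G' (x + τ • Pi.single i (1 : ℝ))) (τ - τ) := by
      rw [sub_self]
      exact hd _
    have h1 := h0.comp_sub_const τ τ
    have h2 : (fun t : ℝ => G (x + τ • Pi.single i (1 : ℝ) + (t - τ) • Pi.single i (1 : ℝ))) =
        fun t : ℝ => G (x + t • Pi.single i (1 : ℝ)) := by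
      funext t
      congr 1
      rw [add_assoc, ← add_smul]
      congr 2
      ring
    rw [h2] at h1
    exact h1
  obtain ⟨C, hC⟩ := (isCompact_closedBall (0 : Vec d) 2).exists_bound_of_continuousOn
    hG'.continuousOn
  have hb : ∀ x ∈ Icc (0 : Vec d) 1, ∀ τ ∈ Metric.ball (0 : ℝ) 1,
      ‖G' (x + τ • Pi.single i (1 : ℝ))‖ ≤ C := by
    intro x hx τ hτ
    refine hC _ ?_
    rw [mem_closedBall_zero_iff]
    rw [mem_ball_zero_iff, Real.norm_eq_abs] at hτ
    refine (norm_add_le _ _).trans ?_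
    have h1 : ‖x‖ ≤ 1 := by
      refine (pi_norm_le_iff_of_nonneg zero_le_one).2 fun j => ?_
      rw [Real.norm_eq_abs, abs_of_nonneg (hx.1 j)]
      exact hx.2 j
    have h2 : ‖τ • (Pi.single i (1 : ℝ) : Vec d)‖ ≤ 1 := by
      rw [norm_smul, Real.norm_eq_abs, Pi.norm_single, norm_one, mul_one]
      exact hτ.le
    linarith
  have hcomp : IsCompact (Icc (0 : Vec d) 1) := isCompact_Icc
  have hm : MeasurableSet (Icc (0 : Vec d) 1) := measurableSet_Icc
  have hfin : IsFiniteMeasure ((volume : Measure (Vec d)).restrict (Icc (0 : Vec d) 1)) :=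
    ⟨by rw [Measure.restrict_apply_univ]; exact hcomp.measure_lt_top⟩
  have hc1 : ∀ τ : ℝ, Continuous fun x : Vec d => G (x + τ • Pi.single i (1 : ℝ)) := fun τ =>
    hG.comp (continuous_id.add continuous_const)
  have hc2 : ∀ τ : ℝ, Continuous fun x : Vec d => G' (x + τ • Pi.single i (1 : ℝ)) := fun τ =>
    hG'.comp (continuous_id.add continuous_const)
  have key := hasDerivAt_integral_of_dominated_loc_of_deriv_le
    (μ := (volume : Measure (Vec d)).restrict (Icc (0 : Vec d) 1))
    (F := fun (τ : ℝ) (x : Vec d) => G (x + τ • Pi.single i (1 : ℝ)))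
    (F' := fun (τ : ℝ) (x : Vec d) => G' (x + τ • Pi.single i (1 : ℝ)))
    (x₀ := (0 : ℝ)) (s := Metric.ball (0 : ℝ) 1) (bound := fun _ => C)
    (Metric.ball_mem_nhds _ one_pos)
    (Eventually.of_forall fun τ => (hc1 τ).aestronglyMeasurable)
    ((hc1 0).continuousOn.integrableOn_compact hcomp)
    ((hc2 0).aestronglyMeasurable)
    ((ae_restrict_mem hm).mono fun x hx τ hτ => hb x hx τ hτ)
    (integrable_const C)
    (Eventually.of_forall fun x τ _ => hder x τ)
  have h1 := key.2
  have h2 : (fun τ : ℝ => ∫ x in Icc (0 : Vec d) 1, G (x + τ • Pi.single i (1 : ℝ))) =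
      fun _ : ℝ => ∫ x in Icc (0 : Vec d) 1, G x := by
    funext τ
    exact hp.integral _
  rw [h2] at h1
  have h3 := h1.unique (hasDerivAt_const (0 : ℝ) (∫ x in Icc (0 : Vec d) 1, G x))
  simpa using h3

private lemma FouI_hd {h : Vec d → Vec d → ℝ} (hh : SchT h) (i : Fin d) (x v : Vec d) :
    HasDerivAt (fun τ : ℝ => h (x + τ • Pi.single i (1 : ℝ)) v) (Di i h x v) 0 := by
  have h1 : DifferentiableAt ℝ (fun p : Vec d × Vec d => h p.1 p.2)
      (x + (0 : ℝ) • Pi.single i (1 : ℝ), v) :=
    ((hh.smooth 1).differentiable (by norm_num)) _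
  have h2 : HasDerivAt (fun τ : ℝ => ((x + τ • Pi.single i (1 : ℝ), v) : Vec d × Vec d))
      (Pi.single i (1 : ℝ), 0) 0 := by
    refine HasDerivAt.prodMk ?_ (hasDerivAt_const _ _)
    have h3 := ((hasDerivAt_id (0 : ℝ)).smul_const (Pi.single i (1 : ℝ) : Vec d)).const_add x
    simpa using h3
  have h3 := h1.hasFDerivAt.comp_hasDerivAt (0 : ℝ) h2
  simp only [zero_smul, add_zero] at h3
  exact h3

private lemma FouI_dot (k : Fin d → ℤ) (x : Vec d) (i : Fin d) (τ : ℝ) :
    dot (kv k) (x + τ • Pi.single i (1 : ℝ)) = dot (kv k) x + k i * τ := by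
  unfold dot kv
  have h1 : ∀ j, (k j : ℝ) * (x + τ • Pi.single i (1 : ℝ) : Vec d) j =
      k j * x j + (if j = i then (k i : ℝ) * τ else 0) := by
    intro j
    by_cases hj : j = i
    · subst hj
      simp [mul_add]
    · simp [hj]
  rw [Finset.sum_congr rfl fun j _ => h1 j, Finset.sum_add_distrib]
  simp

private lemma FouI_dotc (k : Fin d → ℤ) : Continuous fun x : Vec d => dot (kv k) x := by
  unfold dot
  fun_prop

private lemma FouI_dot1 (k : Fin d → ℤ) (x : Vec d) (i : Fin d) :
    2 * Real.pi * dot (kv k) (x + Pi.single i 1) =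
      2 * Real.pi * dot (kv k) x + (k i : ℝ) * (2 * Real.pi) := by
  have h := FouI_dot k x i 1
  rw [one_smul, mul_one] at h
  rw [h]
  ring

private lemma FouI_ang (k : Fin d → ℤ) (x : Vec d) (i : Fin d) :
    HasDerivAt (fun τ : ℝ => 2 * Real.pi * dot (kv k) (x + τ • Pi.single i (1 : ℝ)))
      (2 * Real.pi * k i) 0 := by
  have h1 : (fun τ : ℝ => 2 * Real.pi * dot (kv k) (x + τ • Pi.single i (1 : ℝ))) =
      fun τ : ℝ => 2 * Real.pi * (dot (kv k) x + k i * τ) := by
    funext τ
    rw [FouI_dot]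
  rw [h1]
  have h2 := (((hasDerivAt_id (0 : ℝ)).const_mul (k i : ℝ)).const_add (dot (kv k) x)).const_mul
    (2 * Real.pi)
  simpa using h2

theorem ibp_a {h : Vec d → Vec d → ℝ} (hh : SchT h) (i : Fin d) (k : Fin d → ℤ) (v : Vec d) :
    aC (Di i h) k v = 2 * Real.pi * k i * bC h k v := by
  have hc : Continuous fun x : Vec d => h x v := (sch_cont hh).comp (Continuous.prodMk_left v)
  have hc' : Continuous fun x : Vec d => Di i h x v :=
    (sch_cont (sch_di hh i)).comp (Continuous.prodMk_left v)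
  have hcos : Continuous fun x : Vec d => Real.cos (2 * Real.pi * dot (kv k) x) :=
    Real.continuous_cos.comp (continuous_const.mul (FouI_dotc k))
  have hsin : Continuous fun x : Vec d => Real.sin (2 * Real.pi * dot (kv k) x) :=
    Real.continuous_sin.comp (continuous_const.mul (FouI_dotc k))
  have h1 := int_di (G := fun x => h x v * Real.cos (2 * Real.pi * dot (kv k) x))
    (G' := fun x => Di i h x v * Real.cos (2 * Real.pi * dot (kv k) x) -
      2 * Real.pi * k i * (h x v * Real.sin (2 * Real.pi * dot (kv k) x)))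
    (hc.mul hcos) ((hc'.mul hcos).sub (continuous_const.mul (hc.mul hsin))) i
    (fun x => by
      have h2 := (FouI_hd hh i x v).mul (FouI_ang k x i).cos
      simp only [zero_smul, add_zero] at h2
      refine h2.congr_deriv ?_
      ring)
    (fun x j => by
      beta_reduce
      rw [hh.per, FouI_dot1, Real.cos_add_int_mul_two_pi])
  have hI1 : IntegrableOn (fun x => Di i h x v * Real.cos (2 * Real.pi * dot (kv k) x))
      (Icc (0 : Vec d) 1) := (hc'.mul hcos).continuousOn.integrableOn_compact isCompact_Icc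
  have hI2 : IntegrableOn (fun x => 2 * Real.pi * k i *
      (h x v * Real.sin (2 * Real.pi * dot (kv k) x))) (Icc (0 : Vec d) 1) :=
    (continuous_const.mul (hc.mul hsin)).continuousOn.integrableOn_compact isCompact_Icc
  rw [integral_sub hI1 hI2, integral_const_mul] at h1
  unfold aC bC
  linarith

theorem ibp_b {h : Vec d → Vec d → ℝ} (hh : SchT h) (i : Fin d) (k : Fin d → ℤ) (v : Vec d) :
    bC (Di i h) k v = -(2 * Real.pi * k i * aC h k v) := by
  have hc : Continuous fun x : Vec d => h x v := (sch_cont hh).comp (Continuous.prodMk_left v)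
  have hc' : Continuous fun x : Vec d => Di i h x v :=
    (sch_cont (sch_di hh i)).comp (Continuous.prodMk_left v)
  have hcos : Continuous fun x : Vec d => Real.cos (2 * Real.pi * dot (kv k) x) :=
    Real.continuous_cos.comp (continuous_const.mul (FouI_dotc k))
  have hsin : Continuous fun x : Vec d => Real.sin (2 * Real.pi * dot (kv k) x) :=
    Real.continuous_sin.comp (continuous_const.mul (FouI_dotc k))
  have h1 := int_di (G := fun x => h x v * Real.sin (2 * Real.pi * dot (kv k) x))
    (G' := fun x => Di i h x v * Real.sin (2 * Real.pi * dot (kv k) x) +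
      2 * Real.pi * k i * (h x v * Real.cos (2 * Real.pi * dot (kv k) x)))
    (hc.mul hsin) ((hc'.mul hsin).add (continuous_const.mul (hc.mul hcos))) i
    (fun x => by
      have h2 := (FouI_hd hh i x v).mul (FouI_ang k x i).sin
      simp only [zero_smul, add_zero] at h2
      refine h2.congr_deriv ?_
      ring)
    (fun x j => by
      beta_reduce
      rw [hh.per, FouI_dot1, Real.sin_add_int_mul_two_pi])
  have hI1 : IntegrableOn (fun x => Di i h x v * Real.sin (2 * Real.pi * dot (kv k) x))
      (Icc (0 : Vec d) 1) := (hc'.mul hsin).continuousOn.integrableOn_compact isCompact_Icc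
  have hI2 : IntegrableOn (fun x => 2 * Real.pi * k i *
      (h x v * Real.cos (2 * Real.pi * dot (kv k) x))) (Icc (0 : Vec d) 1) :=
    (continuous_const.mul (hc.mul hcos)).continuousOn.integrableOn_compact isCompact_Icc
  rw [integral_add hI1 hI2, integral_const_mul] at h1
  unfold aC bC
  linarith

theorem fou_dec {h : Vec d → Vec d → ℝ} (hh : SchT h) (m N : ℕ) :
    ∃ C : ℝ, 0 ≤ C ∧ ∀ k v, ‖kv k‖ ^ m * ((1 + ‖v‖) ^ N * (|aC h k v| + |bC h k v|)) ≤ C := by
  induction m generalizing h with
  | zero =>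
    obtain ⟨C, hC0, hC⟩ := co_le hh N
    refine ⟨C, hC0, fun k v => ?_⟩
    rw [pow_zero, one_mul]
    exact hC k v
  | succ m ih =>
    choose C hC0 hC using fun i : Fin d => ih (sch_di hh i)
    refine ⟨∑ i, C i, Finset.sum_nonneg fun i _ => hC0 i, fun k v => ?_⟩
    rcases eq_or_ne (kv k) 0 with h0 | h0
    · rw [h0, norm_zero, zero_pow (Nat.succ_ne_zero m), zero_mul]
      exact Finset.sum_nonneg fun i _ => hC0 i
    · have hpos : 0 < ‖kv k‖ := norm_pos_iff.2 h0
      obtain ⟨i, hi⟩ : ∃ i, ‖kv k i‖ = ‖kv k‖ := by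
        by_contra hcon
        push Not at hcon
        have h1 : ‖kv k‖ < ‖kv k‖ := (pi_norm_lt_iff hpos).2 fun i =>
          lt_of_le_of_ne (norm_le_pi_norm _ i) (hcon i)
        exact lt_irrefl _ h1
      have hki : ‖kv k‖ = |(k i : ℝ)| := by
        rw [← hi, Real.norm_eq_abs]
        rfl
      have ea : ‖kv k‖ * |bC h k v| ≤ |aC (Di i h) k v| := by
        rw [ibp_a hh i k v, abs_mul, abs_mul, hki, abs_of_pos Real.two_pi_pos]
        have h2 : 1 ≤ 2 * Real.pi := by
          have := Real.pi_gt_three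
          linarith
        have h3 : 0 ≤ |(k i : ℝ)| * |bC h k v| := by positivity
        nlinarith
      have eb : ‖kv k‖ * |aC h k v| ≤ |bC (Di i h) k v| := by
        rw [ibp_b hh i k v, abs_neg, abs_mul, abs_mul, hki, abs_of_pos Real.two_pi_pos]
        have h2 : 1 ≤ 2 * Real.pi := by
          have := Real.pi_gt_three
          linarith
        have h3 : 0 ≤ |(k i : ℝ)| * |aC h k v| := by positivity
        nlinarith
      have h4 : ‖kv k‖ ^ (m + 1) * ((1 + ‖v‖) ^ N * (|aC h k v| + |bC h k v|)) =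
          ‖kv k‖ ^ m * ((1 + ‖v‖) ^ N * (‖kv k‖ * |aC h k v| + ‖kv k‖ * |bC h k v|)) := by
        ring
      rw [h4]
      have h5 : ‖kv k‖ ^ m * ((1 + ‖v‖) ^ N * (‖kv k‖ * |aC h k v| + ‖kv k‖ * |bC h k v|)) ≤
          ‖kv k‖ ^ m * ((1 + ‖v‖) ^ N * (|aC (Di i h) k v| + |bC (Di i h) k v|)) := by
        refine mul_le_mul_of_nonneg_left (mul_le_mul_of_nonneg_left ?_ (by positivity))
          (by positivity)
        linarith
      exact (h5.trans (hC i k v)).trans
        (Finset.single_le_sum (f := C) (fun i _ => hC0 i) (Finset.mem_univ i))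

end Pool.Agent.H82.HF
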