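import Pool.Agent.H82.HF.FouI

/-!
# Module FouS: the Fourier series

Mathlib: `UnitAddTorus.hasSum_mFourier_series_apply_of_summable` (Analysis/Fourier/AddCircleMulti) with the index type `Fin d`.
* The function `x ↦ (h x v : ℂ)` is periodic, hence descends to a continuous function `g` on `UnitAddTorus (Fin d)` : `g y = h (fun i => the representative in [0,1) of y i) v`; continuity: the map `Vec d → UnitAddTorus (Fin d)` is an open quotient map (`QuotientAddGroup.isOpenQuotientMap_mk` in each
  coordinate, `IsOpenQuotientMap.piMap`), and `h · v` is constant on the fibres (integer vectors: `Per.span` of H25/Kin/Per, or induction). Then `g (fun i => (x i : UnitAddCircle)) = h x v`.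
* `mFourier k (↑x) = exp(2πi k·x)` (`UnitAddTorus.mFourier`, `fourier_coe_apply`, product of exponentials; see `mf_eq` in H37/HK/PoisB.lean). `mFourierCoeff_eq_integral` with `a = 0`: the coefficient is `∫ exp(-2πi k·x) h x v` over the half open cube, which is a.e. equal to `Icc 0 1` (`Icc_ae`-type lemma):
  `= aC h k v - i bC h k v`.
* Summable: norm `≤ |aC| + |bC| ≤ C (1+‖kv k‖)^(-(d+2))` by `fou_dec` (`m = 0` and `m = d+2`), summable over `Fin d → ℤ` (`sum_kv` below).
* real part of the term: `Re ((aC - i bC) (cos θ + i sin θ)) = aC cos θ + bC sin θ`, `θ = 2π k·x` (`Complex.hasSum_re` or `HasSum.mapL`/`Complex.reCLM.hasSum`).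
* `sum_kv`: `Σ_{k ∈ ℤ^d} (1+‖kv k‖)^(-(d+2)) < ∞`: `(1+‖kv k‖)^(-(d+2))`: for instance `ZLattice.summable_norm_pow`-type theorems (Algebra/Module/ZLattice/Summable), or comparison with the integral, or count the points in the shells `‖kv k‖ = n` (at most `(2n+1)^d`).
  If a larger exponent is convenient: the exponent in `sum_kv` is `2*d+4`, `(1+‖kv k‖)^(-(2d+4)) ≤ Π_i (1+|k i|)^(-2)` and the product is summable (product of summable families over `Fin d`, induction with `Fin.consEquiv`/`Fin.cons`, or `summable` of `Finset.prod`-type lemmas).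
-/

set_option autoImplicit false

open MeasureTheory Set Filter Topology Pool.Agent.H25.Kin Pool.Agent.H48.PL Pool.Agent.H48.PD
open Pool.Agent.H82.BK Pool.Agent.H82.CM Pool.Agent.H48.PR

namespace Pool.Agent.H82.HF

variable {d : ℕ}

private lemma one_sum : Summable fun n : ℤ => ((1 + |(n : ℝ)|) ^ 2)⁻¹ := by
  have h1 : Summable fun n : ℕ => ((1 + |((n : ℤ) : ℝ)|) ^ 2)⁻¹ := by
    have h := (summable_nat_add_iff 1).2 (Real.summable_one_div_nat_pow.2 (le_refl 2))
    refine h.congr fun n => ?_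
    have : |((n : ℤ) : ℝ)| = (n : ℝ) := by
      rw [Int.cast_natCast]; exact abs_of_nonneg (Nat.cast_nonneg n)
    rw [this, one_div]
    push_cast
    rw [add_comm]
  refine Summable.of_nat_of_neg h1 ?_
  refine h1.congr fun n => ?_
  rw [Int.cast_neg, abs_neg]

theorem sum_kv (d : ℕ) : Summable fun k : Fin d → ℤ => ((1 + ‖kv k‖) ^ (2 * d + 4))⁻¹ := by
  have hg := one_sum
  set g : ℤ → ℝ := fun n => ((1 + |(n : ℝ)|) ^ 2)⁻¹ with hgdef
  have hgpos : ∀ x, 0 ≤ g x := fun x => by simp only [hgdef]; positivity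
  have hle : ∀ k : Fin d → ℤ, ((1 + ‖kv k‖) ^ (2 * d + 4))⁻¹ ≤ ∏ j, g (k j) := by
    intro k
    have h0 : 1 ≤ 1 + ‖kv k‖ := by linarith [norm_nonneg (kv k)]
    have h1 : ∏ j, (1 + |(k j : ℝ)|) ^ 2 ≤ (1 + ‖kv k‖) ^ (2 * d + 4) := by
      calc ∏ j, (1 + |(k j : ℝ)|) ^ 2 ≤ ∏ _j : Fin d, (1 + ‖kv k‖) ^ 2 := by
            refine Finset.prod_le_prod (fun j _ => by positivity) fun j _ => ?_
            have : |(k j : ℝ)| ≤ ‖kv k‖ := by
              have := norm_le_pi_norm (kv k) j
              rwa [Real.norm_eq_abs] at this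
            gcongr
        _ = (1 + ‖kv k‖) ^ (2 * d) := by
            rw [Finset.prod_const, Finset.card_univ, Fintype.card_fin, ← pow_mul]
        _ ≤ (1 + ‖kv k‖) ^ (2 * d + 4) := pow_le_pow_right₀ h0 (by omega)
    have h2 : ∏ j, g (k j) = (∏ j, (1 + |(k j : ℝ)|) ^ 2)⁻¹ := by
      rw [← Finset.prod_inv_distrib]
    rw [h2]
    exact inv_anti₀ (Finset.prod_pos fun j _ => by positivity) h1
  refine summable_of_sum_le (c := ∏ _j : Fin d, ∑' x, g x) (fun m => by positivity) ?_
  intro u
  calc ∑ m ∈ u, ((1 + ‖kv m‖) ^ (2 * d + 4))⁻¹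
      ≤ ∑ m ∈ u, ∏ j, g (m j) := Finset.sum_le_sum (fun m _ => hle m)
    _ ≤ ∑ m ∈ Fintype.piFinset (fun j => u.image (fun m : Fin d → ℤ => m j)), ∏ j, g (m j) := by
        apply Finset.sum_le_sum_of_subset_of_nonneg
        · intro m hm
          rw [Fintype.mem_piFinset]
          intro j
          exact Finset.mem_image_of_mem _ hm
        · intro m _ _
          exact Finset.prod_nonneg (fun j _ => hgpos _)
    _ = ∏ j, ∑ x ∈ u.image (fun m : Fin d → ℤ => m j), g x := by
        rw [Finset.prod_univ_sum]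
    _ ≤ ∏ _j : Fin d, ∑' x, g x := by
        apply Finset.prod_le_prod
        · intro j _
          exact Finset.sum_nonneg (fun x _ => hgpos x)
        · intro j _
          exact hg.sum_le_tsum _ (fun x _ => hgpos x)

private lemma per_int {G : Vec d → ℝ} (hG : Per G) (n : Fin d → ℤ) (x : Vec d) :
    G (x + kv n) = G x := by
  have h := Per.span hG (l := kv n) ?_ x
  · rw [add_comm]; exact h
  · have : kv n = ∑ i, n i • (Pi.basisFun ℝ (Fin d)) i := by
      funext j
      simp [kv, Finset.sum_apply, Pi.single_apply]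
    rw [this]
    exact Submodule.sum_mem _ fun i _ =>
      Submodule.smul_mem _ _ (Submodule.subset_span (Set.mem_range_self i))

private lemma fs_descend {G : Vec d → ℝ} (hG : Per G) (hc : Continuous G) :
    ∃ g : C(UnitAddTorus (Fin d), ℂ), ∀ x : Vec d,
      g (fun j => (x j : UnitAddCircle)) = (G x : ℂ) := by
  set π : Vec d → UnitAddTorus (Fin d) := fun x j => (x j : UnitAddCircle) with hπ
  have hq : IsOpenQuotientMap π := by
    have : IsOpenQuotientMap (Pi.map (fun (_ : Fin d) (t : ℝ) => (t : UnitAddCircle))) :=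
      IsOpenQuotientMap.piMap (fun _ => QuotientAddGroup.isOpenQuotientMap_mk)
    exact this
  have hinv : ∀ x y : Vec d, π x = π y → G x = G y := by
    intro x y hxy
    have h1 : ∀ j, ∃ n : ℤ, y j = x j + n := by
      intro j
      have h2 : ((x j : ℝ) : UnitAddCircle) = ((y j : ℝ) : UnitAddCircle) := congrFun hxy j
      rw [QuotientAddGroup.eq] at h2
      obtain ⟨n, hn⟩ := AddSubgroup.mem_zmultiples_iff.mp h2
      refine ⟨n, ?_⟩
      simp only [zsmul_eq_mul, mul_one] at hn
      linarith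
    choose n hn using h1
    have h3 : y = x + kv n := by
      funext j
      exact hn j
    rw [h3, per_int hG]
  refine ⟨⟨fun t => (G (Function.surjInv hq.surjective t) : ℂ), ?_⟩, fun x => ?_⟩
  · rw [hq.isQuotientMap.continuous_iff]
    have : (fun t => (G (Function.surjInv hq.surjective t) : ℂ)) ∘ π = fun x => (G x : ℂ) := by
      funext x
      exact congrArg _ (hinv _ _ (Function.surjInv_eq hq.surjective (π x)))
    rw [this]
    exact Complex.continuous_ofReal.comp hc
  · exact congrArg (fun r : ℝ => (r : ℂ)) (hinv _ _ (Function.surjInv_eq hq.surjective (π x)))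

private lemma mf_pos (k : Fin d → ℤ) (x : Vec d) :
    UnitAddTorus.mFourier k (fun i => (x i : UnitAddCircle)) =
      Complex.exp (((2 * Real.pi * dot (kv k) x : ℝ) : ℂ) * Complex.I) := by
  simp only [UnitAddTorus.mFourier, ContinuousMap.coe_mk]
  have : ∀ i, fourier (k i) (x i : UnitAddCircle) =
      Complex.exp (((2 * Real.pi * ((k i : ℝ) * x i) : ℝ) : ℂ) * Complex.I) := by
    intro i
    rw [fourier_coe_apply]
    congr 1
    push_cast
    ring
  simp_rw [this]
  rw [← Complex.exp_sum]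
  congr 1
  rw [← Finset.sum_mul]
  congr 1
  simp only [dot, kv]
  rw [← Complex.ofReal_sum, ← Finset.mul_sum]

private lemma mf_re (k : Fin d → ℤ) (x : Vec d) :
    UnitAddTorus.mFourier k (fun i => (x i : UnitAddCircle)) =
      (Real.cos (2 * Real.pi * dot (kv k) x) : ℂ) +
        (Real.sin (2 * Real.pi * dot (kv k) x) : ℂ) * Complex.I := by
  rw [mf_pos, Complex.exp_mul_I, Complex.ofReal_cos, Complex.ofReal_sin]

private lemma mf_neg (k : Fin d → ℤ) (x : Vec d) :
    UnitAddTorus.mFourier (-k) (fun i => (x i : UnitAddCircle)) =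
      (Real.cos (2 * Real.pi * dot (kv k) x) : ℂ) -
        (Real.sin (2 * Real.pi * dot (kv k) x) : ℂ) * Complex.I := by
  rw [mf_re]
  have : dot (kv (-k)) x = - dot (kv k) x := by
    simp [dot, kv, Finset.sum_neg_distrib]
  rw [this, mul_neg, Real.cos_neg, Real.sin_neg]
  push_cast
  ring

private lemma box_ae : ({x : Vec d | ∀ i, x i ∈ Set.Ioc ((0 : Vec d) i) ((0 : Vec d) i + 1)}) =ᵐ[volume]
    Icc (0 : Vec d) 1 := by
  have h := Measure.univ_pi_Ioc_ae_eq_Icc (μ := fun _ : Fin d => (volume : Measure ℝ))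
    (f := (0 : Fin d → ℝ)) (g := 1)
  have e : {x : Vec d | ∀ i, x i ∈ Set.Ioc ((0 : Vec d) i) ((0 : Vec d) i + 1)} =
      Set.univ.pi fun i => Set.Ioc ((0 : Fin d → ℝ) i) ((1 : Fin d → ℝ) i) := by
    ext x
    simp
  rw [e]
  exact h

private lemma fco_eq {h : Vec d → Vec d → ℝ} (hh : SchT h) (v : Vec d)
    {g : C(UnitAddTorus (Fin d), ℂ)}
    (hg : ∀ x : Vec d, g (fun j => (x j : UnitAddCircle)) = (h x v : ℂ)) (k : Fin d → ℤ) :
    UnitAddTorus.mFourierCoeff g k = (aC h k v : ℂ) - (bC h k v : ℂ) * Complex.I := by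
  have hc : Continuous fun x : Vec d => h x v :=
    (sch_cont hh).comp (by fun_prop : Continuous fun x : Vec d => (x, v))
  have hdot : Continuous fun x : Vec d => dot (kv k) x := by
    unfold dot
    fun_prop
  have i1 : IntegrableOn (fun x : Vec d => h x v * Real.cos (2 * Real.pi * dot (kv k) x))
      (Icc (0 : Vec d) 1) :=
    (hc.mul (Real.continuous_cos.comp (continuous_const.mul hdot))).continuousOn.integrableOn_compact
      isCompact_Icc
  have i2 : IntegrableOn (fun x : Vec d => h x v * Real.sin (2 * Real.pi * dot (kv k) x))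
      (Icc (0 : Vec d) 1) :=
    (hc.mul (Real.continuous_sin.comp (continuous_const.mul hdot))).continuousOn.integrableOn_compact
      isCompact_Icc
  rw [UnitAddTorus.mFourierCoeff_eq_integral g k 0, setIntegral_congr_set box_ae]
  have e1 : ∀ x : Vec d, UnitAddTorus.mFourier (-k) (fun i => (x i : UnitAddCircle)) •
      g (fun i => (x i : UnitAddCircle)) =
      ((h x v * Real.cos (2 * Real.pi * dot (kv k) x) : ℝ) : ℂ) -
        ((h x v * Real.sin (2 * Real.pi * dot (kv k) x) : ℝ) : ℂ) * Complex.I := by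
    intro x
    rw [hg x, mf_neg, smul_eq_mul]
    push_cast
    ring
  simp_rw [e1]
  rw [integral_sub i1.ofReal (i2.ofReal.mul_const _), integral_mul_const, integral_complex_ofReal,
    integral_complex_ofReal]
  rfl

theorem fou_sum {h : Vec d → Vec d → ℝ} (hh : SchT h) (x v : Vec d) :
    HasSum (fun k : Fin d → ℤ => aC h k v * Real.cos (2 * Real.pi * dot (kv k) x) +
      bC h k v * Real.sin (2 * Real.pi * dot (kv k) x)) (h x v) := by
  have hc : Continuous fun x : Vec d => h x v :=
    (sch_cont hh).comp (by fun_prop : Continuous fun x : Vec d => (x, v))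
  obtain ⟨g, hg⟩ := fs_descend (G := fun x => h x v) (fun x i => hh.per x v i) hc
  have hco := fco_eq hh v hg
  -- summability
  have hs : Summable (UnitAddTorus.mFourierCoeff g) := by
    obtain ⟨C0, hC0, h0⟩ := fou_dec hh 0 0
    obtain ⟨C1, hC1, h1⟩ := fou_dec hh (2 * d + 4) 0
    have hb : ∀ k : Fin d → ℤ, ‖UnitAddTorus.mFourierCoeff g k‖ ≤
        (2 ^ (2 * d + 4) * (C0 + C1)) * ((1 + ‖kv k‖) ^ (2 * d + 4))⁻¹ := by
      intro k
      have hn : ‖UnitAddTorus.mFourierCoeff g k‖ ≤ |aC h k v| + |bC h k v| := by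
        rw [hco k]
        refine (norm_sub_le _ _).trans ?_
        rw [norm_mul, Complex.norm_I, mul_one, Complex.norm_real, Complex.norm_real,
          Real.norm_eq_abs, Real.norm_eq_abs]
      refine hn.trans ?_
      have hp : 0 < (1 + ‖kv k‖) ^ (2 * d + 4) := by positivity
      rw [← div_eq_mul_inv, le_div_iff₀ hp]
      have e0 := h0 k v
      have e1 := h1 k v
      simp only [pow_zero, one_mul] at e0 e1
      set s := |aC h k v| + |bC h k v| with hs
      have hs0 : 0 ≤ s := by positivity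
      have hy : (1 + ‖kv k‖) ^ (2 * d + 4) ≤ 2 ^ (2 * d + 4) * (1 + ‖kv k‖ ^ (2 * d + 4)) := by
        rcases le_total ‖kv k‖ 1 with h | h
        · calc (1 + ‖kv k‖) ^ (2 * d + 4) ≤ (2 : ℝ) ^ (2 * d + 4) := by
                gcongr; linarith
            _ ≤ 2 ^ (2 * d + 4) * (1 + ‖kv k‖ ^ (2 * d + 4)) := by
                have : (0 : ℝ) ≤ ‖kv k‖ ^ (2 * d + 4) := by positivity
                nlinarith [pow_pos (two_pos : (0 : ℝ) < 2) (2 * d + 4)]
        · calc (1 + ‖kv k‖) ^ (2 * d + 4) ≤ (2 * ‖kv k‖) ^ (2 * d + 4) := by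
                gcongr; linarith
            _ = 2 ^ (2 * d + 4) * ‖kv k‖ ^ (2 * d + 4) := mul_pow _ _ _
            _ ≤ 2 ^ (2 * d + 4) * (1 + ‖kv k‖ ^ (2 * d + 4)) := by
                gcongr; linarith
      calc s * (1 + ‖kv k‖) ^ (2 * d + 4) ≤ s * (2 ^ (2 * d + 4) * (1 + ‖kv k‖ ^ (2 * d + 4))) := by
            gcongr
        _ = 2 ^ (2 * d + 4) * (s + ‖kv k‖ ^ (2 * d + 4) * s) := by ring
        _ ≤ 2 ^ (2 * d + 4) * (C0 + C1) := by gcongr
    exact Summable.of_norm_bounded ((sum_kv d).mul_left _) hb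
  have H := UnitAddTorus.hasSum_mFourier_series_apply_of_summable hs
    (fun j => (x j : UnitAddCircle))
  rw [hg x] at H
  have H2 := Complex.hasSum_re H
  rw [Complex.ofReal_re] at H2
  refine H2.congr_fun fun k => ?_
  rw [hco k, mf_re, smul_eq_mul]
  simp only [Complex.mul_re, Complex.sub_re, Complex.sub_im, Complex.add_re, Complex.add_im,
    Complex.ofReal_re, Complex.ofReal_im, Complex.mul_im, Complex.I_re, Complex.I_im]
  ring

end Pool.Agent.H82.HF
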