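import Pool.Agent.H82.HF.Lay
import Pool.Agent.H82.HF.Cls
import Pool.Agent.H48.PI.Shift

/-!
# Module Hit: dilute Schwartz data reach a neighbourhood of the homogeneous profile

`f(0) = ε h`, `g = ε⁻¹ f` is a solution with the kernel `ε b` (`amp_sol`), `g(0) = h`. `cls` (class `α = 1 > 2s`), `layer` on `[0, min(T, 2 t₂))`, `t₂ = θ/(2ε)`: `ε (2 t₂) = θ` and `X = ε t₂^(1+2s) = (θ/2)^(1+2s) ε^(-2s) → ∞`.
-/

set_option autoImplicit false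

open MeasureTheory Set Filter Topology Pool.Agent.H25.Kin Pool.Agent.H48.PL Pool.Agent.H48.PD
open Pool.Agent.H82.BK Pool.Agent.H82.CM Pool.Agent.H48.PR

namespace Pool.Agent.H82.HF

variable {d : ℕ} {γ s : ℝ} {b : ℝ → ℝ}

/-- the time `θ/(2ε)` is long enough -/
private lemma hit_time {s θ c : ℝ} (hs : 0 < s) (hθ : 0 < θ) (hc : 0 ≤ c) : ∃ ε₀ : ℝ, 0 < ε₀ ∧
    ε₀ ≤ 1 ∧ ∀ ε : ℝ, 0 < ε → ε ≤ ε₀ → c / (1 + ε * (θ / (2 * ε)) ^ (1 + 2 * s)) ≤ 1 := by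
  have h2s : 0 < 2 * s := by linarith
  have hp : 0 < (θ / 2) ^ (1 + 2 * s) := Real.rpow_pos_of_pos (by linarith) _
  obtain ⟨r, hr⟩ : ∃ r : ℝ, r = (θ / 2) ^ (1 + 2 * s) / (c + 1) := ⟨_, rfl⟩
  have hr0 : 0 < r := by rw [hr]; positivity
  have hr1 : 0 < r ^ (2 * s)⁻¹ := Real.rpow_pos_of_pos hr0 _
  refine ⟨min 1 (r ^ (2 * s)⁻¹), lt_min one_pos hr1, min_le_left _ _, fun ε hε hε1 => ?_⟩
  have h3 : ε ^ (2 * s) ≤ r := by
    have h4 : ε ^ (2 * s) ≤ (r ^ (2 * s)⁻¹) ^ (2 * s) :=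
      Real.rpow_le_rpow hε.le (hε1.trans (min_le_right _ _)) h2s.le
    rwa [← Real.rpow_mul hr0.le, inv_mul_cancel₀ h2s.ne', Real.rpow_one] at h4
  have h5 : 0 < ε ^ (2 * s) := Real.rpow_pos_of_pos hε _
  have h6 : ε * (θ / (2 * ε)) ^ (1 + 2 * s) = (θ / 2) ^ (1 + 2 * s) / ε ^ (2 * s) := by
    have e1 : θ / (2 * ε) = θ / 2 / ε := by field_simp
    rw [e1, Real.div_rpow (by linarith) hε.le, Real.rpow_add hε, Real.rpow_one]
    have h7 : ε ≠ 0 := hε.ne'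
    have h8 : ε ^ (2 * s) ≠ 0 := h5.ne'
    field_simp
  rw [h6]
  have h9 : c + 1 ≤ (θ / 2) ^ (1 + 2 * s) / ε ^ (2 * s) := by
    rw [le_div_iff₀ h5]
    calc (c + 1) * ε ^ (2 * s) ≤ (c + 1) * r := mul_le_mul_of_nonneg_left h3 (by linarith)
      _ = (θ / 2) ^ (1 + 2 * s) := by
          rw [hr]
          field_simp
  rw [div_le_one (by linarith)]
  linarith

/-- dilute data reach a neighbourhood of the homogeneous profile; decay up to that time, with constants which do not depend on `η` -/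
theorem dil_hit (hd : 2 ≤ d) (hs0 : 0 < s) (h0 : 0 ≤ γ) (hs : 2 * s < 1) (h2 : γ + 2 * s ≤ 2)
    (hb : IsKernel d s b) {h : Vec d → Vec d → ℝ} (hh : SchT h) (hh0 : ∀ x v, 0 ≤ h x v)
    (hne : ∃ x v, 0 < h x v) : ∃ U : ℕ → ℝ, ∀ η : ℝ, 0 < η → ∃ ε₀ : ℝ, 0 < ε₀ ∧ ε₀ ≤ 1 ∧
    ∀ ε : ℝ, 0 < ε → ε ≤ ε₀ → ∃ t₂ : ℝ, 0 < t₂ ∧ ∀ (T : ℝ) (f : ℝ → Vec d → Vec d → ℝ),
      IsBoltzmannSol γ b T f → (∀ x v, f 0 x v = ε * h x v) →
      (∀ t ∈ Ico 0 T, t ≤ t₂ → ∀ N x v, (1 + ‖v‖) ^ N * f t x v ≤ ε * U N) ∧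
      (t₂ < T → ∀ x v, |f t₂ x v - ε * avT h v| ≤ ε * η * Wp (d + 10) v) := by
  have hs1 : s < 1 := by linarith
  obtain ⟨C, Ca, cb, HL⟩ := exists_hypL (γ := γ) hd hs0 hs1 (by linarith) h2 hb
  obtain ⟨MF, hMF, hF⟩ := avT_hr hh (2 * d + 22)
  obtain ⟨x₀, v₀, hxv⟩ := hne
  have hFm : 0 < ∫ v, avT h v := avT_pos hh hh0 hxv
  have hF0 : ∀ v, 0 ≤ avT h v := fun v => avT_nn hh0 v
  obtain ⟨Kst, hKst, hlay⟩ := layer HL hb h0 hs (α := 1) hs le_rfl hF hF0 hFm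
  obtain ⟨A, hA, hcls⟩ := cls (by omega : 1 ≤ d) hs0.le hs1.le hh
  choose B hB0 hB using sch_bd hh
  have hE := Real.exp_pos (Kst * A)
  -- the layer lemma for a given accuracy
  have hstep : ∀ η : ℝ, 0 < η → ∃ θ : ℝ, 0 < θ ∧ ∃ U : ℕ → ℝ, ∀ ε : ℝ, 0 < ε → ε ≤ 1 →
      ∀ (T : ℝ), ε * T ≤ θ → ∀ (f : ℝ → Vec d → Vec d → ℝ), IsBoltzmannSol γ b T f →
      (∀ x v, f 0 x v = ε * h x v) → ∀ t ∈ Ico 0 T, ∀ x v,
      |ε⁻¹ * f t x v - avT h v| ≤ (η / 2 + Kst * A / (1 + ε * t ^ (1 + 2 * s))) * Wp (d + 10) v ∧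
      ∀ N, (1 + ‖v‖) ^ N * f t x v ≤ ε * U N := by
    intro η hη
    obtain ⟨ι, hι⟩ : ∃ ι : ℝ, ι = min 1 (η / 2) / (2 * Real.exp (Kst * A)) := ⟨_, rfl⟩
    have hmin : 0 < min 1 (η / 2) := lt_min one_pos (by linarith)
    have hι0 : 0 < ι := by rw [hι]; positivity
    have hιE : 2 * Real.exp (Kst * A) * ι = min 1 (η / 2) := by
      rw [hι]
      field_simp
    obtain ⟨n, M, a, cc, k, φ, hfam, hs1a, hs2a, happ⟩ := hcls ι hι0
    have hexp : 2 * Real.exp (Kst * ∑ j, a j * len (k j) ^ (2 * s)) * ι ≤ min 1 (η / 2) := by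
      rw [← hιE]
      have h3 : Real.exp (Kst * ∑ j, a j * len (k j) ^ (2 * s)) ≤ Real.exp (Kst * A) :=
        Real.exp_le_exp.2 (mul_le_mul_of_nonneg_left hs2a hKst)
      have h4 := mul_le_mul_of_nonneg_right h3 hι0.le
      linarith
    obtain ⟨θ, hθ, U, hU⟩ := hlay n M a cc k φ hfam B ι hι0 (hexp.trans (min_le_left _ _))
    refine ⟨θ, hθ, U, fun ε hε hε1 T hT f hf hf0 t ht x v => ?_⟩
    have hg := Pool.Agent.H85.DG.amp_sol hd hs0 hs1 (by linarith) h2 hb hε hf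
    have hi0 : ∀ x v, ε⁻¹ * f 0 x v = h x v := by
      intro x v
      rw [hf0 x v, ← mul_assoc, inv_mul_cancel₀ hε.ne', one_mul]
    have hmain := hU ε hε hε1 _ hT _ hg (fun N x v => by
        show (1 + ‖v‖) ^ N * (ε⁻¹ * f 0 x v) ≤ B N
        rw [hi0 x v]
        exact (mul_le_mul_of_nonneg_left (le_abs_self _) (by positivity)).trans (hB N x v))
      (fun x v => by
        show |ε⁻¹ * f 0 x v - _| ≤ _
        rw [hi0 x v]
        exact happ x v) t ht x v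
    have hW := Wp_pos (d + 10) v
    have hX : 0 < 1 + ε * t ^ (1 + 2 * s) := by
      have := Real.rpow_nonneg ht.1 (1 + 2 * s)
      positivity
    refine ⟨?_, fun N => ?_⟩
    · have h4 : |ε⁻¹ * f t x v - avT h v| ≤
          (2 * Real.exp (Kst * ∑ j, a j * len (k j) ^ (2 * s)) * ι +
            Kst * (∑ j, a j) / (1 + ε * t ^ (1 + 2 * s))) * Wp (d + 10) v := hmain.1
      have h7 : Kst * (∑ j, a j) / (1 + ε * t ^ (1 + 2 * s)) ≤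
          Kst * A / (1 + ε * t ^ (1 + 2 * s)) :=
        div_le_div_of_nonneg_right (mul_le_mul_of_nonneg_left hs1a hKst) hX.le
      have h8 : 2 * Real.exp (Kst * ∑ j, a j * len (k j) ^ (2 * s)) * ι ≤ η / 2 :=
        hexp.trans (min_le_right _ _)
      exact h4.trans (mul_le_mul_of_nonneg_right (by linarith) hW.le)
    · have h4 : (1 + ‖v‖) ^ N * (ε⁻¹ * f t x v) ≤ U N := hmain.2 N
      calc (1 + ‖v‖) ^ N * f t x v = ε * ((1 + ‖v‖) ^ N * (ε⁻¹ * f t x v)) := by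
            field_simp
        _ ≤ ε * U N := mul_le_mul_of_nonneg_left h4 hε.le
  obtain ⟨θ₁, hθ₁, U, hU⟩ := hstep 1 one_pos
  refine ⟨U, fun η hη => ?_⟩
  obtain ⟨θ₂, hθ₂, U₂, hU₂⟩ := hstep η hη
  obtain ⟨θ, hθdef⟩ : ∃ θ : ℝ, θ = min θ₁ θ₂ := ⟨_, rfl⟩
  have hθ : 0 < θ := by rw [hθdef]; exact lt_min hθ₁ hθ₂
  have hθ1 : θ ≤ θ₁ := by rw [hθdef]; exact min_le_left _ _
  have hθ2 : θ ≤ θ₂ := by rw [hθdef]; exact min_le_right _ _
  have hKA : 0 ≤ 2 * (Kst * A) / η := by positivity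
  obtain ⟨ε₀, hε₀, hε₁, htime⟩ := hit_time (s := s) (c := 2 * (Kst * A) / η) hs0 hθ hKA
  refine ⟨ε₀, hε₀, hε₁, fun ε hε hεle => ?_⟩
  have ht₂ : 0 < θ / (2 * ε) := by positivity
  refine ⟨θ / (2 * ε), ht₂, fun T f hf hf0 => ?_⟩
  have hε1 : ε ≤ 1 := hεle.trans hε₁
  have hf' : IsClassicalSol T (fun t x => boltzQ γ b (f t x)) f := hf
  have hfr : IsBoltzmannSol γ b (min T (2 * (θ / (2 * ε)))) f :=
    Pool.Agent.H48.PI.sol_restrict hf' (min_le_left _ _)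
  have hT' : ε * min T (2 * (θ / (2 * ε))) ≤ θ := by
    have h3 : min T (2 * (θ / (2 * ε))) ≤ 2 * (θ / (2 * ε)) := min_le_right _ _
    have h4 : ε * (2 * (θ / (2 * ε))) = θ := by field_simp
    calc ε * min T (2 * (θ / (2 * ε))) ≤ ε * (2 * (θ / (2 * ε))) :=
          mul_le_mul_of_nonneg_left h3 hε.le
      _ = θ := h4
  have hmem : ∀ t ∈ Ico 0 T, t ≤ θ / (2 * ε) → t ∈ Ico 0 (min T (2 * (θ / (2 * ε)))) := by
    intro t ht ht2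
    exact ⟨ht.1, lt_min ht.2 (by linarith)⟩
  refine ⟨fun t ht ht2 N x v => ?_, fun hT x v => ?_⟩
  · exact (hU ε hε hε1 _ (hT'.trans hθ1) f hfr hf0 t (hmem t ht ht2) x v).2 N
  · have h4 := (hU₂ ε hε hε1 _ (hT'.trans hθ2) f hfr hf0 (θ / (2 * ε))
      (hmem _ ⟨ht₂.le, hT⟩ le_rfl) x v).1
    have hW := Wp_pos (d + 10) v
    have hX : 0 < 1 + ε * (θ / (2 * ε)) ^ (1 + 2 * s) := by
      have := Real.rpow_pos_of_pos ht₂ (1 + 2 * s)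
      positivity
    have h5 : Kst * A / (1 + ε * (θ / (2 * ε)) ^ (1 + 2 * s)) ≤ η / 2 := by
      have h6 := htime ε hε hεle
      rw [div_le_one hX, div_le_iff₀ hη] at h6
      rw [div_le_iff₀ hX]
      nlinarith
    have h9 : |ε⁻¹ * f (θ / (2 * ε)) x v - avT h v| ≤ η * Wp (d + 10) v := by
      refine h4.trans ?_
      exact mul_le_mul_of_nonneg_right (by linarith) hW.le
    have e : f (θ / (2 * ε)) x v - ε * avT h v = ε * (ε⁻¹ * f (θ / (2 * ε)) x v - avT h v) := by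
      rw [mul_sub, ← mul_assoc, mul_inv_cancel₀ hε.ne', one_mul]
    rw [e, abs_mul, abs_of_pos hε, mul_assoc]
    exact mul_le_mul_of_nonneg_left h9 hε.le

end Pool.Agent.H82.HF
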