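import Pool.Agent.H82.HF.OpV
import Pool.Agent.H82.HF.LayC
import Pool.Agent.H15.HF.SgF

/-!
# Module Lay: THE LAYER LEMMA

`F ≥ 0` is continuous (`hr_cont`) with `∫ F > 0`, so `F v₁ > 0` for some `v₁` and `F ≥ m₀ > 0` on `len (u - v₁) ≤ r₀`. `sg_H` (H15/HF/SgF, `q = 2d+22`) gives `SgH` for `S κ v = sgE γ b 0 F κ v`, `opV` gives `OpP`, `lay_core` concludes.
-/

set_option autoImplicit false

open MeasureTheory Set Filter Topology Pool.Agent.H25.Kin Pool.Agent.H48.PL Pool.Agent.H48.PD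
open Pool.Agent.H82.BK Pool.Agent.H82.CM Pool.Agent.H48.PR

namespace Pool.Agent.H82.HF

variable {d : ℕ} {γ s C Ca cb : ℝ} {b : ℝ → ℝ}

/-- a continuous nonnegative function with positive integral is bounded below on a ball -/
private lemma lay_ball {F : Vec d → ℝ} (hc : Continuous F) (hF0 : ∀ v, 0 ≤ F v)
    (hFm : 0 < ∫ v, F v) : ∃ (v₁ : Vec d) (r₀ m₀ : ℝ), 0 < r₀ ∧ 0 < m₀ ∧
      ∀ u, len (u - v₁) ≤ r₀ → m₀ ≤ F u := by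
  obtain ⟨v₁, hv⟩ : ∃ v₁, 0 < F v₁ := by
    by_contra hcon
    push Not at hcon
    have h1 : F = fun _ => 0 := funext fun v => le_antisymm (hcon v) (hF0 v)
    rw [h1, integral_zero] at hFm
    exact lt_irrefl _ hFm
  obtain ⟨r, hr, hb⟩ := Metric.continuous_iff.1 hc v₁ (F v₁ / 2) (by linarith)
  refine ⟨v₁, r / 2, F v₁ / 2, by linarith, by linarith, fun u hu => ?_⟩
  have h2 : dist u v₁ < r := by
    rw [dist_eq_norm]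
    have h3 : ‖u - v₁‖ ≤ len (u - v₁) := norm_le_len _
    linarith
  have h4 := hb u h2
  rw [Real.dist_eq] at h4
  have h5 := (abs_lt.1 h4).1
  linarith

/-- THE LAYER LEMMA -/
theorem layer (HL : HypL d γ s b C Ca cb) (hb : IsKernel d s b) (h0 : 0 ≤ γ) (hs : 2 * s < 1)
    {α : ℝ} (h1 : 2 * s < α) (h2 : α ≤ 1) {F : Vec d → ℝ} {MF : ℝ} (hF : HR α (2 * d + 22) MF F)
    (hF0 : ∀ v, 0 ≤ F v) (hFm : 0 < ∫ v, F v) :
    ∃ Kst : ℝ, 0 ≤ Kst ∧ ∀ (n : ℕ) (M : ℝ) (a : Fin n → ℝ) (cc : Fin n → Vec d → ℝ)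
      (k : Fin n → Vec d) (φ : Fin n → ℝ), Fam α (2 * d + 22) M a cc k →
    ∀ (B : ℕ → ℝ) (ι : ℝ), 0 < ι →
      2 * Real.exp (Kst * ∑ j, a j * len (k j) ^ (2 * s)) * ι ≤ 1 →
    ∃ θ : ℝ, 0 < θ ∧ ∃ U : ℕ → ℝ, ∀ δ : ℝ, 0 < δ → δ ≤ 1 → ∀ T : ℝ, δ * T ≤ θ →
    ∀ f : ℝ → Vec d → Vec d → ℝ, IsBoltzmannSol γ (fun x => δ * b x) T f →
      (∀ N x v, (1 + ‖v‖) ^ N * f 0 x v ≤ B N) →
      (∀ x v, |f 0 x v - (F v + ∑ j, cc j v * Real.cos (2 * Real.pi * dot (k j) x + φ j))| ≤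
        ι * Wp (d + 10) v) →
    ∀ t ∈ Ico 0 T, ∀ x v,
      |f t x v - F v| ≤ (2 * Real.exp (Kst * ∑ j, a j * len (k j) ^ (2 * s)) * ι +
        Kst * (∑ j, a j) / (1 + δ * t ^ (1 + 2 * s))) * Wp (d + 10) v ∧
      ∀ N, (1 + ‖v‖) ^ N * f t x v ≤ U N := by
  have hα : 0 < α := by linarith [HL.H.hs]
  obtain ⟨v₁, r₀, m₀, hr, hm, hball⟩ := lay_ball (hr_cont hα hF) hF0 hFm
  obtain ⟨K, c, κ₀, hK⟩ := Pool.Agent.H15.HF.sg_H HL h0 hs hα (q := 2 * d + 22) (by omega) MF hr hm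
  have hS := hK F v₁ hF hF0 hball
  exact lay_core HL hb h0 hs h1 h2 hF hS (opV HL.H h0 hs h1 h2 hF hS)

end Pool.Agent.H82.HF
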