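import Pool.Agent.H82.HF.Lay0

/-!
# The operator inequality used by the layer lemma, as a property of the damping rate
-/

set_option autoImplicit false

open MeasureTheory Set Filter Topology Pool.Agent.H25.Kin Pool.Agent.H48.PL Pool.Agent.H48.PD
open Pool.Agent.H82.BK Pool.Agent.H82.CM Pool.Agent.H48.PR

namespace Pool.Agent.H82.HF

variable {d : ℕ}

/-- at a point `v` where `e (f - fa) = Λ W`, `|f - fa| ≤ Λ W`, the collision operator of `f` and the damping terms of `fa` satisfy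
`e (Q(f)(v) + Σ_j S_j A_j cos) ≤ Λ K₅ A t^(2s) (1+X)^(-2) W(v) + K₁ (1+Λ) (1+|v|²)²`; `K₅` does not depend on the family -/
def OpP (γ s α : ℝ) (b : ℝ → ℝ) (S : Vec d → Vec d → ℝ) (F : Vec d → ℝ) : Prop :=
  ∃ K₅ : ℝ, 0 ≤ K₅ ∧ ∀ (n : ℕ) (M : ℝ) (a : Fin n → ℝ) (cc : Fin n → Vec d → ℝ)
      (k : Fin n → Vec d), Fam α (2 * d + 22) M a cc k → ∀ Mf : ℝ,
    ∃ K₁ : ℝ, 0 ≤ K₁ ∧ ∀ δ : ℝ, 0 < δ → δ ≤ 1 → ∀ t : ℝ, 0 < t → ∀ (φ : Fin n → ℝ) (x : Vec d)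
      (f : Vec d → ℝ), Nice f → (∀ u, 0 ≤ f u) → (∀ u, f u ≤ Mf * Wp (d + 10) u) →
    ∀ Λ : ℝ, 0 ≤ Λ → (∀ u, |f u - fa S δ F cc k φ t x u| ≤ Λ * Wp (d + 10) u) →
    ∀ (e : ℝ) (v : Vec d), |e| = 1 → e * (f v - fa S δ F cc k φ t x v) = Λ * Wp (d + 10) v →
      e * (boltzQ γ b f v + ∑ j, S ((2 * Real.pi * t) • k j) v *
        (Am S δ (cc j) (k j) t v *
          Real.cos (2 * Real.pi * dot (k j) x + φ j - dot ((2 * Real.pi * t) • k j) v))) ≤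
        Λ * (K₅ * (∑ j, a j * len (k j) ^ (2 * s)) *
          (t ^ (2 * s) * ((1 + δ * t ^ (1 + 2 * s)) ^ 2)⁻¹) * Wp (d + 10) v) +
          K₁ * (1 + Λ) * (1 + nsq v) ^ 2

end Pool.Agent.H82.HF
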