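import Pool.Agent.H82.HF.OpD
import Pool.Agent.H82.HF.Cont
import Pool.Agent.H82.HF.TchL
import Pool.Agent.H15.HF.Res

/-!
# Module OpV: the operator inequality for a classical slice and the approximate solution

`S κ v = sgE γ b 0 F κ v` (H15/HF), `p = d+10`, `q = 2d+20`. Fix `t > 0`, `x`; `G = fa S δ F cc k φ t x = GG F A (lam • k) θ` with `lam = 2πt`, `A_j = Am S δ (cc j) (k j) t`, `θ_j = 2π dot (k j) x + φ j` (`fa` unfolds to this). `F` and `A_j` are of the class `HR α q Cq` with one constant `Cq` (`amp_hr`, `hr_mono` for `F`; enlarge the constant: the class is monotone in the constant).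
`osc` (Amp; name clash with `Pool.Agent.H15.HF.osc`: write `Pool.Agent.H82.HF.osc`) gives `K₃`, `M'`: `|G| ≤ M' Wp q ≤ M' Wp p`, increments with `a_j' = 2 K₃ a_j ((1+X)²)⁻¹ Wp (q+2) v ≥ 0`, `N_j = 2π t len (k j)`.
`tchL` with `M = max` of `M'`, `Mf`: for every `ε > 0`: `e (boltzCut_ε f v - boltzCut_ε G v) ≤ Λ (K₁ (1+|v|²)² + K₂ (1+|v|²) Σ_j a_j' N_j^(2s))`.
`resT` (H15/HF/Res): eventually for `ε → 0+`: `|boltzCut_ε G v + Σ_j S_j A_j(v) cos(..)| ≤ K_r (1+|v|²)²`. Add: eventually `e (boltzCut_ε f v + Σ_j S_j A_j cos) ≤ Λ (..) + K_r (1+|v|²)²` (`|e| = 1`). `boltz_tendsto` for `f` (`Nice`), `le_of_tendsto`.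
Then `(1+|v|²) Wp (q+2) v = Wp (q+1) v ≤ Wp p v` and `N_j^(2s) = (2π)^(2s) t^(2s) (len k_j)^(2s)` (`Real.mul_rpow`): `K₂ (1+|v|²) Σ a_j' N_j^(2s) ≤ K₅ t^(2s) ((1+X)²)⁻¹ (Σ a_j (len k_j)^(2s)) Wp p v` with `K₅ = 2 K₂ K₃ (2π)^(2s)`, which does not depend on the family. `a_j ≥ 0` because `|c_j 0| ≤ a_j Wp 0`.
-/

set_option autoImplicit false

open MeasureTheory Set Filter Topology Pool.Agent.H25.Kin Pool.Agent.H48.PL Pool.Agent.H48.PD
open Pool.Agent.H82.BK Pool.Agent.H82.CM Pool.Agent.H48.PR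

namespace Pool.Agent.H82.HF

variable {d : ℕ} {γ s C Ca : ℝ} {b : ℝ → ℝ}

private lemma opV_wp {q q' : ℕ} (hq : q ≤ q') (v : Vec d) : Wp q' v ≤ Wp q v := by
  have h0 : 0 ≤ nsq v := sq_nonneg' v
  unfold Wp
  exact inv_anti₀ (pow_pos (by linarith) q) (pow_le_pow_right₀ (by linarith) hq)

private lemma opV_wp1 (q : ℕ) (v : Vec d) : (1 + nsq v) * Wp (q + 1) v = Wp q v := by
  have h0 : 0 ≤ nsq v := sq_nonneg' v
  have h1 : (1 + nsq v) ≠ 0 := by linarith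
  unfold Wp
  rw [pow_succ]
  field_simp

private lemma opV_const {α : ℝ} {q : ℕ} {M M' : ℝ} {a : Vec d → ℝ} (h : HR α q M a)
    (hM : M ≤ M') : HR α q M' a where
  nn := h.nn.trans hM
  le := fun v => (h.le v).trans (mul_le_mul_of_nonneg_right hM (Wp_pos q v).le)
  hol := fun v z => by
    refine (h.hol v z).trans ?_
    have h1 : 0 ≤ min 1 (len z) ^ α :=
      Real.rpow_nonneg (le_min zero_le_one (len_nonneg z)) α
    have h2 : 0 ≤ Wp q v + Wp q (v + z) := add_nonneg (Wp_pos q v).le (Wp_pos q (v + z)).le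
    exact mul_le_mul_of_nonneg_right (mul_le_mul_of_nonneg_right hM h1) h2

theorem opV (H : Hyp d γ s b C Ca) (h0 : 0 ≤ γ) (hs : 2 * s < 1) {α : ℝ} (h1 : 2 * s < α)
    (h2 : α ≤ 1) {K c κ₀ MF : ℝ} {F : Vec d → ℝ} (hF : HR α (2 * d + 22) MF F)
    (hS : SgH s α K c κ₀ (fun κ v => Pool.Agent.H15.HF.sgE γ b 0 F κ v)) :
    OpP γ s α b (fun κ v => Pool.Agent.H15.HF.sgE γ b 0 F κ v) F := by
  have hs0 : 0 < s := H.hs
  have hα : 0 < α := by linarith
  obtain ⟨K₃, hK₃, hosc⟩ := Pool.Agent.H82.HF.osc hs0 hα hS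
  obtain ⟨K₂, hK₂, htch⟩ := tchL H h0 hs h1 h2 (p := d + 10) le_rfl
  have hp : 0 ≤ (2 * Real.pi) ^ (2 * s) := Real.rpow_nonneg (by positivity) _
  refine ⟨2 * K₂ * K₃ * (2 * Real.pi) ^ (2 * s), by positivity,
    fun n M a cc k hFam Mf => ?_⟩
  obtain ⟨M', hM', hosc'⟩ := hosc (2 * d + 20) n M MF F a cc k hF hFam
  obtain ⟨M₁, hM₁, hAm⟩ := amp_hr hs0 hα hS hFam
  have hFq : HR α (2 * d + 20) MF F := hr_mono (by omega) hF
  obtain ⟨Kr, hKr, hres⟩ := Pool.Agent.H15.HF.resT H h0 hs h1 h2 (q := 2 * d + 20) (by omega)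
    (max MF M₁) k hFam.hk0
  obtain ⟨K₁, hK₁, htch'⟩ := htch (max M' Mf)
  refine ⟨K₁ + Kr, by positivity, ?_⟩
  intro δ hδ hδ1 t ht φ x f hf hf0 hfM Λ hΛ hle e v he htouch
  set S : Vec d → Vec d → ℝ := fun κ v => Pool.Agent.H15.HF.sgE γ b 0 F κ v with hSdef
  have hlam : 0 ≤ 2 * Real.pi * t := by positivity
  have hG : ∀ u, fa S δ F cc k φ t x u = GG F (fun j => Am S δ (cc j) (k j) t)
      (fun j => (2 * Real.pi * t) • k j) (fun j => 2 * Real.pi * dot (k j) x + φ j) u :=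
    fun u => rfl
  have hcG : Continuous (fa S δ F cc k φ t x) := by
    have h3 := fa_cont hs0 hα hS hF hFam φ δ
    exact h3.comp (continuous_const.prodMk (continuous_const.prodMk continuous_id))
  have hGle : ∀ u, |fa S δ F cc k φ t x u| ≤ max M' Mf * Wp (d + 10) u := by
    intro u
    refine (hosc' δ hδ hδ1 t ht.le φ x u).1.trans ?_
    exact mul_le_mul (le_max_left _ _) (opV_wp (by omega) u) (Wp_pos _ u).le
      (hM'.trans (le_max_left _ _))
  have hfle : ∀ u, f u ≤ max M' Mf * Wp (d + 10) u := fun u =>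
    (hfM u).trans (mul_le_mul_of_nonneg_right (le_max_right _ _) (Wp_pos _ u).le)
  have ha0 : ∀ j, 0 ≤ a j := by
    intro j
    have h3 := (abs_nonneg _).trans (hFam.ha j 0)
    exact nonneg_of_mul_nonneg_left h3 (Wp_pos (2 * d + 22) (0 : Vec d))
  have hX : 0 ≤ δ * t ^ (1 + 2 * s) := mul_nonneg hδ.le (Real.rpow_nonneg ht.le _)
  set Y : ℝ := ((1 + δ * t ^ (1 + 2 * s)) ^ 2)⁻¹ with hY
  have hY0 : 0 ≤ Y := by positivity
  have hinc : ∀ h, |fa S δ F cc k φ t x (v + h) - fa S δ F cc k φ t x v| ≤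
      max M' Mf * min 1 (len h) ^ α +
        ∑ j, (2 * K₃ * a j * Y * Wp (2 * d + 20 + 2) v) *
          min 1 ((2 * Real.pi * t * len (k j)) * len h) := by
    intro h
    refine ((hosc' δ hδ hδ1 t ht.le φ x v).2.2 h).trans ?_
    have h3 : 0 ≤ min 1 (len h) ^ α :=
      Real.rpow_nonneg (le_min zero_le_one (len_nonneg h)) α
    have h4 := mul_le_mul_of_nonneg_right (le_max_left M' Mf) h3
    linarith
  have hA0 : ∀ j, 0 ≤ 2 * K₃ * a j * Y * Wp (2 * d + 20 + 2) v := by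
    intro j
    have h3 := ha0 j
    have h4 := (Wp_pos (2 * d + 20 + 2) v).le
    positivity
  have hN0 : ∀ j, 0 ≤ 2 * Real.pi * t * len (k j) := fun j =>
    mul_nonneg hlam (len_nonneg (k j))
  have hcut : ∀ ε : ℝ, 0 < ε → e * (boltzCut γ b ε f v -
      boltzCut γ b ε (fa S δ F cc k φ t x) v) ≤
      Λ * (K₁ * (1 + nsq v) ^ 2 + K₂ * (1 + nsq v) *
        ∑ j, (2 * K₃ * a j * Y * Wp (2 * d + 20 + 2) v) *
          (2 * Real.pi * t * len (k j)) ^ (2 * s)) :=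
    htch' f (fa S δ F cc k φ t x) hf.cont hcG hf0 hfle hGle Λ hΛ hle v n
      (fun j => 2 * K₃ * a j * Y * Wp (2 * d + 20 + 2) v)
      (fun j => 2 * Real.pi * t * len (k j)) hA0 hN0 hinc e he htouch
  have hFc : HR α (2 * d + 20) (max MF M₁) F := opV_const hFq (le_max_left _ _)
  have hAc : ∀ j, HR α (2 * d + 20) (max MF M₁) (Am S δ (cc j) (k j) t) := fun j =>
    opV_const (hAm δ hδ hδ1 t ht.le j) (le_max_right _ _)
  have hev := hres (2 * Real.pi * t) (fun j => 2 * Real.pi * dot (k j) x + φ j) F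
    (fun j => Am S δ (cc j) (k j) t) v hlam hFc hAc
  set P : ℝ := ∑ j, S ((2 * Real.pi * t) • k j) v *
        (Am S δ (cc j) (k j) t v *
          Real.cos (2 * Real.pi * dot (k j) x + φ j - dot ((2 * Real.pi * t) • k j) v)) with hP
  have hn : 0 ≤ nsq v := sq_nonneg' v
  have hsum : K₂ * (1 + nsq v) * ∑ j, (2 * K₃ * a j * Y * Wp (2 * d + 20 + 2) v) *
      (2 * Real.pi * t * len (k j)) ^ (2 * s) ≤
      2 * K₂ * K₃ * (2 * Real.pi) ^ (2 * s) * (∑ j, a j * len (k j) ^ (2 * s)) *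
        (t ^ (2 * s) * Y) * Wp (d + 10) v := by
    have h3 : ∀ j, (2 * K₃ * a j * Y * Wp (2 * d + 20 + 2) v) *
        (2 * Real.pi * t * len (k j)) ^ (2 * s) =
        (2 * K₃ * Y * Wp (2 * d + 20 + 2) v * (2 * Real.pi) ^ (2 * s) * t ^ (2 * s)) *
          (a j * len (k j) ^ (2 * s)) := by
      intro j
      rw [Real.mul_rpow hlam (len_nonneg _), Real.mul_rpow (by positivity) ht.le]
      ring
    rw [Finset.sum_congr rfl fun j _ => h3 j, ← Finset.mul_sum]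
    have h4 : 0 ≤ ∑ j, a j * len (k j) ^ (2 * s) :=
      Finset.sum_nonneg fun j _ => mul_nonneg (ha0 j) (Real.rpow_nonneg (len_nonneg _) _)
    have h5 : (1 + nsq v) * Wp (2 * d + 20 + 2) v ≤ Wp (d + 10) v := by
      have h6 := opV_wp1 (2 * d + 21) v
      have h7 : Wp (2 * d + 20 + 2) v = Wp (2 * d + 21 + 1) v := rfl
      rw [h7, h6]
      exact opV_wp (by omega) v
    have h8 : 0 ≤ 2 * K₂ * K₃ * (2 * Real.pi) ^ (2 * s) * (∑ j, a j * len (k j) ^ (2 * s)) *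
        (t ^ (2 * s) * Y) := by
      have h9 : 0 ≤ t ^ (2 * s) := Real.rpow_nonneg ht.le _
      positivity
    calc K₂ * (1 + nsq v) * (2 * K₃ * Y * Wp (2 * d + 20 + 2) v * (2 * Real.pi) ^ (2 * s) *
          t ^ (2 * s) * ∑ j, a j * len (k j) ^ (2 * s)) =
        2 * K₂ * K₃ * (2 * Real.pi) ^ (2 * s) * (∑ j, a j * len (k j) ^ (2 * s)) *
        (t ^ (2 * s) * Y) * ((1 + nsq v) * Wp (2 * d + 20 + 2) v) := by ring
      _ ≤ _ := mul_le_mul_of_nonneg_left h5 h8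
  have hlim : Tendsto (fun ε => e * (boltzCut γ b ε f v + P)) (𝓝[>] 0)
      (𝓝 (e * (boltzQ γ b f v + P))) :=
    ((boltz_tendsto H hf v).add_const P).const_mul e
  refine le_of_tendsto hlim ?_
  filter_upwards [hev, self_mem_nhdsWithin] with ε h3 h4
  have h5 := hcut ε h4
  have h6 : |boltzCut γ b ε (fa S δ F cc k φ t x) v + P| ≤ Kr * (1 + nsq v) ^ 2 := h3
  have h7 : e * (boltzCut γ b ε (fa S δ F cc k φ t x) v + P) ≤ Kr * (1 + nsq v) ^ 2 := by
    refine (le_abs_self _).trans ?_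
    rw [abs_mul, he, one_mul]
    exact h6
  have h8 : e * (boltzCut γ b ε f v + P) =
      e * (boltzCut γ b ε f v - boltzCut γ b ε (fa S δ F cc k φ t x) v) +
        e * (boltzCut γ b ε (fa S δ F cc k φ t x) v + P) := by ring
  rw [h8]
  have h9 := mul_le_mul_of_nonneg_left hsum hΛ
  have h10 : 0 ≤ (1 + nsq v) ^ 2 := by positivity
  have h11 : 0 ≤ K₁ * (1 + nsq v) ^ 2 := mul_nonneg hK₁ h10
  have h12 : 0 ≤ Λ * (Kr * (1 + nsq v) ^ 2) := mul_nonneg hΛ (mul_nonneg hKr h10)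
  nlinarith

end Pool.Agent.H82.HF
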