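import Pool.Agent.H82.HF.Lay0
import Pool.Agent.H25.PN.CmpL
import Pool.Agent.H25.PN.ScaB
import Pool.Agent.H25.Kin.Char

/-!
# Module Scl: the space-time scaling of classical solutions

`g(t,x,v) = f(λt, λx, v)`, `λ = n ≥ 1` a natural number. `unc g = unc f ∘ L` with the continuous linear map `L(t,x,v) = (λt, λx, v)`; `L` maps `(0,T/λ) × ..` into `(0,T) × ..`.
* nonneg, continuity (composition with a continuous map), `C²` (`ContDiffOn.comp`): immediate. Period: `λ(x + e_i) = λx + n e_i`, `n` times the period of `f` (induction; see `per`-type lemmas or `Function.Periodic.nat_mul`).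
* decay: `f` at `λt ≤ λT₁ < T`. decay12: `derivs12 g = derivs (unc f ∘ L) ≤ (‖L‖+‖L‖²) derivs12 f` at the image point (`derivs_cmp`, H25/PN/CmpL).
* equation: `transport g = fderiv (unc f) (L p) (L (1,v,0))`, `L (1,v,0) = λ (1,v,0)` (`fderiv_cmp`, `map_smul`): `= λ transport f = λ boltzQ γ b (f ..) v = boltzQ γ (λ b) (g t x) v` (`boltzQ_scale`, slices are `Nice`: `IsClassicalSol.nice`).
See H25/PN/SolC.lean, H25/PN/SolA, SolB (same scheme with a rotation) for the pattern.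
-/

set_option autoImplicit false

open MeasureTheory Set Filter Topology Pool.Agent.H25.Kin Pool.Agent.H48.PL

namespace Pool.Agent.H82.HF

variable {d : ℕ} {γ s : ℝ} {b : ℝ → ℝ}

/-- the linear map `(t,x,v) ↦ (μt, μx, v)` -/
private noncomputable def sclM (d : ℕ) (μ : ℝ) : (ℝ × Vec d × Vec d) →ₗ[ℝ] (ℝ × Vec d × Vec d) where
  toFun p := (μ * p.1, μ • p.2.1, p.2.2)
  map_add' p q := by
    refine Prod.ext ?_ (Prod.ext ?_ ?_)
    · show μ * (p.1 + q.1) = μ * p.1 + μ * q.1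
      ring
    · show μ • (p.2.1 + q.2.1) = μ • p.2.1 + μ • q.2.1
      exact smul_add _ _ _
    · rfl
  map_smul' c p := by
    refine Prod.ext ?_ (Prod.ext ?_ ?_)
    · show μ * (c * p.1) = c * (μ * p.1)
      ring
    · show μ • (c • p.2.1) = c • (μ • p.2.1)
      exact smul_comm _ _ _
    · rfl

private noncomputable def sclL (d : ℕ) (μ : ℝ) : (ℝ × Vec d × Vec d) →L[ℝ] (ℝ × Vec d × Vec d) :=
  LinearMap.toContinuousLinearMap (sclM d μ)

private lemma sclL_apply (μ t : ℝ) (x v : Vec d) : sclL d μ (t, x, v) = (μ * t, μ • x, v) := rfl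

private lemma unc_scl (μ : ℝ) (f : ℝ → Vec d → Vec d → ℝ) :
    unc (fun t x v => f (μ * t) (μ • x) v) = fun q => unc f (sclL d μ q) := rfl

private lemma per_nat {F : Vec d → ℝ} {i : Fin d} (h : ∀ x, F (x + Pi.single i 1) = F x) (m : ℕ)
    (x : Vec d) : F (x + (m : ℝ) • (Pi.single i (1 : ℝ) : Vec d)) = F x := by
  induction m with
  | zero => simp
  | succ m ih =>
    have e : x + ((m + 1 : ℕ) : ℝ) • (Pi.single i (1 : ℝ) : Vec d) =
        (x + (m : ℝ) • (Pi.single i (1 : ℝ) : Vec d)) + Pi.single i 1 := by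
      push_cast
      rw [add_smul, one_smul, add_assoc]
    rw [e, h, ih]

theorem scl_sol (hd : 2 ≤ d) (hs0 : s ∈ Ioo (0 : ℝ) 1) (h0 : 0 ≤ γ + 2 * s) (h2 : γ + 2 * s ≤ 2)
    (hb : IsKernel d s b) {T : ℝ} {f : ℝ → Vec d → Vec d → ℝ} (hf : IsBoltzmannSol γ b T f)
    {n : ℕ} (hn : 1 ≤ n) :
    IsBoltzmannSol γ (fun x => (n : ℝ) * b x) (T / n)
      (fun t x v => f ((n : ℝ) * t) ((n : ℝ) • x) v) := by
  have hμ : (0 : ℝ) < n := by exact_mod_cast hn
  set μ : ℝ := (n : ℝ) with hμn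
  have hlt : ∀ {t : ℝ}, t < T / μ → μ * t < T := by
    intro t ht
    rw [lt_div_iff₀ hμ] at ht
    linarith [mul_comm t μ]
  have hIco : ∀ {t : ℝ}, t ∈ Ico 0 (T / μ) → μ * t ∈ Ico 0 T := fun ht =>
    ⟨mul_nonneg hμ.le ht.1, hlt ht.2⟩
  have hIoo : ∀ {t : ℝ}, t ∈ Ioo 0 (T / μ) → μ * t ∈ Ioo 0 T := fun ht =>
    ⟨mul_pos hμ ht.1, hlt ht.2⟩
  have hU : IsOpen (Ioo (0 : ℝ) T ×ˢ (univ : Set (Vec d × Vec d))) := isOpen_Ioo.prod isOpen_univ
  unfold IsBoltzmannSol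
  refine ⟨?_, ?_, ?_, ?_, ?_, ?_, ?_⟩
  · intro t ht x v
    exact hf.nonneg _ (hIco ht) _ _
  · intro t ht x v i
    show f (μ * t) (μ • (x + Pi.single i 1)) v = f (μ * t) (μ • x) v
    rw [smul_add, hμn]
    exact per_nat (F := fun z => f ((n : ℝ) * t) z v)
      (fun z => hf.periodic _ (hIco ht) z v i) n _
  · unfold ContOn
    rw [unc_scl]
    refine hf.isCont.comp (sclL d μ).continuous.continuousOn ?_
    rintro ⟨t, x, v⟩ hq
    rw [sclL_apply]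
    exact ⟨hIco hq.1, mem_univ _⟩
  · unfold C2On
    rw [unc_scl]
    refine hf.isC2.comp (sclL d μ).contDiff.contDiffOn ?_
    rintro ⟨t, x, v⟩ hq
    rw [sclL_apply]
    exact ⟨hIoo hq.1, mem_univ _⟩
  · intro T₁ hT₁ N
    obtain ⟨C, hC⟩ := hf.decay (μ * T₁) (hlt hT₁) N
    exact ⟨C, fun t ht x v =>
      hC (μ * t) ⟨mul_nonneg hμ.le ht.1, mul_le_mul_of_nonneg_left ht.2 hμ.le⟩ _ _⟩
  · intro T₀ hT₀ T₁ hT₁ N
    obtain ⟨C, hC⟩ := hf.decay12 (μ * T₀) (mul_pos hμ hT₀) (μ * T₁) (hlt hT₁) N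
    refine ⟨(‖sclL d μ‖ + ‖sclL d μ‖ ^ 2) * C, fun t ht x v => ?_⟩
    have ht' : μ * t ∈ Icc (μ * T₀) (μ * T₁) :=
      ⟨mul_le_mul_of_nonneg_left ht.1 hμ.le, mul_le_mul_of_nonneg_left ht.2 hμ.le⟩
    have hp : sclL d μ (t, x, v) ∈ Ioo (0 : ℝ) T ×ˢ (univ : Set (Vec d × Vec d)) := by
      rw [sclL_apply]
      exact ⟨⟨lt_of_lt_of_le (mul_pos hμ hT₀) ht'.1, lt_of_le_of_lt ht'.2 (hlt hT₁)⟩, mem_univ _⟩
    have h3 : derivs12 (fun t x v => f (μ * t) (μ • x) v) t x v ≤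
        (‖sclL d μ‖ + ‖sclL d μ‖ ^ 2) * derivs12 f (μ * t) (μ • x) v := by
      unfold derivs12
      rw [unc_scl]
      have := Pool.Agent.H25.PN.derivs_cmp (sclL d μ) hU hf.isC2 hp
      rwa [sclL_apply] at this
    have h4 := hC (μ * t) ht' (μ • x) v
    have hN : 0 ≤ (1 + ‖v‖) ^ N := by positivity
    have hL : 0 ≤ ‖sclL d μ‖ + ‖sclL d μ‖ ^ 2 := by positivity
    calc (1 + ‖v‖) ^ N * derivs12 (fun t x v => f (μ * t) (μ • x) v) t x v
        ≤ (1 + ‖v‖) ^ N * ((‖sclL d μ‖ + ‖sclL d μ‖ ^ 2) * derivs12 f (μ * t) (μ • x) v) :=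
          mul_le_mul_of_nonneg_left h3 hN
      _ = (‖sclL d μ‖ + ‖sclL d μ‖ ^ 2) * ((1 + ‖v‖) ^ N * derivs12 f (μ * t) (μ • x) v) := by ring
      _ ≤ _ := mul_le_mul_of_nonneg_left h4 hL
  · intro t ht x v
    have ht' := hIoo ht
    have e0 : ((μ * 1, μ • v, (0 : Vec d)) : ℝ × Vec d × Vec d) = μ • ((1 : ℝ), v, (0 : Vec d)) := by
      refine Prod.ext ?_ (Prod.ext ?_ ?_)
      · simp
      · simp
      · simp
    have e1 : transport (fun t x v => f (μ * t) (μ • x) v) t x v =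
        μ * transport f (μ * t) (μ • x) v := by
      unfold transport
      rw [unc_scl, Pool.Agent.H25.PN.fderiv_cmp (sclL d μ) hU hf.isC2
        (by rw [sclL_apply]; exact ⟨ht', trivial⟩), sclL_apply, sclL_apply, e0, map_smul,
        smul_eq_mul]
    rw [e1, hf.solves (μ * t) ht' _ _]
    exact (Pool.Agent.H25.PN.boltzQ_scale hd hs0.1 hs0.2 h0 h2 hb μ
      (IsClassicalSol.nice hf ht' _) v).symm

end Pool.Agent.H82.HF
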